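import Mathlib

/-!
Project PB (frozen statement S19313, MP_5300c3_pr), part AF: Fourier analysis and bootstrap of the
lace expansion (section 4.5 of pb_proof_1.md), abstract form.  Common definitions.
-/

open MeasureTheory Filter Topology
open scoped ENNReal

namespace Pool.Agent.PB.AF

/-- Points of the lattice. -/
abbrev Z (d : ℕ) := Fin d → ℤ

variable {d : ℕ}

/-! ### Functions with values in `[0,∞]` -/

/-- Convolution of `[0,∞]`-valued functions. -/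
noncomputable def cv (f g : Z d → ℝ≥0∞) : Z d → ℝ≥0∞ := fun x => ∑' y, f y * g (x - y)

/-- `δ_0`. -/
noncomputable def dl : Z d → ℝ≥0∞ := fun x => if x = 0 then 1 else 0

/-- `m`-fold convolution: `cpow f 0 = δ_0`, `cpow f (m+1) = f * cpow f m`. -/
noncomputable def cpow (f : Z d → ℝ≥0∞) : ℕ → Z d → ℝ≥0∞
  | 0 => dl
  | m + 1 => cv f (cpow f m)

/-- `J_p(x) = p` if `|x|_1 = 1`, and `0` otherwise. -/
noncomputable def J (p : ℝ) : Z d → ℝ≥0∞ :=
  fun x => if ∑ i, |x i| = 1 then ENNReal.ofReal p else 0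

/-- `|x|_2^2`. -/
def n2 (x : Z d) : ℕ := ∑ i, (x i).natAbs ^ 2

/-- `f_w(x) = |x|_2^2 f(x)`. -/
noncomputable def tw (f : Z d → ℝ≥0∞) : Z d → ℝ≥0∞ := fun x => (n2 x : ℝ≥0∞) * f x

/-- `sup_x (J_p * g)(x)`. -/
noncomputable def sJ (p : ℝ) (g : Z d → ℝ≥0∞) : ℝ≥0∞ := ⨆ x, cv (J p) g x

/-- The sum of all small quantities:
`sup J*τ*τ*τ + sup J*τ*τ*τ_w + sup J*τ*τ_w`. -/
noncomputable def small (p : ℝ) (f : Z d → ℝ≥0∞) : ℝ≥0∞ :=
  sJ p (cpow f 3) + sJ p (cv f (cv f (tw f))) + sJ p (cv f (tw f))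

/-- The bounded quantities: `1 + (τ*τ*τ*τ)(0) + (τ*τ*τ*τ_w)(0)`. -/
noncomputable def bigB (f : Z d → ℝ≥0∞) : ℝ≥0∞ := 1 + cpow f 4 0 + cv (cpow f 3) (tw f) 0

/-- `ρ = K (bigB)^K small`. -/
noncomputable def rho (K : ℕ) (p : ℝ) (f : Z d → ℝ≥0∞) : ℝ≥0∞ :=
  (K : ℝ≥0∞) * bigB f ^ K * small p f

/-- the `[0,∞]`-valued version of a real function -/
noncomputable def en (f : Z d → ℝ) : Z d → ℝ≥0∞ := fun x => ENNReal.ofReal (f x)

/-! ### Real functions -/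

/-- Convolution of real functions. -/
noncomputable def rcv (f g : Z d → ℝ) : Z d → ℝ := fun x => ∑' y, f y * g (x - y)

/-- real `m`-fold convolution, `rpw f 0 = δ`. -/
noncomputable def rpw (f : Z d → ℝ) : ℕ → Z d → ℝ
  | 0 => fun x => if x = 0 then 1 else 0
  | m + 1 => rcv f (rpw f m)

/-- real `J_p`. -/
noncomputable def Jr (p : ℝ) : Z d → ℝ := fun x => if ∑ i, |x i| = 1 then p else 0

/-- real `f_w`. -/
noncomputable def rw2 (f : Z d → ℝ) : Z d → ℝ := fun x => (n2 x : ℝ) * f x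

/-- Invariance under permutations of the coordinates and under sign changes of a coordinate. -/
def Sym (f : Z d → ℝ) : Prop :=
  (∀ (σ : Equiv.Perm (Fin d)) (x : Z d), f (fun i => x (σ i)) = f x) ∧
    ∀ (i : Fin d) (x : Z d), f (Function.update x i (-x i)) = f x

/-- Finite absolute mass and second moment. -/
def M2 (f : Z d → ℝ) : Prop := Summable (fun x => (1 + (n2 x : ℝ)) * |f x|)

/-- The `ℓ^1`-norm. -/
noncomputable def l1 (f : Z d → ℝ) : ℝ := ∑' x, |f x|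

/-- The second moment of `|f|`. -/
noncomputable def m2 (f : Z d → ℝ) : ℝ := ∑' x, (n2 x : ℝ) * |f x|

/-! ### The interface with percolation -/

/-- What the analysis needs to know about the two point functions `τ p`, `0 ≤ p < pc`. -/
structure Lace (K : ℕ) (d : ℕ) (pc : ℝ) (τ : ℝ → Z d → ℝ) : Prop where
  nonneg : ∀ p x, 0 ≤ τ p x
  le_one : ∀ p x, τ p x ≤ 1
  zero : ∀ x, τ 0 x = if x = 0 then 1 else 0
  at0 : ∀ p, τ p 0 = 1
  sym : ∀ p, Sym (τ p)
  summ : ∀ p, 0 ≤ p → p < pc → M2 (τ p)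
  mono : ∀ p q x, 0 ≤ p → p ≤ q → q < pc → τ p x ≤ τ q x
  cont : ∀ x, ContinuousOn (fun p => τ p x) (Set.Ico 0 pc)
  exp : ∀ p, 0 ≤ p → p < pc → rho K p (en (τ p)) ≤ 1 →
    ∃ P : Z d → ℝ, Sym P ∧ M2 P ∧
      ENNReal.ofReal (l1 (fun x => P x - if x = 0 then 1 else 0)) ≤ rho K p (en (τ p)) ∧
      ENNReal.ofReal (m2 P) ≤ rho K p (en (τ p)) ∧
      ∀ x, τ p x = P x + rcv (rcv P (Jr p)) (τ p) x

/-! ### Fourier transforms on the torus -/

/-- `k · x`. -/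
noncomputable def dot (k : Fin d → ℝ) (x : Z d) : ℝ := ∑ i, k i * (x i : ℝ)

/-- `∑ f(x) cos(k·x)`. -/
noncomputable def ft (f : Z d → ℝ) (k : Fin d → ℝ) : ℝ := ∑' x, f x * Real.cos (dot k x)

/-- `∑ x_i f(x) sin(k·x)` (minus the `i`-th derivative of `ft f`). -/
noncomputable def ft1 (i : Fin d) (f : Z d → ℝ) (k : Fin d → ℝ) : ℝ :=
  ∑' x, (x i : ℝ) * f x * Real.sin (dot k x)

/-- `∑ x_i^2 f(x) cos(k·x)` (minus the second derivative of `ft f`). -/
noncomputable def ft2 (i : Fin d) (f : Z d → ℝ) (k : Fin d → ℝ) : ℝ :=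
  ∑' x, (x i : ℝ) ^ 2 * f x * Real.cos (dot k x)

/-- `(1/d) ∑ cos k_i`. -/
noncomputable def Dh (k : Fin d → ℝ) : ℝ := (∑ i, Real.cos (k i)) / d

/-- normalised Lebesgue measure on `(-π,π]`. -/
noncomputable def q1 : Measure ℝ :=
  ENNReal.ofReal (1 / (2 * Real.pi)) • (volume.restrict (Set.Ioc (-Real.pi) Real.pi))

/-- normalised Lebesgue measure on the cube `(-π,π]^d`. -/
noncomputable def Q (d : ℕ) : Measure (Fin d → ℝ) := Measure.pi (fun _ => q1)

instance : IsProbabilityMeasure q1 := by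
  constructor
  simp only [q1, Measure.smul_apply, Measure.restrict_apply MeasurableSet.univ, Set.univ_inter,
    Real.volume_Ioc, smul_eq_mul]
  rw [← ENNReal.ofReal_mul (by positivity)]
  have : 1 / (2 * Real.pi) * (Real.pi - -Real.pi) = 1 := by
    field_simp
    ring
  rw [this, ENNReal.ofReal_one]

instance : IsProbabilityMeasure (Q d) := by unfold Q; infer_instance

/-- The random walk integral `∫ (1-Dh)^{-m}`, in `[0,∞]`. -/
noncomputable def Im (d m : ℕ) : ℝ≥0∞ := ∫⁻ k, (ENNReal.ofReal (1 - Dh k))⁻¹ ^ m ∂(Q d)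

/-! ### The bootstrap function -/

/-- `max(2dp, sup_k (1-Dh)|τ^|, sup_k (d/13) (1-Dh)^2 |∂_i^2 τ^|)`, the last supremum over `k` and `i`. -/
noncomputable def boot (d : ℕ) (τ : ℝ → Z d → ℝ) (p : ℝ) : ℝ :=
  max (2 * d * p) (max (⨆ k, (1 - Dh k) * |ft (τ p) k|)
    (⨆ a : Fin d × (Fin d → ℝ), (d / 13 : ℝ) * (1 - Dh a.2) ^ 2 * |ft2 a.1 (τ p) a.2|))

end Pool.Agent.PB.AF
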