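import Pool.Agent.PB.Defs
import Pool.Agent.PB.AF.Defs

/-!
Project PB, section 4.5: interface between the percolation side (sections 3, 4.1-4.4) and the
abstract analysis AF.  Dictionary between `Pool.Agent.PB` and `Pool.Agent.PB.AF` functions.
No sorry in this file.
-/

set_option autoImplicit false
open MeasureTheory Filter Topology
open scoped ENNReal BigOperators

namespace Pool.Agent.PB.AFB

variable {d : ℕ}

/-- the remainders `Ecal_0 Ecal^N g_x` of the lace expansion -/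
noncomputable def RN (p : ℝ) (N : ℕ) (x : V d) : ℝ≥0∞ :=
  Ecal0 p ((EcalF p)^[N] (fun A y => gx p x (Del.ofSet (A : Set (V d))) y))

/-- `K (1 + B_4 + B^w_4)^K (s_3 + sup J*τ*τ*τ_w + sup J*τ*τ_w)` -/
noncomputable def rhoT (K : ℕ) (d : ℕ) (p : ℝ) : ℝ≥0∞ :=
  (K : ℝ≥0∞) * (1 + Bm d p 4 + Bw d p 3) ^ K *
    (sm d p 3 + supn (conv (J p) (conv (tau p) (conv (tau p) (tauw (d := d) p)))) +
      supn (conv (J p) (conv (tau p) (tauw (d := d) p))))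

/-- OUTPUT of sections 4.1-4.4 (`0 ≤ p < pc d`) -/
structure LaceExp (K : ℕ) (d : ℕ) : Prop where
  e1 : ∀ p : ℝ, 0 ≤ p → p < pc d → ∀ x : V d,
    tau p x + RN p 0 x = PiN p 0 x + conv (conv (PiN p 0) (J p)) (tau p) x
  e2 : ∀ p : ℝ, 0 ≤ p → p < pc d → ∀ (N : ℕ) (x : V d),
    RN p N x + RN p (N + 1) x = PiN p (N + 1) x + conv (conv (PiN p (N + 1)) (J p)) (tau p) x
  b1 : ∀ p : ℝ, 0 ≤ p → p < pc d → ∑' x : V d, (if x = 0 then 0 else PiN p 0 x) ≤ rhoT K d p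
  b2 : ∀ p : ℝ, 0 ≤ p → p < pc d → ∑' x : V d, (n2 x : ℝ≥0∞) * PiN p 0 x ≤ rhoT K d p
  b3 : ∀ p : ℝ, 0 ≤ p → p < pc d → ∀ N : ℕ, ∑' x : V d, PiN p (N + 1) x ≤ rhoT K d p ^ (N + 1)
  b4 : ∀ p : ℝ, 0 ≤ p → p < pc d → rhoT K d p ≤ 1 → ∀ N : ℕ,
    ∑' x : V d, (n2 x : ℝ≥0∞) * PiN p (N + 1) x ≤ rhoT K d p ^ (N + 1)

/-- OUTPUT of section 3 needed in section 4.5 -/
structure Sub3 (d : ℕ) : Prop where
  pc_pos : 0 < pc d
  chi_lt : ∀ p : ℝ, p < pc d → chi d p < ⊤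
  mom_lt : ∀ p : ℝ, p < pc d → ∑' x : V d, tauw p x < ⊤

/-! ### Dictionary -/

theorem conv_eq (f g : V d → ℝ≥0∞) : conv f g = AF.cv f g := rfl

theorem dlt_eq : (dlt : V d → ℝ≥0∞) = AF.dl := by
  funext x
  unfold dlt AF.dl
  by_cases h : x = 0 <;> simp [h]

theorem cpow_eq (f : V d → ℝ≥0∞) (m : ℕ) : cpow f m = AF.cpow f m := by
  induction m with
  | zero => exact dlt_eq
  | succ m ih =>
    show conv f (cpow f m) = AF.cv f (AF.cpow f m)
    rw [ih, conv_eq]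

theorem J_eq (p : ℝ) : (J p : V d → ℝ≥0∞) = AF.J p := by
  funext x
  unfold J AF.J l1
  by_cases h : ∑ i, |x i| = 1 <;> simp [h]

theorem tauw_eq (p : ℝ) : (tauw p : V d → ℝ≥0∞) = AF.tw (tau p) := rfl

theorem supn_conv_J (p : ℝ) (g : V d → ℝ≥0∞) : supn (conv (J p) g) = AF.sJ p g := by
  unfold supn AF.sJ
  rw [J_eq]
  rfl

theorem sm_eq (p : ℝ) (m : ℕ) : sm d p m = AF.sJ p (AF.cpow (tau (d := d) p) m) := by
  unfold sm
  rw [supn_conv_J, cpow_eq]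

theorem Bm_eq (p : ℝ) (m : ℕ) : Bm d p m = AF.cpow (tau (d := d) p) m 0 := by
  unfold Bm
  rw [cpow_eq]

theorem tau_le_one (p : ℝ) (x : V d) : tau p x ≤ 1 := prob_le_one

theorem tau_ne_top (p : ℝ) (x : V d) : tau p x ≠ ∞ := ((tau_le_one p x).trans_lt ENNReal.one_lt_top).ne

/-- the real two point function -/
noncomputable def taur (p : ℝ) : V d → ℝ := fun x => (tau p x).toReal

theorem en_taur (p : ℝ) : AF.en (taur p : V d → ℝ) = tau p := by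
  funext x
  unfold AF.en taur
  exact ENNReal.ofReal_toReal (tau_ne_top p x)

theorem cv_comm0 (f g : V d → ℝ≥0∞) (x : V d) : AF.cv f g x = AF.cv g f x := by
  unfold AF.cv
  rw [← (Equiv.subLeft x).tsum_eq (fun y => g y * f (x - y))]
  refine tsum_congr fun y => ?_
  simp [Equiv.subLeft_apply, mul_comm]

theorem Bw_eq (p : ℝ) :
    Bw d p 3 = AF.cv (AF.cpow (tau (d := d) p) 3) (AF.tw (tau (d := d) p)) 0 := by
  unfold Bw
  rw [cpow_eq, conv_eq, cv_comm0, tauw_eq]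

/-- `rhoT` is `AF.rho` of `tau p` -/
theorem rhoT_eq (K : ℕ) (p : ℝ) : rhoT K d p = AF.rho K p (AF.en (taur p : V d → ℝ)) := by
  unfold rhoT AF.rho AF.bigB AF.small
  rw [en_taur, Bm_eq, Bw_eq, sm_eq, supn_conv_J, supn_conv_J]
  rfl

end Pool.Agent.PB.AFB
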