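import Pool.Agent.PB.Basic
import Pool.Agent.PB.AF.Iface

/-!
PB-AF-TauA.  Elementary facts on the two point function and theta.

Plan. `opn p ω ⊆ opn q ω` for `p ≤ q`, so the events are monotone (`Rch.mono`, `measure_mono`; infinite set: `Set.Infinite.mono`,
`Cl_mono`).  `tau_self`: `Rch` is reflexive, the event is everything.
`tau_zero`: at `p = 0`, `x ≠ 0`: `Rch (opn 0 ω) 0 x` implies that some label is `≤ 0`, i.e. `= 0`; for each of the countably many
indices (`Sym2 (V d)` is countable) `Pr d {ω | (ω i : ℝ) ≤ 0} = volume {0} = 0` (`measurePreserving_eval_infinitePi`,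
volume on unitInterval has no atoms: `MeasureTheory.Measure.Subtype...`/comap; or `unitInterval.volume_Iic`-like lemmas), `measure_iUnion_null`.
`theta_one`: for `p ≥ 1` every edge of `lat d` is open, `Cl = univ` for every ω (`ℤ^d` is connected by steps of
`l1`-length 1: induct on `l1 x`, or on coordinates) and infinite (`d ≥ 1`).
`theta_eq_zero`: there is `q` with `theta d q = 0`, `p < q` (`exists_lt_of_lt_csSup`; the set is nonempty because
`pc d > p`... if it is empty `sSup ∅ = 0`, but `theta d p' = 0` for `p' < 0`, so it is never empty: for `p' < 0` no edge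
is open and the cluster is `{0}`); bounded above by `1` (`theta_one`).
-/

set_option autoImplicit false
open MeasureTheory Filter Topology
open scoped ENNReal BigOperators

namespace Pool.Agent.PB.AFB

variable {d : ℕ}

theorem opn_mono {p q : ℝ} (h : p ≤ q) (ω : Om d) : opn p ω ⊆ opn q ω :=
  fun _ he => ⟨he.1, he.2.trans h⟩

theorem tau_self (p : ℝ) : tau p (0 : V d) = 1 := by
  unfold tau
  have : {ω : Om d | Rch (opn p ω) (0 : V d) 0} = Set.univ :=
    Set.eq_univ_of_forall fun ω => Rch.refl _ _
  rw [this]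
  exact measure_univ

theorem tau_mono {p q : ℝ} (h : p ≤ q) (x : V d) : tau p x ≤ tau q x :=
  measure_mono fun ω hω => Rch.mono (opn_mono h ω) hω

/-- a label is a.s. positive -/
theorem tauA_label_null (i : Ix d) : Pr d {ω : Om d | ((ω i : unitInterval) : ℝ) ≤ 0} = 0 := by
  have hm : MeasurePreserving (Function.eval i) (Pr d) (volume : Measure unitInterval) :=
    measurePreserving_eval_infinitePi (fun _ : Ix d => (volume : Measure unitInterval)) i
  have hset : {ω : Om d | ((ω i : unitInterval) : ℝ) ≤ 0} =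
      Function.eval i ⁻¹' ({0} : Set unitInterval) := by
    ext ω
    simp only [Set.mem_ofPred_eq, Set.mem_preimage, Function.eval, Set.mem_singleton_iff]
    constructor
    · intro h
      exact Subtype.ext (le_antisymm h (ω i).2.1)
    · intro h
      rw [h]
      simp
  rw [hset, hm.measure_preimage (measurableSet_singleton _).nullMeasurableSet]
  simp

theorem tau_zero {x : V d} (hx : x ≠ 0) : tau 0 x = 0 := by
  have hsub : {ω : Om d | Rch (opn 0 ω) 0 x} ⊆
      ⋃ e : Sym2 (V d), {ω : Om d | ((ω (Sum.inl e) : unitInterval) : ℝ) ≤ 0} := by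
    intro ω hω
    have hω' : Rch (opn 0 ω) 0 x := hω
    obtain ⟨a, b, -, -, hab, -⟩ := Rch.exists_cross ({0} : Set (V d)) (Set.mem_singleton _)
      (by simpa using hx) hω'
    exact Set.mem_iUnion.2 ⟨s(a, b), hab.2⟩
  have hnull : Pr d (⋃ e : Sym2 (V d), {ω : Om d | ((ω (Sum.inl e) : unitInterval) : ℝ) ≤ 0}) = 0 :=
    measure_iUnion_null fun e => tauA_label_null (Sum.inl e)
  exact measure_mono_null hsub hnull

theorem theta_mono {p q : ℝ} (h : p ≤ q) : theta d p ≤ theta d q :=
  measure_mono fun ω hω => Set.Infinite.mono (Cl_mono (opn_mono h ω) 0) hω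

/-- for `p ≥ 1` every lattice edge is open -/
theorem tauA_opn_one {p : ℝ} (hp : 1 ≤ p) (ω : Om d) {a b : V d} (h : l1 (b - a) = 1) :
    s(a, b) ∈ opn p ω :=
  ⟨h, (ω (Sum.inl s(a, b))).2.2.trans hp⟩

theorem tauA_line {p : ℝ} (hp : 1 ≤ p) (ω : Om d) (i : Fin d) (n : ℕ) :
    Rch (opn p ω) (0 : V d) (Pi.single i (n : ℤ)) := by
  induction n with
  | zero => simpa using Rch.refl (opn p ω) (0 : V d)
  | succ n ih =>
    refine ih.tail (tauA_opn_one hp ω ?_)
    have hdiff : (Pi.single i ((n + 1 : ℕ) : ℤ) : V d) - Pi.single i (n : ℤ) = Pi.single i 1 := by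
      rw [← Pi.single_sub]
      congr 1
      push_cast
      ring
    rw [hdiff]
    unfold l1
    rw [Finset.sum_eq_single i]
    · simp
    · intro j _ hj
      simp [Pi.single_eq_of_ne hj]
    · intro h
      exact absurd (Finset.mem_univ i) h

theorem theta_one (hd : 1 ≤ d) {p : ℝ} (hp : 1 ≤ p) : theta d p = 1 := by
  unfold theta
  have : {ω : Om d | (Cl (opn p ω) (0 : V d)).Infinite} = Set.univ := by
    refine Set.eq_univ_of_forall fun ω => ?_
    let i : Fin d := ⟨0, hd⟩
    refine Set.infinite_of_injective_forall_mem (f := fun n : ℕ => (Pi.single i (n : ℤ) : V d)) ?_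
      (fun n => tauA_line hp ω i n)
    intro m n hmn
    have := congrFun hmn i
    simpa using this
  rw [this]
  exact measure_univ

theorem tauA_bdd (hd : 1 ≤ d) : ∀ q ∈ {p : ℝ | theta d p = 0}, q ≤ 1 := by
  intro q hq
  by_contra hcon
  push Not at hcon
  have h1 := theta_one (d := d) hd hcon.le
  rw [Set.mem_ofPred_eq] at hq
  rw [h1] at hq
  exact one_ne_zero hq

/-- for `p < 0` no edge is open -/
theorem theta_neg {p : ℝ} (hp : p < 0) : theta d p = 0 := by
  unfold theta
  have : {ω : Om d | (Cl (opn p ω) (0 : V d)).Infinite} = ∅ := by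
    refine Set.eq_empty_of_forall_notMem fun ω hω => ?_
    refine hω ((Set.finite_singleton (0 : V d)).subset ?_)
    intro y hy
    by_contra hne
    obtain ⟨a, b, -, -, hab, -⟩ := Rch.exists_cross ({0} : Set (V d)) (Set.mem_singleton _)
      hne hy
    have := hab.2
    have h0 := (ω (Sum.inl s(a, b))).2.1
    linarith
  rw [this]
  exact measure_empty

theorem tauA_ne : ({p : ℝ | theta d p = 0}).Nonempty :=
  ⟨-1, theta_neg (by norm_num)⟩

theorem pc_le_one (hd : 1 ≤ d) : pc d ≤ 1 :=
  csSup_le tauA_ne (tauA_bdd hd)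

theorem theta_eq_zero (hd : 1 ≤ d) {p : ℝ} (hp : p < pc d) : theta d p = 0 := by
  obtain ⟨q, hq, hpq⟩ := exists_lt_of_lt_csSup (tauA_ne (d := d)) hp
  have := theta_mono (d := d) hpq.le
  rw [Set.mem_ofPred_eq] at hq
  rw [hq] at this
  exact le_antisymm this zero_le

end Pool.Agent.PB.AFB
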