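import Mathlib

/-!
PB-AF-Alg.  The purely algebraic part of the bootstrap step (real numbers only).

Notation: `E = 1 - D ∈ [0,2]`, `w = 2 d p`, `κ = 1/1000`; `P0, P, P1, P2` are the transforms of `Π` (at `0` and at `k`),
`s = sin k_i`, `c = cos k_i`, `T, T1, T2` the transforms of `τ`.

Plan. (0) `χ (1 - w P0) = P0 > 0` gives `w P0 < 1`, `w < 1/(1-κ) ≤ 1.0011`.
(1) `μ = 1 - w D P = (1 - w P0 D) + w D (P0 - P)`; `1 - λD ≥ E/2` for `λ = w P0 ∈ [0,1]`, `D ∈ [-1,1]` (case `D ≥ 0`: `≥ E`;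
`D < 0`: `≥ 1`), so `μ ≥ (1/2 - 0.0031) E ≥ 0.49 E`.  If `E = 0` both claims are trivial (`D = 1`).  Let `E > 0`.
(2) `T = P/μ`, `|T| ≤ 1.001/(0.49 E) ≤ 2.05/E`.  (3) with `q = √(E/d)`: `|s| 2p ≤ w √2 q` (from `hs : s^2 ≤ 2 d E`),
`A := P1 w D + P 2ps`, `|A| ≤ (0.00301 + 1.0022·√2) q ≤ 1.43 q`; `T1 = (P1 + A T)/μ`, `|T1| ≤ (0.003 + 1.43·2.05/E) q/(0.49 E) ≤ 6.0 q/E^2`
(use `0.003 ≤ 0.006/E`).  (4) `B := P2 w D - 2 P1 2ps + P 2pc`, `|B| ≤ (0.0011 + 0.0086·2 + 1.0023)/d ≤ 1.03/d`.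
`T2 = (P2 + B T - 2 A T1)/μ`, `|T2| ≤ (0.002 + 1.03·2.05 + 2·1.43·6.0)/(d E)/(0.49 E) ≤ 39/(d E^2)` (`q^2 = E/d`).
Keep a little more precision in the constants if needed: `0.49` can be `0.496`, `2.05` → `2.0183`, `6.0` → `5.83`:
`(0.002 + 1.03·2.0183 + 2·1.4203·5.83)/0.496 = 37.6`.
-/

namespace Pool.Agent.PB.AF

theorem alg_step {d p D P0 P P1 P2 s c T T1 T2 χ : ℝ} (hd : 1 ≤ d) (hp : 0 ≤ p)
    (hD1 : -1 ≤ D) (hD2 : D ≤ 1)
    (hP0 : |P0 - 1| ≤ 1 / 1000) (hP : |P - 1| ≤ 1 / 1000)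
    (hPP : |P0 - P| ≤ 3 * (1 - D) * (1 / 1000))
    (hP1 : |P1| ≤ 3 * Real.sqrt ((1 - D) / d) * (1 / 1000))
    (hP2 : |P2| ≤ (1 / 1000) / d)
    (hs : s ^ 2 ≤ 2 * d * (1 - D)) (hc : |c| ≤ 1) (hχ : 0 < χ)
    (e0 : χ = P0 + P0 * (2 * d * p) * χ)
    (e1 : T = P + P * (2 * d * p * D) * T)
    (e2 : T1 = P1 + ((P1 * (2 * d * p * D) + P * (2 * p * s)) * T + P * (2 * d * p * D) * T1))
    (e3 : T2 = P2 + ((P2 * (2 * d * p * D) - 2 * (P1 * (2 * p * s)) + P * (2 * p * c)) * T
      - 2 * ((P1 * (2 * d * p * D) + P * (2 * p * s)) * T1) + P * (2 * d * p * D) * T2)) :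
    2 * d * p ≤ 3 ∧ (1 - D) * |T| ≤ 3 ∧ (d / 13) * (1 - D) ^ 2 * |T2| ≤ 3 := by
  set w := 2 * d * p with hw
  set q := Real.sqrt ((1 - D) / d) with hq
  set u := 2 * p * s with hu
  set v := 2 * p * c with hv
  have hd0 : 0 < d := by linarith
  have hE0 : 0 ≤ 1 - D := by linarith
  have hE2 : 1 - D ≤ 2 := by linarith
  have hq0 : 0 ≤ q := Real.sqrt_nonneg _
  have hq2 : d * q ^ 2 = 1 - D := by
    rw [hq, Real.sq_sqrt (by positivity)]
    field_simp
  have hw0 : 0 ≤ w := by positivity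
  have hP0l : 999 / 1000 ≤ P0 := by linarith [(abs_le.1 hP0).1]
  have hPa : |P| ≤ 1001 / 1000 := by
    rw [abs_le] at hP ⊢
    constructor <;> linarith [hP.1, hP.2]
  have hDa : |D| ≤ 1 := abs_le.2 ⟨by linarith, hD2⟩
  have hwP : w * P0 < 1 := by
    have h1 : χ * (1 - w * P0) = P0 := by linear_combination e0
    have h2 : 0 < χ * (1 - w * P0) := by
      rw [h1]
      linarith
    have h3 := (mul_pos_iff_of_pos_left hχ).1 h2
    linarith
  have hw1 : w ≤ 10011 / 10000 := by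
    have h1 := mul_le_mul_of_nonneg_left hP0l hw0
    linarith
  have hwDa : |w * D| ≤ 10011 / 10000 := by
    rw [abs_mul, abs_of_nonneg hw0]
    calc w * |D| ≤ w * 1 := mul_le_mul_of_nonneg_left hDa hw0
      _ ≤ _ := by linarith
  have hμ : 4969 / 10000 * (1 - D) ≤ 1 - w * D * P := by
    have h1 : (1 - D) / 2 ≤ 1 - w * P0 * D := by
      rcases le_total 0 D with h | h
      · have h2 := mul_le_of_le_one_left h hwP.le
        linarith
      · have h2 : w * P0 * D ≤ 0 :=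
          mul_nonpos_of_nonneg_of_nonpos (mul_nonneg hw0 (by linarith)) h
        linarith
    have h2 : |w * D * (P0 - P)| ≤ 10011 / 10000 * (3 * (1 - D) * (1 / 1000)) := by
      rw [abs_mul]
      exact mul_le_mul hwDa hPP (abs_nonneg _) (by norm_num)
    have h3 := (abs_le.1 h2).1
    nlinarith
  set μ := 1 - w * D * P with hμd
  have hu1 : |u| ≤ 1416 / 1000 * q := by
    apply abs_le_of_sq_le_sq _ (by positivity)
    have h1 : d * u ^ 2 ≤ d * (1416 / 1000 * q) ^ 2 := by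
      have h2 : d * u ^ 2 = 4 * (d * p ^ 2) * s ^ 2 := by
        rw [hu]
        ring
      have h3 : 4 * (d * p ^ 2) * s ^ 2 ≤ 4 * (d * p ^ 2) * (2 * d * (1 - D)) :=
        mul_le_mul_of_nonneg_left hs (by positivity)
      have h4 : 4 * (d * p ^ 2) * (2 * d * (1 - D)) = 2 * w ^ 2 * (1 - D) := by
        rw [hw]
        ring
      have h5 : w ^ 2 ≤ (10011 / 10000) ^ 2 := pow_le_pow_left₀ hw0 hw1 2
      have h6 : d * (1416 / 1000 * q) ^ 2 = (1416 / 1000) ^ 2 * (1 - D) := by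
        rw [← hq2]
        ring
      rw [h2, h6]
      nlinarith
    exact le_of_mul_le_mul_left h1 hd0
  have hv1 : d * |v| ≤ w := by
    rw [hv, abs_mul, abs_of_nonneg (by positivity : 0 ≤ 2 * p)]
    have h1 : 2 * p * |c| ≤ 2 * p * 1 := mul_le_mul_of_nonneg_left hc (by positivity)
    have h2 := mul_le_mul_of_nonneg_left h1 hd0.le
    calc _ ≤ _ := h2
      _ = w := by
        rw [hw]
        ring
  have hP1' : |P1| ≤ 3 / 1000 * q := by linarith
  have hP2' : d * |P2| ≤ 1 / 1000 := by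
    have h1 := mul_le_mul_of_nonneg_left hP2 hd0.le
    rwa [mul_div_cancel₀ _ hd0.ne'] at h1
  have hT : T * μ = P := by
    rw [hμd]
    linear_combination e1
  obtain ⟨A, hA⟩ : ∃ A, A = P1 * (w * D) + P * u := ⟨_, rfl⟩
  obtain ⟨B, hB⟩ : ∃ B, B = P2 * (w * D) - 2 * (P1 * u) + P * v := ⟨_, rfl⟩
  rw [← hA] at e2 e3
  rw [← hB] at e3
  have hT1 : T1 * μ = P1 + A * T := by
    rw [hμd]
    linear_combination e2
  have hT2 : T2 * μ = P2 + B * T - 2 * (A * T1) := by
    rw [hμd]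
    linear_combination e3
  have hAa : |A| ≤ 14205 / 10000 * q := by
    have h1 : |P1 * (w * D)| ≤ 3 / 1000 * q * (10011 / 10000) := by
      rw [abs_mul]
      exact mul_le_mul hP1' hwDa (abs_nonneg _) (by positivity)
    have h2 : |P * u| ≤ 1001 / 1000 * (1416 / 1000 * q) := by
      rw [abs_mul]
      exact mul_le_mul hPa hu1 (abs_nonneg _) (by positivity)
    rw [hA]
    have h3 := abs_add_le (P1 * (w * D)) (P * u)
    linarith
  have hBa : d * |B| ≤ 1021 / 1000 := by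
    have h1 : d * |P2 * (w * D)| ≤ 1 / 1000 * (10011 / 10000) := by
      rw [abs_mul, ← mul_assoc]
      exact mul_le_mul hP2' hwDa (abs_nonneg _) (by norm_num)
    have h2 : |P1 * u| ≤ 3 / 1000 * q * (1416 / 1000 * q) := by
      rw [abs_mul]
      exact mul_le_mul hP1' hu1 (abs_nonneg _) (by positivity)
    have h3 : d * |P1 * u| ≤ 3 / 1000 * (1416 / 1000) * (1 - D) := by
      have h4 := mul_le_mul_of_nonneg_left h2 hd0.le
      calc _ ≤ _ := h4
        _ = 3 / 1000 * (1416 / 1000) * (d * q ^ 2) := by ring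
        _ = _ := by rw [hq2]
    have h5 : d * |P * v| ≤ 1001 / 1000 * (10011 / 10000) := by
      rw [abs_mul]
      have h6 : d * (|P| * |v|) = |P| * (d * |v|) := by ring
      rw [h6]
      exact mul_le_mul hPa (hv1.trans hw1) (by positivity) (by norm_num)
    have h7 : |B| ≤ |P2 * (w * D)| + 2 * |P1 * u| + |P * v| := by
      rw [hB]
      have h8 := abs_add_le (P2 * (w * D) - 2 * (P1 * u)) (P * v)
      have h9 := abs_sub (P2 * (w * D)) (2 * (P1 * u))
      rw [abs_mul 2 (P1 * u), abs_of_pos (by norm_num : (0 : ℝ) < 2)] at h9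
      linarith
    have h10 := mul_le_mul_of_nonneg_left h7 hd0.le
    nlinarith
  refine ⟨by linarith, ?_, ?_⟩
  · rcases hE0.eq_or_lt with h | h
    · rw [← h]
      norm_num
    · have h1 : |T| * μ ≤ 1001 / 1000 := by
        have h2 : |T| * μ = |P| := by
          rw [← hT, abs_mul, abs_of_pos (lt_of_lt_of_le (by positivity) hμ)]
        rw [h2]
        exact hPa
      have h2 := mul_le_mul_of_nonneg_left hμ (abs_nonneg T)
      linarith
  · rcases hE0.eq_or_lt with h | h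
    · rw [← h]
      norm_num
    · have hμ0 : 0 < μ := lt_of_lt_of_le (by positivity) hμ
      have k1 : (1 - D) * |T| ≤ 2015 / 1000 := by
        have h2 : |T| * μ = |P| := by
          rw [← hT, abs_mul, abs_of_pos hμ0]
        have h3 := mul_le_mul_of_nonneg_left hμ (abs_nonneg T)
        rw [h2] at h3
        linarith
      have k2 : (1 - D) ^ 2 * |T1| ≤ 5773 / 1000 * q := by
        have h2 : |T1| * μ ≤ |P1| + |A| * |T| := by
          rw [← abs_mul, ← abs_of_pos hμ0, ← abs_mul, hT1]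
          exact abs_add_le _ _
        have h3 := mul_le_mul_of_nonneg_left hμ (abs_nonneg T1)
        have h4 := mul_le_mul_of_nonneg_left (h3.trans h2) h.le
        have h5 : (1 - D) * |P1| ≤ 2 * (3 / 1000 * q) :=
          mul_le_mul hE2 hP1' (abs_nonneg _) (by norm_num)
        have h6 : |A| * ((1 - D) * |T|) ≤ 14205 / 10000 * q * (2015 / 1000) :=
          mul_le_mul hAa k1 (by positivity) (by positivity)
        nlinarith
      have k3 : (1 - D) ^ 2 * (d * |T2|) ≤ 39 := by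
        have h2 : |T2| * μ ≤ |P2| + |B| * |T| + 2 * (|A| * |T1|) := by
          rw [← abs_of_pos hμ0, ← abs_mul, hT2]
          have h8 := abs_sub (P2 + B * T) (2 * (A * T1))
          have h9 := abs_add_le P2 (B * T)
          rw [abs_mul 2 (A * T1), abs_of_pos (by norm_num : (0 : ℝ) < 2), abs_mul A] at h8
          rw [abs_mul B] at h9
          linarith
        have h3 := mul_le_mul_of_nonneg_left hμ (abs_nonneg T2)
        have h4 := mul_le_mul_of_nonneg_left (h3.trans h2)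
          (by positivity : 0 ≤ d * (1 - D) ^ 2)
        have h5 : (1 - D) ^ 2 * (d * |P2|) ≤ (1 - D) * 2 * (1 / 1000) := by
          have h6 : (1 - D) ^ 2 ≤ (1 - D) * 2 := by nlinarith
          exact mul_le_mul h6 hP2' (by positivity) (by positivity)
        have h7 : (1 - D) * ((d * |B|) * ((1 - D) * |T|)) ≤
            (1 - D) * (1021 / 1000 * (2015 / 1000)) :=
          mul_le_mul_of_nonneg_left (mul_le_mul hBa k1 (by positivity) (by norm_num)) h.le
        have h8 : |A| * ((1 - D) ^ 2 * |T1|) ≤ 14205 / 10000 * q * (5773 / 1000 * q) :=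
          mul_le_mul hAa k2 (by positivity) (by positivity)
        have h9 : d * (|A| * ((1 - D) ^ 2 * |T1|)) ≤
            14205 / 10000 * (5773 / 1000) * (1 - D) := by
          have h10 := mul_le_mul_of_nonneg_left h8 hd0.le
          calc _ ≤ _ := h10
            _ = 14205 / 10000 * (5773 / 1000) * (d * q ^ 2) := by ring
            _ = _ := by rw [hq2]
        have h11 : (1 - D) * ((1 - D) ^ 2 * (d * |T2|) * (4969 / 10000)) ≤
            (1 - D) * (39 * (4969 / 10000)) := by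
          have h12 : (1 - D) * ((1 - D) ^ 2 * (d * |T2|) * (4969 / 10000)) =
            d * (1 - D) ^ 2 * (|T2| * (4969 / 10000 * (1 - D))) := by ring
          have h13 : d * (1 - D) ^ 2 * (|P2| + |B| * |T| + 2 * (|A| * |T1|)) =
            (1 - D) ^ 2 * (d * |P2|) + (1 - D) * ((d * |B|) * ((1 - D) * |T|)) +
              2 * (d * (|A| * ((1 - D) ^ 2 * |T1|))) := by ring
          rw [h12]
          rw [h13] at h4
          linarith
        have h14 := le_of_mul_le_mul_left h11 h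
        linarith
      calc d / 13 * (1 - D) ^ 2 * |T2| = (1 - D) ^ 2 * (d * |T2|) / 13 := by ring
        _ ≤ 39 / 13 := by
          apply div_le_div_of_nonneg_right k3 (by norm_num)
        _ = 3 := by norm_num

end Pool.Agent.PB.AF
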