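import Pool.Agent.PB.AF.Defs

/-!
Project PB, part AF: basic lemmas used by all modules (no sorry).
-/

open MeasureTheory Filter Topology
open scoped ENNReal

namespace Pool.Agent.PB.AF

variable {d : ℕ}

theorem n2_cast (x : Z d) : ((n2 x : ℕ) : ℝ) = ∑ i, (x i : ℝ) ^ 2 := by
  unfold n2
  push_cast
  refine Finset.sum_congr rfl fun i _ => ?_
  have : ((x i).natAbs : ℝ) = |(x i : ℝ)| := by
    rw [Nat.cast_natAbs]; push_cast; rfl
  rw [this, sq_abs]

theorem coord_sq_le (x : Z d) (i : Fin d) : (x i : ℝ) ^ 2 ≤ (n2 x : ℝ) := by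
  rw [n2_cast]
  exact Finset.single_le_sum (f := fun i => (x i : ℝ) ^ 2) (fun j _ => sq_nonneg _)
    (Finset.mem_univ i)

theorem M2.abs {f : Z d → ℝ} (h : M2 f) : Summable (fun x => |f x|) := by
  refine Summable.of_nonneg_of_le (fun x => abs_nonneg _) (fun x => ?_) h
  have h1 : (0 : ℝ) ≤ (n2 x : ℝ) := Nat.cast_nonneg _
  nlinarith [abs_nonneg (f x), mul_nonneg h1 (abs_nonneg (f x))]

theorem M2.self {f : Z d → ℝ} (h : M2 f) : Summable f := h.abs.of_abs

theorem M2.nw {f : Z d → ℝ} (h : M2 f) : Summable (fun x => (n2 x : ℝ) * |f x|) := by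
  refine Summable.of_nonneg_of_le (fun x => by positivity) (fun x => ?_) h
  nlinarith [abs_nonneg (f x)]

theorem M2.coord {f : Z d → ℝ} (h : M2 f) (i : Fin d) :
    Summable (fun x : Z d => (x i : ℝ) ^ 2 * |f x|) := by
  refine Summable.of_nonneg_of_le (fun x => by positivity) (fun x => ?_) h.nw
  exact mul_le_mul_of_nonneg_right (coord_sq_le x i) (abs_nonneg _)

theorem M2.coord1 {f : Z d → ℝ} (h : M2 f) (i : Fin d) :
    Summable (fun x : Z d => |(x i : ℝ)| * |f x|) := by
  refine Summable.of_nonneg_of_le (fun x => by positivity) (fun x => ?_) h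
  have h1 : |(x i : ℝ)| ≤ 1 + (n2 x : ℝ) := by
    have := coord_sq_le x i
    rw [← sq_abs] at this
    nlinarith [sq_nonneg (|(x i : ℝ)| - 1 / 2)]
  exact mul_le_mul_of_nonneg_right h1 (abs_nonneg _)

/-- Symmetric functions are even. -/
theorem Sym.neg {f : Z d → ℝ} (h : Sym f) (x : Z d) : f (-x) = f x := by
  have key : ∀ s : Finset (Fin d), f (fun i => if i ∈ s then -x i else x i) = f x := by
    intro s
    induction s using Finset.induction_on with
    | empty => simp
    | insert a s ha ih =>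
      rw [← ih]
      rw [← h.2 a (fun i => if i ∈ s then -x i else x i)]
      congr 1
      funext i
      by_cases hi : i = a
      · subst hi
        simp [ha]
      · simp [Finset.mem_insert, hi]
  have h2 : (-x) = fun i => if i ∈ (Finset.univ : Finset (Fin d)) then -x i else x i := by
    funext i
    simp
  rw [h2]
  exact key Finset.univ

theorem n2_neg (x : Z d) : n2 (-x) = n2 x := by
  unfold n2
  simp

theorem n2_perm (σ : Equiv.Perm (Fin d)) (x : Z d) : n2 (fun i => x (σ i)) = n2 x := by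
  unfold n2
  exact Equiv.sum_comp σ (fun i => (x i).natAbs ^ 2)

theorem n2_update (i : Fin d) (x : Z d) : n2 (Function.update x i (-x i)) = n2 x := by
  unfold n2
  refine Finset.sum_congr rfl fun j _ => ?_
  by_cases h : j = i
  · subst h; simp
  · simp [Function.update_of_ne h]

/-- Reduction of `k` to the cube. -/
theorem red (k : Fin d → ℝ) : ∃ k' : Fin d → ℝ, (∀ i, |k' i| ≤ Real.pi) ∧
    (∀ x : Z d, Real.cos (dot k x) = Real.cos (dot k' x)) ∧
    (∀ x : Z d, Real.sin (dot k x) = Real.sin (dot k' x)) ∧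
    (∀ i, Real.cos (k i) = Real.cos (k' i)) ∧ (∀ i, Real.sin (k i) = Real.sin (k' i)) := by
  have h1 : ∀ i, ∃ (t : ℝ) (n : ℤ), |t| ≤ Real.pi ∧ k i = t + n * (2 * Real.pi) := by
    intro i
    refine ⟨toIocMod Real.two_pi_pos (-Real.pi) (k i), toIocDiv Real.two_pi_pos (-Real.pi) (k i),
      ?_, ?_⟩
    · have := toIocMod_mem_Ioc Real.two_pi_pos (-Real.pi) (k i)
      rw [abs_le]
      constructor
      · exact this.1.le
      · have := this.2; linarith
    · have := toIocMod_add_toIocDiv_zsmul Real.two_pi_pos (-Real.pi) (k i)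
      rw [zsmul_eq_mul] at this
      linarith
  choose t n ht hk using h1
  have hdot : ∀ x : Z d, dot k x = dot t x + ((∑ i, n i * x i : ℤ) : ℝ) * (2 * Real.pi) := by
    intro x
    unfold dot
    push_cast
    rw [Finset.sum_mul, ← Finset.sum_add_distrib]
    refine Finset.sum_congr rfl fun i _ => ?_
    rw [hk i]
    ring
  refine ⟨t, ht, fun x => ?_, fun x => ?_, fun i => ?_, fun i => ?_⟩
  · rw [hdot x, Real.cos_add_int_mul_two_pi]
  · rw [hdot x, Real.sin_add_int_mul_two_pi]
  · rw [hk i, Real.cos_add_int_mul_two_pi]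
  · rw [hk i, Real.sin_add_int_mul_two_pi]

theorem Dh_red {k k' : Fin d → ℝ} (h : ∀ i, Real.cos (k i) = Real.cos (k' i)) : Dh k = Dh k' := by
  unfold Dh
  rw [Finset.sum_congr rfl fun i _ => h i]

theorem abs_Dh_le (k : Fin d → ℝ) : |Dh k| ≤ 1 := by
  unfold Dh
  rw [abs_div, Nat.abs_cast]
  rcases Nat.eq_zero_or_pos d with h | h
  · subst h; simp
  · rw [div_le_one (by exact_mod_cast h)]
    calc |∑ i, Real.cos (k i)| ≤ ∑ i : Fin d, |Real.cos (k i)| := Finset.abs_sum_le_sum_abs _ _
      _ ≤ ∑ _i : Fin d, (1 : ℝ) := Finset.sum_le_sum fun i _ => Real.abs_cos_le_one _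
      _ = d := by simp

theorem Dh_le_one (k : Fin d → ℝ) : Dh k ≤ 1 := (abs_le.1 (abs_Dh_le k)).2

theorem neg_one_le_Dh (k : Fin d → ℝ) : -1 ≤ Dh k := (abs_le.1 (abs_Dh_le k)).1

theorem Dh_cont : Continuous (Dh : (Fin d → ℝ) → ℝ) := by
  unfold Dh
  fun_prop

theorem dot_cont (x : Z d) : Continuous (fun k : Fin d → ℝ => dot k x) := by
  unfold dot
  fun_prop

theorem dot_neg (k : Fin d → ℝ) (x : Z d) : dot k (-x) = -dot k x := by
  unfold dot
  simp [Finset.sum_neg_distrib]

theorem dot_add (k : Fin d → ℝ) (x y : Z d) : dot k (x + y) = dot k x + dot k y := by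
  unfold dot
  simp [mul_add, Finset.sum_add_distrib]

theorem dot_sub (k : Fin d → ℝ) (x y : Z d) : dot k (x - y) = dot k x - dot k y := by
  unfold dot
  simp [mul_sub, Finset.sum_sub_distrib]

end Pool.Agent.PB.AF
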