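import Pool.Agent.PB.AF.Inv

/-!
PB-AF-BootIff.  The bootstrap function and its pointwise meaning.

Plan. The two families under the suprema are bounded above: `(1 - Dh k)|ft (τ p) k| ≤ 2 l1 (τ p)` (`abs_Dh_le`,
`abs_ft_le`) and `(d/13)(1 - Dh k)^2 |ft2 i (τ p) k| ≤ (d/13) 4 m2 (τ p)` (`abs_ft2_le`), by `L.summ p`.
`→`: `le_ciSup`, `le_max_left/right`.  `←`: `max_le`, `ciSup_le` (`Fin d` is nonempty for `1 ≤ d`).
`boot_zero`: `τ 0 = δ_0`, so `ft = 1`, `ft2 = 0`, `(1 - Dh) ≤ 2`.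
-/

open MeasureTheory Filter Topology
open scoped ENNReal

namespace Pool.Agent.PB.AF

variable {d : ℕ}

private theorem bddA {K : ℕ} {pc : ℝ} {τ : ℝ → Z d → ℝ} (L : Lace K d pc τ) {p : ℝ}
    (hp0 : 0 ≤ p) (hp : p < pc) :
    BddAbove (Set.range fun k => (1 - Dh k) * |ft (τ p) k|) := by
  refine ⟨2 * l1 (τ p), ?_⟩
  rintro _ ⟨k, rfl⟩
  have h1 := neg_one_le_Dh k
  have h2 := Dh_le_one k
  have h3 := abs_ft_le (L.summ p hp0 hp).abs k
  have h4 := abs_nonneg (ft (τ p) k)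
  show (1 - Dh k) * |ft (τ p) k| ≤ 2 * l1 (τ p)
  nlinarith

private theorem bddB {K : ℕ} {pc : ℝ} {τ : ℝ → Z d → ℝ} (L : Lace K d pc τ) {p : ℝ}
    (hp0 : 0 ≤ p) (hp : p < pc) :
    BddAbove (Set.range fun a : Fin d × (Fin d → ℝ) =>
      (d / 13 : ℝ) * (1 - Dh a.2) ^ 2 * |ft2 a.1 (τ p) a.2|) := by
  refine ⟨(d / 13 : ℝ) * 4 * m2 (τ p), ?_⟩
  rintro _ ⟨⟨i, k⟩, rfl⟩
  have h1 := neg_one_le_Dh k
  have h2 := Dh_le_one k
  have h3 := abs_ft2_le (L.summ p hp0 hp) i k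
  have h5 : (1 - Dh k) ^ 2 ≤ 4 := by nlinarith
  have h6 : (0 : ℝ) ≤ d / 13 := by positivity
  show (d / 13 : ℝ) * (1 - Dh k) ^ 2 * |ft2 i (τ p) k| ≤ (d / 13 : ℝ) * 4 * m2 (τ p)
  refine mul_le_mul (mul_le_mul_of_nonneg_left h5 h6) h3 (abs_nonneg _) (by positivity)

theorem boot_le_iff {K : ℕ} {pc : ℝ} {τ : ℝ → Z d → ℝ} (L : Lace K d pc τ) (hd : 1 ≤ d) {p : ℝ}
    (hp0 : 0 ≤ p) (hp : p < pc) (c : ℝ) :
    boot d τ p ≤ c ↔ 2 * d * p ≤ c ∧ (∀ k, (1 - Dh k) * |ft (τ p) k| ≤ c) ∧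
      ∀ i k, (d / 13 : ℝ) * (1 - Dh k) ^ 2 * |ft2 i (τ p) k| ≤ c := by
  unfold boot
  constructor
  · intro h
    have ha := (le_max_left _ _).trans h
    have hb := (le_max_right _ _).trans h
    have hb1 := (le_max_left _ _).trans hb
    have hb2 := (le_max_right _ _).trans hb
    refine ⟨ha, fun k => (le_ciSup (bddA L hp0 hp) k).trans hb1, fun i k => ?_⟩
    exact (le_ciSup (bddB L hp0 hp) (⟨i, k⟩ : Fin d × (Fin d → ℝ))).trans hb2
  · rintro ⟨ha, hb, hc⟩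
    haveI : Nonempty (Fin d) := ⟨⟨0, hd⟩⟩
    exact max_le ha (max_le (ciSup_le hb) (ciSup_le fun a => hc a.1 a.2))

theorem boot_zero {K : ℕ} {pc : ℝ} {τ : ℝ → Z d → ℝ} (L : Lace K d pc τ) (hd : 1 ≤ d)
    (hpc : 0 < pc) : boot d τ 0 ≤ 3 := by
  have hτ : τ 0 = fun x : Z d => if x = 0 then (1 : ℝ) else 0 := funext L.zero
  rw [boot_le_iff L hd le_rfl hpc 3]
  refine ⟨by norm_num, fun k => ?_, fun i k => ?_⟩
  · have h1 : ft (τ 0) k = 1 := by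
      rw [hτ]
      unfold ft
      rw [tsum_eq_single (0 : Z d)]
      · simp [dot]
      · intro x hx
        simp [hx]
    rw [h1]
    have := neg_one_le_Dh k
    norm_num
    linarith
  · have h1 : ft2 i (τ 0) k = 0 := by
      rw [hτ]
      unfold ft2
      rw [tsum_eq_single (0 : Z d)]
      · simp
      · intro x hx
        simp [hx]
    rw [h1]
    norm_num

end Pool.Agent.PB.AF
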