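import Pool.Agent.PB.AF.Inv

/-!
PB-AF-Cont.  Continuity of the bootstrap function on `[0, pc)`.

Plan. Fix `p < pc` and `r` with `p < r < pc`.  For `q ∈ [0, r)`:
`|ft (τ q) k - ft (τ p) k| ≤ ∑ |τ q x - τ p x| =: a(q)` and
`|ft2 i (τ q) k - ft2 i (τ p) k| ≤ ∑ n2 x |τ q x - τ p x| =: b(q)`, both independent of `k` and `i`; so the suprema differ
by at most `2 a(q)` and `(d/13) 4 b(q)` (`ciSup` of two bounded families: `ciSup_le` + `le_ciSup` both ways; for `d = 0` the
second index set is empty, `ciSup` of the empty family is constant).  `a(q), b(q) → 0` as `q → p` within `[0, pc)`: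
`tendsto_tsum_of_dominated_convergence` with the dominating series `(1 + n2 x) τ r x` (`L.mono`, `|τ q x - τ p x| ≤ τ r x`
because both are between `0` and `τ r x`), pointwise convergence by `L.cont x`.
Then `ContinuousOn` of the maximum (`ContinuousOn.max`/`ContinuousWithinAt.max`).
-/

open MeasureTheory Filter Topology
open scoped ENNReal

namespace Pool.Agent.PB.AF

variable {d : ℕ}

private theorem sup_near {ι : Type*} (F G : ι → ℝ) {c : ℝ} (hc : 0 ≤ c)
    (hF : BddAbove (Set.range F)) (hG : BddAbove (Set.range G)) (h : ∀ i, |F i - G i| ≤ c) :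
    |(⨆ i, F i) - ⨆ i, G i| ≤ c := by
  rcases isEmpty_or_nonempty ι with hι | hι
  · rw [Real.iSup_of_isEmpty, Real.iSup_of_isEmpty]
    simpa using hc
  · rw [abs_sub_le_iff]
    constructor
    · have h1 : (⨆ i, F i) ≤ (⨆ i, G i) + c := by
        refine ciSup_le fun i => ?_
        have h2 := (abs_sub_le_iff.1 (h i)).1
        have h3 := le_ciSup hG i
        linarith
      linarith
    · have h1 : (⨆ i, G i) ≤ (⨆ i, F i) + c := by
        refine ciSup_le fun i => ?_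
        have h2 := (abs_sub_le_iff.1 (h i)).2
        have h3 := le_ciSup hF i
        linarith
      linarith

private theorem sup_cont {ι : Type*} (F : ℝ → ι → ℝ) (S : Set ℝ) (p : ℝ) (hp : p ∈ S)
    (c : ℝ → ℝ) (hb : ∀ q ∈ S, BddAbove (Set.range (F q)))
    (h : ∀ q ∈ S, 0 ≤ c q ∧ ∀ i, |F q i - F p i| ≤ c q)
    (hc : Tendsto c (𝓝[S] p) (𝓝 0)) :
    ContinuousWithinAt (fun q => ⨆ i, F q i) S p := by
  unfold ContinuousWithinAt
  rw [tendsto_iff_norm_sub_tendsto_zero]
  refine squeeze_zero' (Eventually.of_forall fun q => norm_nonneg _) ?_ hc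
  filter_upwards [self_mem_nhdsWithin] with q hq
  rw [Real.norm_eq_abs]
  exact sup_near _ _ (h q hq).1 (hb q hq) (hb p hp) (h q hq).2

private theorem M2.sub' {f g : Z d → ℝ} (hf : M2 f) (hg : M2 g) : M2 (fun x => f x - g x) := by
  refine Summable.of_nonneg_of_le (fun x => by positivity) (fun x => ?_) (hf.add hg)
  rw [← mul_add]
  exact mul_le_mul_of_nonneg_left (abs_sub _ _) (by positivity)

private theorem ft_sub' {f g : Z d → ℝ} (hf : M2 f) (hg : M2 g) (k : Fin d → ℝ) :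
    ft (fun x => f x - g x) k = ft f k - ft g k := by
  have key : ∀ {u : Z d → ℝ}, M2 u → Summable fun x => u x * Real.cos (dot k x) := by
    intro u hu
    refine Summable.of_norm_bounded hu.abs fun x => ?_
    rw [norm_mul, Real.norm_eq_abs, Real.norm_eq_abs]
    exact mul_le_of_le_one_right (abs_nonneg _) (Real.abs_cos_le_one _)
  unfold ft
  rw [← (key hf).tsum_sub (key hg)]
  refine tsum_congr fun x => ?_
  ring

private theorem ft2_sub' {f g : Z d → ℝ} (hf : M2 f) (hg : M2 g) (i : Fin d) (k : Fin d → ℝ) :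
    ft2 i (fun x => f x - g x) k = ft2 i f k - ft2 i g k := by
  have key : ∀ {u : Z d → ℝ}, M2 u →
      Summable fun x : Z d => (x i : ℝ) ^ 2 * u x * Real.cos (dot k x) := by
    intro u hu
    refine Summable.of_norm_bounded (hu.coord i) fun x => ?_
    rw [norm_mul, norm_mul, Real.norm_eq_abs, Real.norm_eq_abs, Real.norm_eq_abs,
      abs_of_nonneg (sq_nonneg ((x i : ℝ)))]
    exact mul_le_of_le_one_right (by positivity) (Real.abs_cos_le_one _)
  unfold ft2
  rw [← (key hf).tsum_sub (key hg)]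
  refine tsum_congr fun x => ?_
  ring

private theorem l1_le {f : Z d → ℝ} (hf : M2 f) : l1 f ≤ ∑' x, (1 + (n2 x : ℝ)) * |f x| := by
  refine Summable.tsum_le_tsum (fun x => ?_) hf.abs hf
  have h1 : (0 : ℝ) ≤ (n2 x : ℝ) := Nat.cast_nonneg _
  nlinarith [abs_nonneg (f x), mul_nonneg h1 (abs_nonneg (f x))]

private theorem m2_le {f : Z d → ℝ} (hf : M2 f) : m2 f ≤ ∑' x, (1 + (n2 x : ℝ)) * |f x| := by
  refine Summable.tsum_le_tsum (fun x => ?_) hf.nw hf
  nlinarith [abs_nonneg (f x)]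

theorem boot_cont {K : ℕ} {pc : ℝ} {τ : ℝ → Z d → ℝ} (L : Lace K d pc τ) :
    ContinuousOn (boot d τ) (Set.Ico 0 pc) := by
  intro p hp
  have hM : ∀ q ∈ Set.Ico 0 pc, M2 (τ q) := fun q hq => L.summ q hq.1 hq.2
  obtain ⟨r, hpr, hrc⟩ := exists_between hp.2
  have hr0 : 0 ≤ r := hp.1.trans hpr.le
  let s : ℝ → ℝ := fun q => ∑' x : Z d, (1 + (n2 x : ℝ)) * |τ q x - τ p x|
  have hs0 : ∀ q, 0 ≤ s q := fun q => tsum_nonneg fun x => by positivity
  have hs : Tendsto s (𝓝[Set.Ico 0 pc] p) (𝓝 0) := by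
    have h1 := tendsto_tsum_of_dominated_convergence (𝓕 := 𝓝[Set.Ico 0 pc] p)
      (f := fun q (x : Z d) => (1 + (n2 x : ℝ)) * |τ q x - τ p x|)
      (g := fun _ : Z d => (0 : ℝ)) (bound := fun x : Z d => (1 + (n2 x : ℝ)) * |τ r x|)
      (hM r ⟨hr0, hrc⟩) ?_ ?_
    · simpa using h1
    · intro x
      have h2 := L.cont x p hp
      have h3 : Tendsto (fun q => τ q x - τ p x) (𝓝[Set.Ico 0 pc] p) (𝓝 (τ p x - τ p x)) :=
        h2.sub tendsto_const_nhds
      rw [sub_self] at h3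
      have h4 := (h3.abs).const_mul (1 + (n2 x : ℝ))
      simpa using h4
    · have h5 : ∀ᶠ q in 𝓝[Set.Ico 0 pc] p, q < r :=
        (nhdsWithin_le_nhds (a := p)) (Iio_mem_nhds hpr)
      filter_upwards [h5, self_mem_nhdsWithin] with q hqr hq x
      rw [Real.norm_eq_abs, abs_mul, abs_abs, abs_of_nonneg (by positivity : (0 : ℝ) ≤ 1 + (n2 x : ℝ))]
      refine mul_le_mul_of_nonneg_left ?_ (by positivity)
      rw [abs_of_nonneg (L.nonneg r x)]
      have h6 := L.mono q r x hq.1 hqr.le hrc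
      have h7 := L.mono p r x hp.1 hpr.le hrc
      have h8 := L.nonneg q x
      have h9 := L.nonneg p x
      rw [abs_le]
      constructor <;> linarith
  have hDh : ∀ k : Fin d → ℝ, 0 ≤ 1 - Dh k ∧ 1 - Dh k ≤ 2 := fun k =>
    ⟨by linarith [Dh_le_one k], by linarith [neg_one_le_Dh k]⟩
  have hA : ContinuousWithinAt (fun q => ⨆ k, (1 - Dh k) * |ft (τ q) k|) (Set.Ico 0 pc) p := by
    refine sup_cont (fun q k => (1 - Dh k) * |ft (τ q) k|) _ p hp (fun q => 2 * s q) ?_ ?_ ?_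
    · intro q hq
      refine ⟨2 * l1 (τ q), ?_⟩
      rintro _ ⟨k, rfl⟩
      exact mul_le_mul (hDh k).2 (abs_ft_le (hM q hq).abs k) (abs_nonneg _) (by norm_num)
    · intro q hq
      refine ⟨by linarith [hs0 q], fun k => ?_⟩
      rw [← mul_sub, abs_mul, abs_of_nonneg (hDh k).1]
      refine mul_le_mul (hDh k).2 ?_ (abs_nonneg _) (by norm_num)
      refine (abs_abs_sub_abs_le _ _).trans ?_
      rw [← ft_sub' (hM q hq) (hM p hp)]
      exact (abs_ft_le (M2.sub' (hM q hq) (hM p hp)).abs k).trans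
        (l1_le (M2.sub' (hM q hq) (hM p hp)))
    · simpa using hs.const_mul 2
  have hB : ContinuousWithinAt (fun q => ⨆ a : Fin d × (Fin d → ℝ),
      (d / 13 : ℝ) * (1 - Dh a.2) ^ 2 * |ft2 a.1 (τ q) a.2|) (Set.Ico 0 pc) p := by
    have hco : ∀ k : Fin d → ℝ, 0 ≤ (d / 13 : ℝ) * (1 - Dh k) ^ 2 ∧
        (d / 13 : ℝ) * (1 - Dh k) ^ 2 ≤ (d / 13 : ℝ) * 4 := by
      intro k
      refine ⟨by positivity, mul_le_mul_of_nonneg_left ?_ (by positivity)⟩
      have h1 := hDh k
      nlinarith [h1.1, h1.2]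
    refine sup_cont (fun q (a : Fin d × (Fin d → ℝ)) =>
      (d / 13 : ℝ) * (1 - Dh a.2) ^ 2 * |ft2 a.1 (τ q) a.2|) _ p hp
      (fun q => (d / 13 : ℝ) * 4 * s q) ?_ ?_ ?_
    · intro q hq
      refine ⟨(d / 13 : ℝ) * 4 * m2 (τ q), ?_⟩
      rintro _ ⟨a, rfl⟩
      exact mul_le_mul (hco a.2).2 (abs_ft2_le (hM q hq) a.1 a.2) (abs_nonneg _) (by positivity)
    · intro q hq
      refine ⟨mul_nonneg (by positivity) (hs0 q), fun a => ?_⟩
      rw [← mul_sub, abs_mul, abs_of_nonneg (hco a.2).1]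
      refine mul_le_mul (hco a.2).2 ?_ (abs_nonneg _) (by positivity)
      refine (abs_abs_sub_abs_le _ _).trans ?_
      rw [← ft2_sub' (hM q hq) (hM p hp)]
      exact (abs_ft2_le (M2.sub' (hM q hq) (hM p hp)) a.1 a.2).trans
        (m2_le (M2.sub' (hM q hq) (hM p hp)))
    · simpa using hs.const_mul ((d / 13 : ℝ) * 4)
  unfold boot
  have h0 : ContinuousWithinAt (fun q : ℝ => 2 * (d : ℝ) * q) (Set.Ico 0 pc) p := by
    fun_prop
  exact h0.max (hA.max hB)

end Pool.Agent.PB.AF
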