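import Pool.Agent.PB.AF.Base

/-!
PB-AF-ConvA.  Summability, moments and symmetry of convolutions.

Plan. Everything follows from the summability of `(y, z) ↦ |f y| |g z|` on `Z d × Z d`
(`Summable.mul_of_nonneg`, or `Summable.prod_of_nonneg`) and the change of variables
`(y, z) ↦ (y, y + z)` (an equivalence of `Z d × Z d`; `Equiv.summable_iff`).
`l1_rcv_le`: `∑_x |∑_y f y g (x-y)| ≤ ∑_x ∑_y |f y| |g (x-y)| = l1 f * l1 g`.
`rcv_M2`: `1 + n2 (y+z) ≤ 2 (1 + n2 y)(1 + n2 z)` (`|y+z|^2 ≤ 2|y|^2 + 2|z|^2`, `n2_cast`).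
`rcv_sym`: substitute `y ↦ y ∘ σ` resp. `y ↦ update y i (-y i)` in the `tsum` (`Equiv.tsum_eq`).
`rcv_comm`: substitute `y ↦ x - y`.
-/

open MeasureTheory Filter Topology
open scoped ENNReal

namespace Pool.Agent.PB.AF

variable {d : ℕ}

private def shift (d : ℕ) : (Z d × Z d) ≃ (Z d × Z d) where
  toFun p := (p.2, p.1 - p.2)
  invFun q := (q.1 + q.2, q.1)
  left_inv p := by ext <;> simp
  right_inv q := by ext <;> simp

private theorem pair_summable {f g : Z d → ℝ} (hf : Summable (fun x => |f x|))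
    (hg : Summable (fun x => |g x|)) :
    Summable (fun p : Z d × Z d => |f p.2 * g (p.1 - p.2)|) := by
  have h1 : Summable (fun p : Z d × Z d => |f p.1| * |g p.2|) :=
    hf.mul_of_nonneg hg (fun _ => abs_nonneg _) (fun _ => abs_nonneg _)
  have h2 := (shift d).summable_iff.2 h1
  refine h2.congr fun p => ?_
  simp [shift, Function.comp, abs_mul]

theorem rcv_pt_summable {f g : Z d → ℝ} (hf : Summable (fun x => |f x|))
    (hg : Summable (fun x => |g x|)) (x : Z d) : Summable (fun y => |f y * g (x - y)|) :=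
  (pair_summable hf hg).prod_factor x

private theorem abs_rcv_le {f g : Z d → ℝ} (hf : Summable (fun x => |f x|))
    (hg : Summable (fun x => |g x|)) (x : Z d) :
    |rcv f g x| ≤ ∑' y, |f y * g (x - y)| := by
  have h := rcv_pt_summable hf hg x
  have := norm_tsum_le_tsum_norm (f := fun y => f y * g (x - y)) (by simpa using h)
  simpa [rcv] using this

theorem rcv_summable {f g : Z d → ℝ} (hf : Summable (fun x => |f x|))
    (hg : Summable (fun x => |g x|)) : Summable (fun x => |rcv f g x|) :=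
  Summable.of_nonneg_of_le (fun _ => abs_nonneg _) (fun x => abs_rcv_le hf hg x)
    (pair_summable hf hg).prod

theorem l1_rcv_le {f g : Z d → ℝ} (hf : Summable (fun x => |f x|))
    (hg : Summable (fun x => |g x|)) : l1 (rcv f g) ≤ l1 f * l1 g := by
  have h1 : Summable (fun p : Z d × Z d => |f p.1| * |g p.2|) :=
    hf.mul_of_nonneg hg (fun _ => abs_nonneg _) (fun _ => abs_nonneg _)
  have h2 : l1 (rcv f g) ≤ ∑' x, ∑' y, |f y * g (x - y)| :=
    (rcv_summable hf hg).tsum_le_tsum (fun x => abs_rcv_le hf hg x) (pair_summable hf hg).prod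
  have h3 : ∑' x, ∑' y, |f y * g (x - y)| =
      ∑' p : Z d × Z d, |f p.2 * g (p.1 - p.2)| := ((pair_summable hf hg).tsum_prod).symm
  have h4 : ∑' p : Z d × Z d, |f p.2 * g (p.1 - p.2)| = ∑' p : Z d × Z d, |f p.1| * |g p.2| := by
    rw [← (shift d).tsum_eq (fun p : Z d × Z d => |f p.1| * |g p.2|)]
    refine tsum_congr fun p => ?_
    simp [shift, abs_mul]
  have h5 : ∑' p : Z d × Z d, |f p.1| * |g p.2| = l1 f * l1 g := by
    unfold l1
    exact (hf.tsum_mul_tsum hg h1).symm
  rw [h3, h4, h5] at h2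
  exact h2

private theorem weight_le (x y : Z d) :
    1 + (n2 x : ℝ) ≤ 2 * ((1 + (n2 y : ℝ)) * (1 + (n2 (x - y) : ℝ))) := by
  have h1 : (n2 x : ℝ) ≤ 2 * (n2 y : ℝ) + 2 * (n2 (x - y) : ℝ) := by
    rw [n2_cast, n2_cast, n2_cast, Finset.mul_sum, Finset.mul_sum, ← Finset.sum_add_distrib]
    refine Finset.sum_le_sum fun i _ => ?_
    have : ((x - y) i : ℝ) = (x i : ℝ) - y i := by simp
    rw [this]
    nlinarith [sq_nonneg ((y i : ℝ) - ((x i : ℝ) - y i))]
  have h2 : (0 : ℝ) ≤ n2 y := Nat.cast_nonneg _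
  have h3 : (0 : ℝ) ≤ n2 (x - y) := Nat.cast_nonneg _
  nlinarith [mul_nonneg h2 h3]

theorem rcv_M2 {f g : Z d → ℝ} (hf : M2 f) (hg : M2 g) : M2 (rcv f g) := by
  have hF : Summable (fun x => |(1 + (n2 x : ℝ)) * (|f x|)|) := by
    refine Summable.congr hf fun x => ?_
    exact (abs_of_nonneg (mul_nonneg (add_nonneg zero_le_one (Nat.cast_nonneg _)) (abs_nonneg (f x)))).symm
  have hG : Summable (fun x => |(1 + (n2 x : ℝ)) * (|g x|)|) := by
    refine Summable.congr hg fun x => ?_
    exact (abs_of_nonneg (mul_nonneg (add_nonneg zero_le_one (Nat.cast_nonneg _)) (abs_nonneg (g x)))).symm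
  have hP := (pair_summable hF hG).prod
  refine Summable.of_nonneg_of_le (fun x => by positivity) (fun x => ?_) (hP.mul_left 2)
  have h1 := abs_rcv_le hf.abs hg.abs x
  have h2 := rcv_pt_summable hf.abs hg.abs x
  have h3 := rcv_pt_summable hF hG x
  calc (1 + (n2 x : ℝ)) * |rcv f g x| ≤ (1 + (n2 x : ℝ)) * ∑' y, |f y * g (x - y)| :=
        mul_le_mul_of_nonneg_left h1 (by positivity)
    _ = ∑' y, (1 + (n2 x : ℝ)) * |f y * g (x - y)| := (tsum_mul_left).symm
    _ ≤ ∑' y, 2 * |(1 + (n2 y : ℝ)) * |f y| * ((1 + (n2 (x - y) : ℝ)) * |g (x - y)|)| := by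
        refine (h2.mul_left _).tsum_le_tsum (fun y => ?_) (h3.mul_left 2)
        rw [abs_of_nonneg (a := (1 + (n2 y : ℝ)) * |f y| * ((1 + (n2 (x - y) : ℝ)) * |g (x - y)|))
          (by positivity), abs_mul]
        have := mul_le_mul_of_nonneg_right (weight_le x y)
          (mul_nonneg (abs_nonneg (f y)) (abs_nonneg (g (x - y))))
        linarith
    _ = 2 * ∑' y, |(1 + (n2 y : ℝ)) * |f y| * ((1 + (n2 (x - y) : ℝ)) * |g (x - y)|)| :=
        tsum_mul_left

private def permE (σ : Equiv.Perm (Fin d)) : Z d ≃ Z d where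
  toFun y := fun i => y (σ i)
  invFun y := fun i => y (σ.symm i)
  left_inv y := by funext i; simp
  right_inv y := by funext i; simp

private def flipE (i : Fin d) : Z d ≃ Z d where
  toFun y := Function.update y i (-y i)
  invFun y := Function.update y i (-y i)
  left_inv y := by simp
  right_inv y := by simp

theorem rcv_sym {f g : Z d → ℝ} (hf : Sym f) (hg : Sym g) : Sym (rcv f g) := by
  refine ⟨fun σ x => ?_, fun i x => ?_⟩
  · unfold rcv
    rw [← (permE σ).tsum_eq]
    refine tsum_congr fun y => ?_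
    have h1 : f ((permE σ) y) = f y := hf.1 σ y
    have h2 : (fun i => x (σ i)) - (permE σ) y = fun i => (x - y) (σ i) := by
      funext i; simp [permE]
    rw [h1, h2, hg.1 σ]
  · unfold rcv
    rw [← (flipE i).tsum_eq]
    refine tsum_congr fun y => ?_
    have h1 : f ((flipE i) y) = f y := hf.2 i y
    have h2 : Function.update x i (-x i) - (flipE i) y =
        Function.update (x - y) i (-(x - y) i) := by
      funext j
      by_cases hj : j = i
      · subst hj; simp [flipE]; ring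
      · simp [flipE, hj]
    rw [h1, h2, hg.2 i]

theorem rcv_even {f g : Z d → ℝ} (hf : ∀ x, f (-x) = f x) (hg : ∀ x, g (-x) = g x) (x : Z d) :
    rcv f g (-x) = rcv f g x := by
  unfold rcv
  rw [← (Equiv.neg (Z d)).tsum_eq]
  refine tsum_congr fun y => ?_
  have h : -x - (Equiv.neg (Z d)) y = -(x - y) := by
    simp only [Equiv.neg_apply]; abel
  rw [h, hg, Equiv.neg_apply, hf]

theorem rcv_comm (f g : Z d → ℝ) (x : Z d) : rcv f g x = rcv g f x := by
  unfold rcv
  rw [← (Equiv.subLeft x).tsum_eq]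
  refine tsum_congr fun y => ?_
  simp [mul_comm]

theorem rcv_nonneg {f g : Z d → ℝ} (hf : ∀ x, 0 ≤ f x) (hg : ∀ x, 0 ≤ g x) (x : Z d) :
    0 ≤ rcv f g x := tsum_nonneg fun y => mul_nonneg (hf y) (hg (x - y))

theorem rpw_summable {f : Z d → ℝ} (hf : Summable (fun x => |f x|)) (m : ℕ) :
    Summable (fun x => |rpw f m x|) := by
  induction m with
  | zero =>
    refine summable_of_ne_finset_zero (s := {0}) fun x hx => ?_
    have : x ≠ 0 := by simpa using hx
    simp [rpw, this]
  | succ m ih => exact rcv_summable hf ih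

theorem rpw_nonneg {f : Z d → ℝ} (hf : ∀ x, 0 ≤ f x) (m : ℕ) (x : Z d) : 0 ≤ rpw f m x := by
  induction m generalizing x with
  | zero =>
    simp only [rpw]
    split_ifs <;> norm_num
  | succ m ih => exact rcv_nonneg hf ih x

theorem rpw_even {f : Z d → ℝ} (hf : ∀ x, f (-x) = f x) (m : ℕ) (x : Z d) :
    rpw f m (-x) = rpw f m x := by
  induction m generalizing x with
  | zero => simp [rpw]
  | succ m ih => exact rcv_even hf ih x

theorem rw2_summable {f : Z d → ℝ} (hf : M2 f) : Summable (fun x => |rw2 f x|) := by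
  refine hf.nw.congr fun x => ?_
  unfold rw2
  rw [abs_mul, Nat.abs_cast]

theorem rw2_even {f : Z d → ℝ} (hf : ∀ x, f (-x) = f x) (x : Z d) : rw2 f (-x) = rw2 f x := by
  unfold rw2
  rw [n2_neg, hf]

end Pool.Agent.PB.AF
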