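import Pool.Agent.PB.AF.Base

/-!
PB-AF-ConvB.  Fourier transform of a convolution and its first two derivatives.
-/

open MeasureTheory Filter Topology
open scoped ENNReal

namespace Pool.Agent.PB.AF

variable {d : ℕ}

/-- The equivalence `(x, y) ↦ (y, x - y)`. -/
private def ecv (d : ℕ) : Z d × Z d ≃ Z d × Z d where
  toFun p := (p.2, p.1 - p.2)
  invFun p := (p.1 + p.2, p.1)
  left_inv p := by ext <;> simp
  right_inv p := by ext <;> simp

private theorem summable_cv2 {F G : Z d → ℝ} (hF : Summable (fun x => |F x|))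
    (hG : Summable (fun x => |G x|)) :
    Summable (fun p : Z d × Z d => F p.2 * G (p.1 - p.2)) := by
  have h1 : Summable (fun p : Z d × Z d => F p.1 * G p.2) :=
    summable_mul_of_summable_norm (by simpa using hF) (by simpa using hG)
  exact ((ecv d).summable_iff (f := fun p : Z d × Z d => F p.1 * G p.2)).2 h1

private theorem summable_cv1 {F G : Z d → ℝ} (hF : Summable (fun x => |F x|))
    (hG : Summable (fun x => |G x|)) (x : Z d) :
    Summable (fun y : Z d => F y * G (x - y)) :=
  (summable_cv2 hF hG).prod_factor x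

private theorem summable_rcv {F G : Z d → ℝ} (hF : Summable (fun x => |F x|))
    (hG : Summable (fun x => |G x|)) : Summable (fun x : Z d => ∑' y, F y * G (x - y)) :=
  (summable_cv2 hF hG).prod

private theorem tsum_cv {F G : Z d → ℝ} (hF : Summable (fun x => |F x|))
    (hG : Summable (fun x => |G x|)) :
    ∑' x, ∑' y, F y * G (x - y) = (∑' y, F y) * ∑' z, G z := by
  rw [tsum_mul_tsum_of_summable_norm (by simpa using hF) (by simpa using hG)]
  rw [← (summable_cv2 hF hG).tsum_prod]
  exact (ecv d).tsum_eq (fun p : Z d × Z d => F p.1 * G p.2)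

private theorem tsum_cv_fin {m : ℕ} {F G : Fin m → Z d → ℝ}
    (hF : ∀ j, Summable (fun x => |F j x|)) (hG : ∀ j, Summable (fun x => |G j x|)) :
    ∑' x, ∑' y, ∑ j, F j y * G j (x - y) = ∑ j, (∑' y, F j y) * ∑' z, G j z := by
  have h1 : ∀ x : Z d, ∑' y, ∑ j, F j y * G j (x - y) = ∑ j, ∑' y, F j y * G j (x - y) := by
    intro x
    exact Summable.tsum_finsetSum fun j _ => summable_cv1 (hF j) (hG j) x
  simp_rw [h1]
  rw [Summable.tsum_finsetSum fun j _ => summable_rcv (hF j) (hG j)]
  exact Finset.sum_congr rfl fun j _ => tsum_cv (hF j) (hG j)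

private theorem tsum_odd {F : Z d → ℝ} (h : ∀ x, F (-x) = -F x) : ∑' x, F x = 0 := by
  have h1 : ∑' x, F x = ∑' x, F (-x) := ((Equiv.neg (Z d)).tsum_eq F).symm
  have h2 : ∑' x, F (-x) = -∑' x, F x := by
    simp_rw [h]
    exact tsum_neg
  linarith

private theorem abs_mul_cs {F : Z d → ℝ} (hF : Summable (fun x => |F x|)) {t : Z d → ℝ}
    (ht : ∀ x, |t x| ≤ 1) : Summable (fun x => |F x * t x|) := by
  refine Summable.of_nonneg_of_le (fun x => abs_nonneg _) (fun x => ?_) hF
  rw [abs_mul]
  exact mul_le_of_le_one_right (abs_nonneg _) (ht x)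

private theorem s1 {f : Z d → ℝ} (hf : M2 f) (i : Fin d) :
    Summable (fun x : Z d => |(x i : ℝ) * f x|) := by
  simpa only [abs_mul] using hf.coord1 i

private theorem s2 {f : Z d → ℝ} (hf : M2 f) (i : Fin d) :
    Summable (fun x : Z d => |(x i : ℝ) ^ 2 * f x|) := by
  have := hf.coord i
  refine this.congr fun x => ?_
  rw [abs_mul, abs_of_nonneg (sq_nonneg (x i : ℝ))]

theorem ft_rcv {f g : Z d → ℝ} (hf : Summable (fun x => |f x|)) (hg : Summable (fun x => |g x|))
    (he : ∀ x, f (-x) = f x) (he' : ∀ x, g (-x) = g x) (k : Fin d → ℝ) :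
    ft (rcv f g) k = ft f k * ft g k := by
  have hc : ∀ x : Z d, |Real.cos (dot k x)| ≤ 1 := fun x => Real.abs_cos_le_one _
  have hs : ∀ x : Z d, |Real.sin (dot k x)| ≤ 1 := fun x => Real.abs_sin_le_one _
  have key := tsum_cv_fin (m := 2)
    (F := ![fun y => f y * Real.cos (dot k y), fun y => f y * Real.sin (dot k y)])
    (G := ![fun y => g y * Real.cos (dot k y), fun y => -(g y * Real.sin (dot k y))])
    (by
      intro j; fin_cases j
      · exact abs_mul_cs hf hc
      · exact abs_mul_cs hf hs)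
    (by
      intro j; fin_cases j
      · exact abs_mul_cs hg hc
      · simpa using abs_mul_cs hg hs)
  simp only [Fin.sum_univ_two, Matrix.cons_val_zero, Matrix.cons_val_one] at key
  have h0 : ∑' y, f y * Real.sin (dot k y) = 0 := tsum_odd fun x => by
    rw [he, dot_neg, Real.sin_neg]; ring
  rw [h0, zero_mul, add_zero] at key
  unfold ft
  rw [← key]
  refine tsum_congr fun x => ?_
  unfold rcv
  rw [← tsum_mul_right]
  refine tsum_congr fun y => ?_
  have : dot k x = dot k y + dot k (x - y) := by rw [← dot_add]; congr 1; abel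
  rw [this, Real.cos_add]
  ring

theorem ft1_rcv {f g : Z d → ℝ} (hf : M2 f) (hg : M2 g)
    (he : ∀ x, f (-x) = f x) (he' : ∀ x, g (-x) = g x) (i : Fin d) (k : Fin d → ℝ) :
    ft1 i (rcv f g) k = ft1 i f k * ft g k + ft f k * ft1 i g k := by
  have hc : ∀ x : Z d, |Real.cos (dot k x)| ≤ 1 := fun x => Real.abs_cos_le_one _
  have hs : ∀ x : Z d, |Real.sin (dot k x)| ≤ 1 := fun x => Real.abs_sin_le_one _
  have key := tsum_cv_fin (m := 4)
    (F := ![fun y => (y i : ℝ) * f y * Real.sin (dot k y),
      fun y => (y i : ℝ) * f y * Real.cos (dot k y),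
      fun y => f y * Real.sin (dot k y),
      fun y => f y * Real.cos (dot k y)])
    (G := ![fun y => g y * Real.cos (dot k y), fun y => g y * Real.sin (dot k y),
      fun y => (y i : ℝ) * g y * Real.cos (dot k y),
      fun y => (y i : ℝ) * g y * Real.sin (dot k y)])
    (by
      intro j; fin_cases j
      · exact abs_mul_cs (s1 hf i) hs
      · exact abs_mul_cs (s1 hf i) hc
      · exact abs_mul_cs hf.abs hs
      · exact abs_mul_cs hf.abs hc)
    (by
      intro j; fin_cases j
      · exact abs_mul_cs hg.abs hc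
      · exact abs_mul_cs hg.abs hs
      · exact abs_mul_cs (s1 hg i) hc
      · exact abs_mul_cs (s1 hg i) hs)
  simp only [Fin.sum_univ_four, Matrix.cons_val_zero, Matrix.cons_val_one, Matrix.cons_val_two,
    Matrix.cons_val_three, Matrix.tail_cons, Matrix.head_cons, Matrix.cons_val] at key
  have h0 : ∑' y, f y * Real.sin (dot k y) = 0 := tsum_odd fun x => by
    rw [he, dot_neg, Real.sin_neg]; ring
  have h1 : ∑' y : Z d, (y i : ℝ) * f y * Real.cos (dot k y) = 0 := tsum_odd fun x => by
    rw [he, dot_neg, Real.cos_neg, Pi.neg_apply]; push_cast; ring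
  rw [h0, h1, zero_mul, zero_mul, add_zero, add_zero] at key
  unfold ft ft1
  rw [← key]
  refine tsum_congr fun x => ?_
  unfold rcv
  rw [← tsum_mul_left, ← tsum_mul_right]
  refine tsum_congr fun y => ?_
  have h2 : dot k x = dot k y + dot k (x - y) := by rw [← dot_add]; congr 1; abel
  have h3 : (x i : ℝ) = (y i : ℝ) + (((x - y) i : ℤ) : ℝ) := by
    rw [Pi.sub_apply]; push_cast; ring
  rw [h2, Real.sin_add, h3]
  ring

theorem ft2_rcv {f g : Z d → ℝ} (hf : M2 f) (hg : M2 g)
    (he : ∀ x, f (-x) = f x) (he' : ∀ x, g (-x) = g x) (i : Fin d) (k : Fin d → ℝ) :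
    ft2 i (rcv f g) k = ft2 i f k * ft g k - 2 * (ft1 i f k * ft1 i g k) + ft f k * ft2 i g k := by
  have hc : ∀ x : Z d, |Real.cos (dot k x)| ≤ 1 := fun x => Real.abs_cos_le_one _
  have hs : ∀ x : Z d, |Real.sin (dot k x)| ≤ 1 := fun x => Real.abs_sin_le_one _
  have key := tsum_cv_fin (m := 6)
    (F := ![fun y => (y i : ℝ) ^ 2 * f y * Real.cos (dot k y),
      fun y => (y i : ℝ) ^ 2 * f y * Real.sin (dot k y),
      fun y => (y i : ℝ) * f y * Real.cos (dot k y),
      fun y => (y i : ℝ) * f y * Real.sin (dot k y),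
      fun y => f y * Real.cos (dot k y),
      fun y => f y * Real.sin (dot k y)])
    (G := ![fun y => g y * Real.cos (dot k y), fun y => -(g y * Real.sin (dot k y)),
      fun y => 2 * ((y i : ℝ) * g y * Real.cos (dot k y)),
      fun y => -2 * ((y i : ℝ) * g y * Real.sin (dot k y)),
      fun y => (y i : ℝ) ^ 2 * g y * Real.cos (dot k y),
      fun y => -((y i : ℝ) ^ 2 * g y * Real.sin (dot k y))])
    (by
      intro j; fin_cases j
      · exact abs_mul_cs (s2 hf i) hc
      · exact abs_mul_cs (s2 hf i) hs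
      · exact abs_mul_cs (s1 hf i) hc
      · exact abs_mul_cs (s1 hf i) hs
      · exact abs_mul_cs hf.abs hc
      · exact abs_mul_cs hf.abs hs)
    (by
      intro j; fin_cases j
      · exact abs_mul_cs hg.abs hc
      · simpa using abs_mul_cs hg.abs hs
      · have := (abs_mul_cs (s1 hg i) hc).mul_left 2
        refine this.congr fun x => ?_
        simp [abs_mul]
      · have := (abs_mul_cs (s1 hg i) hs).mul_left 2
        refine this.congr fun x => ?_
        simp [abs_mul]
      · exact abs_mul_cs (s2 hg i) hc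
      · simpa using abs_mul_cs (s2 hg i) hs)
  simp only [Fin.sum_univ_six, Matrix.cons_val_zero, Matrix.cons_val_one,
    Matrix.cons_val] at key
  have h0 : ∑' y, f y * Real.sin (dot k y) = 0 := tsum_odd fun x => by
    rw [he, dot_neg, Real.sin_neg]; ring
  have h1 : ∑' y : Z d, (y i : ℝ) * f y * Real.cos (dot k y) = 0 := tsum_odd fun x => by
    rw [he, dot_neg, Real.cos_neg, Pi.neg_apply]; push_cast; ring
  have h2 : ∑' y : Z d, (y i : ℝ) ^ 2 * f y * Real.sin (dot k y) = 0 := tsum_odd fun x => by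
    rw [he, dot_neg, Real.sin_neg, Pi.neg_apply]; push_cast; ring
  rw [h0, h1, h2, zero_mul, zero_mul, zero_mul, add_zero, add_zero, add_zero, tsum_mul_left] at key
  unfold ft ft1 ft2
  have key2 : (∑' y : Z d, (y i : ℝ) ^ 2 * f y * Real.cos (dot k y)) *
        (∑' y, g y * Real.cos (dot k y)) -
      2 * ((∑' y : Z d, (y i : ℝ) * f y * Real.sin (dot k y)) *
        ∑' y : Z d, (y i : ℝ) * g y * Real.sin (dot k y)) +
      (∑' y, f y * Real.cos (dot k y)) * ∑' y : Z d, (y i : ℝ) ^ 2 * g y * Real.cos (dot k y) =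
      ∑' x : Z d, (x i : ℝ) ^ 2 * rcv f g x * Real.cos (dot k x) := by
    rw [show ∀ a b c e : ℝ, a - 2 * (b * c) + e = a + b * (-2 * c) + e by intros; ring, ← key]
    refine tsum_congr fun x => ?_
    unfold rcv
    rw [← tsum_mul_left, ← tsum_mul_right]
    refine tsum_congr fun y => ?_
    have h2 : dot k x = dot k y + dot k (x - y) := by rw [← dot_add]; congr 1; abel
    have h3 : (x i : ℝ) = (y i : ℝ) + (((x - y) i : ℤ) : ℝ) := by
      rw [Pi.sub_apply]; push_cast; ring
    rw [h2, Real.cos_add, h3]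
    ring
  exact key2.symm

end Pool.Agent.PB.AF
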