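import Pool.Agent.PB.AF.Base

/-!
PB-AF-Dfacts.  Elementary facts on `Dh`.

Plan. `cube_bound`: `1 - cos t ≥ 2 t^2/π^2` for `|t| ≤ π` (`Real.cos_le_one_sub_mul_cos_sq`,
`Real.one_sub_sq_div_two_le_cos`... use `Real.mul_le_sin`/`Real.two_div_pi_mul_le_sin`-type Jordan inequality:
`1 - cos t = 2 sin^2(t/2)` and `sin s ≥ 2s/π` on `[0, π/2]`, `Real.mul_le_sin`), summed over `i`:
`1 - Dh k = (1/d) ∑ (1 - cos k_i) ≥ (2/(π^2 d)) ∑ k_i^2`.
`sin_sq_bound`: `sin^2 t ≤ 2 (1 - cos t)` and `1 - cos k_i ≤ ∑_j (1 - cos k_j) = d (1 - Dh k)`.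
`int_Dh_sq`: `∫ cos k_i cos k_j dQ = 1/2` if `i = j` and `0` otherwise; either Fubini on `Measure.pi`
(`integral_fintype_prod_eq_prod` with factors `cos`/`1`), or from the product formula with
`k ↦ cos (k i) = cos (dot k (Pi.single i 1))`; the one dimensional integrals are elementary.
`ae_Dh_lt`: if `Dh k = 1` then `cos (k i) = 1` for all `i`, so `k i = 0` for `k` in the cube; the hyperplane
`{k | k i = 0}` has `Q`-measure zero (`q1` has no atoms, `Measure.pi_hyperplane`).
`ae_cube`: `q1`-a.e. point is in `Ioc (-π) π`; `Measure.ae_eval_ne`/`Measure.tendsto_eval_ae_ae`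
or `(Measure.quasiMeasurePreserving_eval _ i).ae`.
-/

open MeasureTheory Filter Topology
open scoped ENNReal

namespace Pool.Agent.PB.AF

variable {d : ℕ}

private theorem one_sub_Dh (hd : 1 ≤ d) (k : Fin d → ℝ) :
    1 - Dh k = (∑ i, (1 - Real.cos (k i))) / d := by
  have hd' : (d : ℝ) ≠ 0 := by
    have : 0 < d := hd
    exact_mod_cast this.ne'
  unfold Dh
  rw [Finset.sum_sub_distrib]
  simp only [Finset.sum_const, Finset.card_univ, Fintype.card_fin, nsmul_eq_mul, mul_one]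
  field_simp

theorem cube_bound (hd : 1 ≤ d) (k : Fin d → ℝ) (hk : ∀ i, |k i| ≤ Real.pi) :
    (∑ i, (k i) ^ 2) / (2 * d) ≤ Real.pi ^ 2 / 4 * (1 - Dh k) := by
  have hd' : (0 : ℝ) < d := by exact_mod_cast hd
  have h1 : ∀ i, (k i) ^ 2 / 2 ≤ Real.pi ^ 2 / 4 * (1 - Real.cos (k i)) := by
    intro i
    have h := Real.cos_le_one_sub_mul_cos_sq (hk i)
    have hpi : 0 < Real.pi ^ 2 := by positivity
    have h2 : 2 / Real.pi ^ 2 * (k i) ^ 2 ≤ 1 - Real.cos (k i) := by linarith
    calc (k i) ^ 2 / 2 = Real.pi ^ 2 / 4 * (2 / Real.pi ^ 2 * (k i) ^ 2) := by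
          field_simp; ring
      _ ≤ _ := mul_le_mul_of_nonneg_left h2 (by positivity)
  rw [one_sub_Dh hd]
  have h3 : (∑ i, (k i) ^ 2) / (2 * d) = (∑ i, (k i) ^ 2 / 2) / d := by
    rw [← Finset.sum_div]
    field_simp
  rw [h3, ← mul_div_assoc, Finset.mul_sum]
  exact div_le_div_of_nonneg_right (Finset.sum_le_sum fun i _ => h1 i) hd'.le

theorem sin_sq_bound (hd : 1 ≤ d) (k : Fin d → ℝ) (i : Fin d) :
    (Real.sin (k i)) ^ 2 ≤ 2 * d * (1 - Dh k) := by
  have hd' : (0 : ℝ) < d := by exact_mod_cast hd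
  have h1 : (Real.sin (k i)) ^ 2 ≤ 2 * (1 - Real.cos (k i)) := by
    have := Real.sin_sq_add_cos_sq (k i)
    nlinarith [sq_nonneg (1 - Real.cos (k i))]
  have h2 : 1 - Real.cos (k i) ≤ ∑ j, (1 - Real.cos (k j)) :=
    Finset.single_le_sum (f := fun j => 1 - Real.cos (k j))
      (fun j _ => by have := Real.cos_le_one (k j); linarith) (Finset.mem_univ i)
  rw [one_sub_Dh hd]
  have h3 : 2 * (d : ℝ) * ((∑ j, (1 - Real.cos (k j))) / d) = 2 * ∑ j, (1 - Real.cos (k j)) := by
    field_simp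
  rw [h3]
  linarith

private theorem q1_int (f : ℝ → ℝ) :
    ∫ t, f t ∂q1 = 1 / (2 * Real.pi) * ∫ t in (-Real.pi)..Real.pi, f t := by
  rw [q1, integral_smul_measure, ENNReal.toReal_ofReal (by positivity),
    intervalIntegral.integral_of_le (by linarith [Real.pi_pos])]
  rfl

private theorem q1_cos : ∫ t, Real.cos t ∂q1 = 0 := by
  rw [q1_int, integral_cos]
  simp

private theorem q1_cos_sq : ∫ t, Real.cos t * Real.cos t ∂q1 = 1 / 2 := by
  rw [q1_int]
  have : (fun t : ℝ => Real.cos t * Real.cos t) = fun t => Real.cos t ^ 2 := by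
    funext t; ring
  rw [this, integral_cos_sq]
  simp only [Real.cos_pi, Real.sin_pi, Real.cos_neg, Real.sin_neg]
  field_simp
  ring

private theorem int_cos_cos (i j : Fin d) :
    ∫ k : Fin d → ℝ, Real.cos (k i) * Real.cos (k j) ∂(Q d) = if i = j then 1 / 2 else 0 := by
  by_cases h : i = j
  · subst h
    rw [if_pos rfl, ← q1_cos_sq]
    exact integral_comp_eval (μ := fun _ : Fin d => q1) (i := i)
      (f := fun t => Real.cos t * Real.cos t) (by fun_prop)
  · rw [if_neg h]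
    have h1 : ∀ k : Fin d → ℝ, Real.cos (k i) * Real.cos (k j) =
        ∏ l, ((if l = i then Real.cos (k l) else 1) * (if l = j then Real.cos (k l) else 1)) := by
      intro k
      rw [Finset.prod_mul_distrib]
      simp
    have h2 := integral_fintype_prod_eq_prod (𝕜 := ℝ) (ι := Fin d) (E := fun _ => ℝ)
      (fun l t => (if l = i then Real.cos t else 1) * (if l = j then Real.cos t else 1))
      (μ := fun _ => q1)
    simp only [h1]
    unfold Q
    rw [h2]
    refine Finset.prod_eq_zero (Finset.mem_univ i) ?_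
    simp only [if_true, if_neg h, mul_one]
    exact q1_cos

private theorem integrable_cos_cos (i j : Fin d) :
    Integrable (fun k : Fin d → ℝ => Real.cos (k i) * Real.cos (k j)) (Q d) := by
  refine Integrable.of_bound (C := 1) (by fun_prop) (Eventually.of_forall fun k => ?_)
  rw [Real.norm_eq_abs, abs_mul]
  exact mul_le_one₀ (Real.abs_cos_le_one _) (abs_nonneg _) (Real.abs_cos_le_one _)

theorem int_Dh_sq (hd : 1 ≤ d) : ∫ k : Fin d → ℝ, (Dh k) ^ 2 ∂(Q d) = 1 / (2 * d) := by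
  have hd' : (0 : ℝ) < d := by exact_mod_cast hd
  have h1 : ∀ k : Fin d → ℝ, (Dh k) ^ 2 =
      (1 / (d : ℝ) ^ 2) * ∑ i, ∑ j, Real.cos (k i) * Real.cos (k j) := by
    intro k
    unfold Dh
    rw [← Finset.sum_mul_sum, div_pow]
    ring
  simp only [h1]
  rw [integral_const_mul, integral_finsetSum _ fun i _ => integrable_finsetSum _ fun j _ =>
    integrable_cos_cos i j]
  have h2 : ∀ i : Fin d, ∫ k : Fin d → ℝ, ∑ j, Real.cos (k i) * Real.cos (k j) ∂(Q d) = 1 / 2 := by
    intro i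
    rw [integral_finsetSum _ fun j _ => integrable_cos_cos i j]
    simp only [int_cos_cos]
    simp
  simp only [h2]
  simp only [Finset.sum_const, Finset.card_univ, Fintype.card_fin, nsmul_eq_mul]
  field_simp

theorem ae_cube : ∀ᵐ k : Fin d → ℝ ∂(Q d), ∀ i, |k i| ≤ Real.pi := by
  rw [ae_all_iff]
  intro i
  have h1 : ∀ᵐ t ∂q1, |t| ≤ Real.pi := by
    unfold q1
    refine Measure.ae_smul_measure ?_ _
    rw [ae_restrict_iff' measurableSet_Ioc]
    refine Eventually.of_forall fun t ht => ?_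
    rw [abs_le]
    exact ⟨ht.1.le, ht.2⟩
  exact (measurePreserving_eval (fun _ : Fin d => q1) i).quasiMeasurePreserving.ae h1

theorem ae_Dh_lt (hd : 1 ≤ d) : ∀ᵐ k : Fin d → ℝ ∂(Q d), Dh k < 1 := by
  have hd' : (0 : ℝ) < d := by exact_mod_cast hd
  have h1 : ∀ᵐ t ∂q1, t ≠ 0 := by
    unfold q1
    refine Measure.ae_smul_measure ?_ _
    refine ae_restrict_of_ae ?_
    exact Measure.ae_ne volume 0
  have i0 : Fin d := ⟨0, hd⟩
  have h2 : ∀ᵐ k : Fin d → ℝ ∂(Q d), k i0 ≠ 0 :=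
    (measurePreserving_eval (fun _ : Fin d => q1) i0).quasiMeasurePreserving.ae h1
  filter_upwards [h2, ae_cube] with k hk hc
  by_contra hcon
  have h3 := cube_bound hd k hc
  have h4 : Real.pi ^ 2 / 4 * (1 - Dh k) ≤ 0 :=
    mul_nonpos_of_nonneg_of_nonpos (by positivity) (by linarith)
  have h5 : 0 < (∑ i, (k i) ^ 2) / (2 * d) := by
    refine div_pos ?_ (by positivity)
    exact Finset.sum_pos' (fun i _ => sq_nonneg _) ⟨i0, Finset.mem_univ _, by positivity⟩
  linarith

end Pool.Agent.PB.AF
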