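import Pool.Agent.PB.AF.ConvA

/-!
PB-AF-Enn.  Translation between the `[0,∞]`-valued and the real convolutions.

Plan. `cv_en`: `ENNReal.ofReal_tsum_of_nonneg`, `ENNReal.ofReal_mul`, summability from
`rcv_pt_summable`. `cpow_en`: induction with `rpw_nonneg`, `rpw_summable` (`rpw f 0`, `dl`).
`tw_en`: `ENNReal.ofReal_mul`, `ENNReal.ofReal_natCast`.
-/

open MeasureTheory Filter Topology
open scoped ENNReal

namespace Pool.Agent.PB.AF

variable {d : ℕ}

theorem cv_en {f g : Z d → ℝ} (hf : ∀ x, 0 ≤ f x) (hg : ∀ x, 0 ≤ g x)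
    (hsf : Summable (fun x => |f x|)) (hsg : Summable (fun x => |g x|)) :
    cv (en f) (en g) = en (rcv f g) := by
  funext x
  unfold cv en rcv
  rw [ENNReal.ofReal_tsum_of_nonneg (fun y => mul_nonneg (hf y) (hg (x - y)))
    (rcv_pt_summable hsf hsg x).of_abs]
  exact tsum_congr fun y => (ENNReal.ofReal_mul (hf y)).symm

theorem cpow_en {f : Z d → ℝ} (hf : ∀ x, 0 ≤ f x) (hsf : Summable (fun x => |f x|)) (m : ℕ) :
    cpow (en f) m = en (rpw f m) := by
  induction m with
  | zero =>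
    funext x
    change (if x = 0 then (1 : ℝ≥0∞) else 0) = ENNReal.ofReal (if x = 0 then 1 else 0)
    split_ifs <;> simp
  | succ m ih =>
    change cv (en f) (cpow (en f) m) = en (rcv f (rpw f m))
    rw [ih]
    exact cv_en hf (rpw_nonneg hf m) hsf (rpw_summable hsf m)

theorem tw_en (f : Z d → ℝ) : tw (en f) = en (rw2 f) := by
  funext x
  change (n2 x : ℝ≥0∞) * ENNReal.ofReal (f x) = ENNReal.ofReal ((n2 x : ℝ) * f x)
  rw [ENNReal.ofReal_mul (Nat.cast_nonneg _), ENNReal.ofReal_natCast]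

theorem J_en (p : ℝ) : (J p : Z d → ℝ≥0∞) = en (Jr p) := by
  funext x
  change (if ∑ i, |x i| = 1 then ENNReal.ofReal p else 0) =
    ENNReal.ofReal (if ∑ i, |x i| = 1 then p else 0)
  split_ifs <;> simp

end Pool.Agent.PB.AF
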