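import Pool.Agent.PB.AF.Base

/-!
PB-AF-Jf.  The nearest neighbour kernel `J_p`.

Plan. `{x : Z d | ∑ |x i| = 1}` is the finite set `{± e_j}` (`Pi.single j 1`, `Pi.single j (-1)`,
`j : Fin d`), `2d` different points.  A convenient form: for every `F : Z d → ℝ`,
`∑' x, Jr p x * F x = p * ∑ j, (F (Pi.single j 1) + F (Pi.single j (-1)))` (`tsum_eq_sum` over the finset
image, or `hasSum`); first prove `∑ i, |x i| = 1 ↔ ∃ j, x = Pi.single j 1 ∨ x = Pi.single j (-1)`.
Then `dot k (± e_j) = ± k j`.  All series have finite support, so they are summable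
(`summable_of_finite_support`).
-/

open MeasureTheory Filter Topology
open scoped ENNReal

namespace Pool.Agent.PB.AF

variable {d : ℕ}

theorem sum_abs_eq_one_iff (x : Z d) :
    ∑ i, |x i| = 1 ↔ ∃ j : Fin d, x = Pi.single j 1 ∨ x = Pi.single j (-1) := by
  constructor
  · intro h
    have hex : ∃ j, x j ≠ 0 := by
      by_contra hcon
      push Not at hcon
      have h0 : ∑ i, |x i| = 0 := Finset.sum_eq_zero fun i _ => by rw [hcon i, abs_zero]
      rw [h0] at h
      exact zero_ne_one h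
    obtain ⟨j, hj⟩ := hex
    have h1 : 1 ≤ |x j| := Int.one_le_abs hj
    rw [← Finset.add_sum_erase _ _ (Finset.mem_univ j)] at h
    have h2 : 0 ≤ ∑ i ∈ Finset.univ.erase j, |x i| := Finset.sum_nonneg fun i _ => abs_nonneg _
    have h3 : |x j| = 1 := by linarith
    have h4 : ∑ i ∈ Finset.univ.erase j, |x i| = 0 := by linarith
    rw [Finset.sum_eq_zero_iff_of_nonneg fun i _ => abs_nonneg _] at h4
    have h5 : ∀ i, i ≠ j → x i = 0 := fun i hi =>
      abs_eq_zero.1 (h4 i (Finset.mem_erase.2 ⟨hi, Finset.mem_univ i⟩))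
    have h6 : x = Pi.single j (x j) := by
      funext i
      by_cases hi : i = j
      · subst hi
        rw [Pi.single_eq_same]
      · rw [Pi.single_eq_of_ne hi, h5 i hi]
    refine ⟨j, ?_⟩
    rcases eq_or_eq_neg_of_abs_eq h3 with h7 | h7
    · left
      rw [h7] at h6
      exact h6
    · right
      rw [h7] at h6
      exact h6
  · rintro ⟨j, h⟩
    have key : ∀ c : ℤ, ∑ i, |(Pi.single j c : Z d) i| = |c| := by
      intro c
      rw [Finset.sum_eq_single j]
      · rw [Pi.single_eq_same]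
      · intro i _ hi
        rw [Pi.single_eq_of_ne hi, abs_zero]
      · intro h
        exact absurd (Finset.mem_univ j) h
    rcases h with rfl | rfl
    · rw [key, abs_one]
    · rw [key, abs_neg, abs_one]

private def nb (a : Fin d × Bool) : Z d := Pi.single a.1 (if a.2 then 1 else -1)

private theorem nb_inj : Function.Injective (nb : Fin d × Bool → Z d) := by
  rintro ⟨j, b⟩ ⟨j', b'⟩ h
  have h1 := congrFun h j
  unfold nb at h1
  simp only [Pi.single_eq_same] at h1
  have hc : (if b then (1 : ℤ) else -1) ≠ 0 := by split_ifs <;> norm_num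
  have hj : j = j' := by
    by_contra hne
    rw [Pi.single_eq_of_ne hne] at h1
    exact hc h1
  subst hj
  rw [Pi.single_eq_same] at h1
  have hb : b = b' := by
    cases b <;> cases b' <;> simp at h1 ⊢
  rw [hb]

private theorem Jr_zero (p : ℝ) {x : Z d}
    (hx : x ∉ (Finset.univ : Finset (Fin d × Bool)).map ⟨nb, nb_inj⟩) : Jr p x = 0 := by
  unfold Jr
  rw [if_neg]
  intro h
  rw [sum_abs_eq_one_iff] at h
  obtain ⟨j, hj⟩ := h
  apply hx
  rw [Finset.mem_map]
  rcases hj with h | h
  · exact ⟨(j, true), Finset.mem_univ _, by rw [h]; rfl⟩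
  · exact ⟨(j, false), Finset.mem_univ _, by rw [h]; rfl⟩

private theorem Jr_nb (p : ℝ) (a : Fin d × Bool) : Jr p (nb a) = p := by
  unfold Jr
  rw [if_pos]
  rw [sum_abs_eq_one_iff]
  obtain ⟨j, b⟩ := a
  cases b
  · exact ⟨j, Or.inr rfl⟩
  · exact ⟨j, Or.inl rfl⟩

private theorem tsum_Jr (p : ℝ) (F : Z d → ℝ) :
    ∑' x, Jr p x * F x = p * ∑ j : Fin d, (F (Pi.single j 1) + F (Pi.single j (-1))) := by
  rw [tsum_eq_sum (s := (Finset.univ : Finset (Fin d × Bool)).map ⟨nb, nb_inj⟩)
    (fun x hx => by rw [Jr_zero p hx, zero_mul]), Finset.sum_map]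
  simp only [Function.Embedding.coeFn_mk, Jr_nb]
  rw [Fintype.sum_prod_type, Finset.mul_sum]
  refine Finset.sum_congr rfl fun j _ => ?_
  rw [Fintype.sum_bool, mul_add]
  rfl

private theorem dot_single (k : Fin d → ℝ) (j : Fin d) (c : ℤ) :
    dot k (Pi.single j c) = k j * c := by
  unfold dot
  rw [Finset.sum_eq_single j]
  · rw [Pi.single_eq_same]
  · intro i _ hi
    rw [Pi.single_eq_of_ne hi, Int.cast_zero, mul_zero]
  · intro h
    exact absurd (Finset.mem_univ j) h

private theorem cos_single (k : Fin d → ℝ) (j : Fin d) :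
    Real.cos (dot k (Pi.single j 1)) = Real.cos (k j) ∧
      Real.cos (dot k (Pi.single j (-1))) = Real.cos (k j) ∧
      Real.sin (dot k (Pi.single j 1)) = Real.sin (k j) ∧
      Real.sin (dot k (Pi.single j (-1))) = -Real.sin (k j) := by
  rw [dot_single, dot_single]
  push_cast
  rw [mul_one, mul_neg_one, Real.cos_neg, Real.sin_neg]
  exact ⟨rfl, rfl, rfl, rfl⟩

theorem Jr_M2 (p : ℝ) : M2 (Jr p : Z d → ℝ) := by
  unfold M2
  refine summable_of_ne_finset_zero
    (s := (Finset.univ : Finset (Fin d × Bool)).map ⟨nb, nb_inj⟩) fun x hx => ?_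
  rw [Jr_zero p hx, abs_zero, mul_zero]

theorem Jr_sym (p : ℝ) : Sym (Jr p : Z d → ℝ) := by
  constructor
  · intro σ x
    unfold Jr
    rw [Equiv.sum_comp σ (fun i => |x i|)]
  · intro i x
    unfold Jr
    have h : ∑ j, |Function.update x i (-x i) j| = ∑ j, |x j| := by
      refine Finset.sum_congr rfl fun j _ => ?_
      by_cases hj : j = i
      · subst hj
        rw [Function.update_self, abs_neg]
      · rw [Function.update_of_ne hj]
    rw [h]

theorem ft_Jr (p : ℝ) (k : Fin d → ℝ) : ft (Jr p) k = 2 * d * p * Dh k := by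
  unfold ft
  rw [tsum_Jr p (fun x => Real.cos (dot k x))]
  have h1 : ∑ j : Fin d, (Real.cos (dot k (Pi.single j 1)) + Real.cos (dot k (Pi.single j (-1)))) =
      2 * ∑ j, Real.cos (k j) := by
    rw [Finset.mul_sum]
    refine Finset.sum_congr rfl fun j _ => ?_
    rw [(cos_single k j).1, (cos_single k j).2.1]
    ring
  rw [h1]
  unfold Dh
  rcases Nat.eq_zero_or_pos d with hd | hd
  · subst hd
    simp
  · have hd' : (d : ℝ) ≠ 0 := by exact_mod_cast hd.ne'
    field_simp

theorem ft1_Jr (p : ℝ) (i : Fin d) (k : Fin d → ℝ) : ft1 i (Jr p) k = 2 * p * Real.sin (k i) := by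
  unfold ft1
  have h0 : ∀ x : Z d, (x i : ℝ) * Jr p x * Real.sin (dot k x) =
      Jr p x * ((x i : ℝ) * Real.sin (dot k x)) := fun x => by ring
  rw [tsum_congr h0, tsum_Jr p (fun x => (x i : ℝ) * Real.sin (dot k x))]
  have h1 : ∑ j : Fin d, (((Pi.single j 1 : Z d) i : ℝ) * Real.sin (dot k (Pi.single j 1)) +
      ((Pi.single j (-1) : Z d) i : ℝ) * Real.sin (dot k (Pi.single j (-1)))) =
      2 * Real.sin (k i) := by
    rw [Finset.sum_eq_single i]
    · rw [Pi.single_eq_same, Pi.single_eq_same, (cos_single k i).2.2.1, (cos_single k i).2.2.2]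
      push_cast
      ring
    · intro j _ hj
      rw [Pi.single_eq_of_ne (Ne.symm hj), Pi.single_eq_of_ne (Ne.symm hj)]
      push_cast
      ring
    · intro h
      exact absurd (Finset.mem_univ i) h
  rw [h1]
  ring

theorem ft2_Jr (p : ℝ) (i : Fin d) (k : Fin d → ℝ) : ft2 i (Jr p) k = 2 * p * Real.cos (k i) := by
  unfold ft2
  have h0 : ∀ x : Z d, (x i : ℝ) ^ 2 * Jr p x * Real.cos (dot k x) =
      Jr p x * ((x i : ℝ) ^ 2 * Real.cos (dot k x)) := fun x => by ring
  rw [tsum_congr h0, tsum_Jr p (fun x => (x i : ℝ) ^ 2 * Real.cos (dot k x))]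
  have h1 : ∑ j : Fin d, (((Pi.single j 1 : Z d) i : ℝ) ^ 2 * Real.cos (dot k (Pi.single j 1)) +
      ((Pi.single j (-1) : Z d) i : ℝ) ^ 2 * Real.cos (dot k (Pi.single j (-1)))) =
      2 * Real.cos (k i) := by
    rw [Finset.sum_eq_single i]
    · rw [Pi.single_eq_same, Pi.single_eq_same, (cos_single k i).1, (cos_single k i).2.1]
      push_cast
      ring
    · intro j _ hj
      rw [Pi.single_eq_of_ne (Ne.symm hj), Pi.single_eq_of_ne (Ne.symm hj)]
      push_cast
      ring
    · intro h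
      exact absurd (Finset.mem_univ i) h
  rw [h1]
  ring

end Pool.Agent.PB.AF
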