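import Pool.Agent.PB.AF.Inv
import Pool.Agent.PB.AF.ConvB
import Pool.Agent.PB.AF.Enn
import Pool.Agent.PB.AF.Jf

/-!
PB-AF-DiagA.  Sup bounds of convolutions by Fourier integrals.

Plan. `ft_rpw`: induction with `ft_rcv`, `rpw_summable`, `rpw_even`; `ft (rpw f 0) = 1`.
`sJ_le`: for every `x`, `cv (J p) (en g) x = en (rcv (Jr p) g) x` (`J_en`, `cv_en`; `Jr p ≥ 0`, `Jr_M2`),
`rcv (Jr p) g x ≤ ∫ |ft (rcv (Jr p) g)| = ∫ |2 d p Dh k| |ft g k|` (`abs_le_int`, `rcv_summable`, `rcv_even`, `ft_rcv`, `ft_Jr`).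
`en0_le`: `abs_le_int` at `x = 0`.
-/

open MeasureTheory Filter Topology
open scoped ENNReal

namespace Pool.Agent.PB.AF

variable {d : ℕ}

theorem ft_rpw {f : Z d → ℝ} (hf : Summable (fun x => |f x|)) (he : ∀ x, f (-x) = f x) (m : ℕ)
    (k : Fin d → ℝ) : ft (rpw f m) k = (ft f k) ^ m := by
  induction m with
  | zero =>
    rw [pow_zero, ft, tsum_eq_single (0 : Z d)]
    · simp [rpw, dot]
    · intro x hx
      simp [rpw, hx]
  | succ m ih =>
    have h1 := ft_rcv hf (rpw_summable hf m) he (rpw_even he m) k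
    rw [ih] at h1
    rw [pow_succ']
    exact h1

theorem sJ_le {p : ℝ} (hp : 0 ≤ p) {g : Z d → ℝ} (h0 : ∀ x, 0 ≤ g x)
    (hg : Summable (fun x => |g x|)) (he : ∀ x, g (-x) = g x) :
    sJ p (en g) ≤ ENNReal.ofReal (∫ k, (2 * d * p) * (|Dh k| * |ft g k|) ∂(Q d)) := by
  have hJ : ∀ x : Z d, 0 ≤ Jr p x := fun x => by
    unfold Jr
    split_ifs
    · exact hp
    · exact le_rfl
  have hJM : M2 (Jr p : Z d → ℝ) := Jr_M2 p
  have hJe : ∀ x : Z d, Jr p (-x) = Jr p x := fun x => (Jr_sym p).neg x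
  unfold sJ
  refine iSup_le fun x => ?_
  rw [J_en, cv_en hJ h0 hJM.abs hg]
  unfold en
  refine ENNReal.ofReal_le_ofReal ?_
  have h1 := abs_le_int (rcv_summable hJM.abs hg) (fun y => rcv_even hJe he y) x
  refine (le_abs_self _).trans (h1.trans (le_of_eq ?_))
  refine integral_congr_ae (Filter.Eventually.of_forall fun k => ?_)
  simp only
  rw [ft_rcv hJM.abs hg hJe he k, ft_Jr, abs_mul, abs_mul,
    abs_of_nonneg (mul_nonneg (by positivity) hp : (0 : ℝ) ≤ 2 * d * p), mul_assoc]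

theorem en0_le {g : Z d → ℝ} (hg : Summable (fun x => |g x|)) (he : ∀ x, g (-x) = g x) (x : Z d) :
    en g x ≤ ENNReal.ofReal (∫ k, |ft g k| ∂(Q d)) := by
  unfold en
  exact ENNReal.ofReal_le_ofReal ((le_abs_self _).trans (abs_le_int hg he x))

end Pool.Agent.PB.AF
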