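import Pool.Agent.PB.AF.Dfacts

/-!
PB-AF-RWb.  Finiteness of the random walk integral in a fixed dimension `d > 2m`.

Plan. For `k` in the cube (`ae_cube`) `1 - Dh k ≥ (2/(π^2 d)) ∑ k_i^2` (`cube_bound`) and, by the inequality
of the arithmetic and geometric mean `(1/d) ∑ k_i^2 ≥ ∏ |k_i|^(2/d)`.  Hence
`(1 - Dh k)^{-m} ≤ (π^2/2)^m ∏_i |k_i|^(-2m/d)`, and the right hand side is integrable (`Integrable.fintype_prod`)
because `2m/d < 1`.
-/

open MeasureTheory Filter Topology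
open scoped ENNReal

namespace Pool.Agent.PB.AF

private theorem na : NullSingletonClass q1 := by
  constructor
  intro x
  unfold q1
  rw [Measure.smul_apply, measure_singleton, smul_zero]

/-- `(t^2)^(-r)` is integrable near zero for `r < 1/2`. -/
private theorem int_h (r : ℝ) (hr : r < 1 / 2) :
    Integrable (fun t : ℝ => (t ^ 2) ^ (-r)) q1 := by
  have h0 : IntervalIntegrable (fun t : ℝ => (t ^ 2) ^ (-r)) volume 0 Real.pi := by
    have h1 : IntervalIntegrable (fun t : ℝ => t ^ (-(2 * r))) volume 0 Real.pi :=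
      intervalIntegral.intervalIntegrable_rpow' (by linarith)
    refine h1.congr ?_
    intro t ht
    rw [Set.uIoc_of_le Real.pi_pos.le] at ht
    have ht0 : 0 ≤ t := ht.1.le
    show t ^ (-(2 * r)) = (t ^ 2) ^ (-r)
    rw [← Real.rpow_natCast t 2, ← Real.rpow_mul ht0]
    congr 1
    push_cast
    ring
  have h2 : IntervalIntegrable (fun t : ℝ => (t ^ 2) ^ (-r)) volume 0 (-Real.pi) := by
    rw [IntervalIntegrable.iff_comp_neg]
    simpa using h0
  have h3 : IntervalIntegrable (fun t : ℝ => (t ^ 2) ^ (-r)) volume (-Real.pi) Real.pi :=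
    h2.symm.trans h0
  have h4 : IntegrableOn (fun t : ℝ => (t ^ 2) ^ (-r)) (Set.Ioc (-Real.pi) Real.pi) volume :=
    (intervalIntegrable_iff_integrableOn_Ioc_of_le (by linarith [Real.pi_pos])).1 h3
  unfold q1
  exact Integrable.smul_measure h4 ENNReal.ofReal_ne_top

private theorem bound (d m : ℕ) (hd : 1 ≤ d) (k : Fin d → ℝ) (hk : ∀ i, |k i| ≤ Real.pi)
    (hk0 : ∀ i, k i ≠ 0) :
    (ENNReal.ofReal (1 - Dh k))⁻¹ ^ m ≤
      ENNReal.ofReal ((Real.pi ^ 2 / 2) ^ m * ∏ i, ((k i) ^ 2) ^ (-((m : ℝ) / d))) := by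
  have hd0 : (0 : ℝ) < d := by exact_mod_cast hd
  have h1 := cube_bound hd k hk
  have h2 : ∏ i, ((k i) ^ 2) ^ ((1 : ℝ) / d) ≤ ∑ i, (1 : ℝ) / d * (k i) ^ 2 := by
    refine Real.geom_mean_le_arith_mean_weighted Finset.univ (fun _ => (1 : ℝ) / d)
      (fun i => (k i) ^ 2) (fun i _ => by positivity) ?_ (fun i _ => sq_nonneg _)
    rw [Finset.sum_const, Finset.card_univ, Fintype.card_fin, nsmul_eq_mul]
    field_simp
  have h3 : ∏ i, ((k i) ^ 2) ^ ((1 : ℝ) / d) ≤ Real.pi ^ 2 / 2 * (1 - Dh k) := by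
    refine h2.trans ?_
    rw [← Finset.mul_sum]
    have : (1 : ℝ) / d * ∑ i, (k i) ^ 2 = 2 * ((∑ i, (k i) ^ 2) / (2 * d)) := by
      field_simp
    rw [this]
    nlinarith [h1]
  have hpos : ∀ i, 0 < (k i) ^ 2 := fun i => by
    have := hk0 i
    positivity
  set A : ℝ := ∏ i, ((k i) ^ 2) ^ ((1 : ℝ) / d) with hA
  have hA0 : 0 < A := Finset.prod_pos fun i _ => Real.rpow_pos_of_pos (hpos i) _
  have hD : 0 < 1 - Dh k := by
    have hp : 0 < Real.pi ^ 2 / 2 := by positivity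
    by_contra hcon
    have : Real.pi ^ 2 / 2 * (1 - Dh k) ≤ 0 := mul_nonpos_of_nonneg_of_nonpos hp.le (not_lt.1 hcon)
    linarith
  have h4 : ∏ i, ((k i) ^ 2) ^ (-((m : ℝ) / d)) = (A⁻¹) ^ m := by
    rw [hA, ← Finset.prod_inv_distrib, ← Finset.prod_pow]
    refine Finset.prod_congr rfl fun i _ => ?_
    rw [← Real.rpow_neg (hpos i).le, ← Real.rpow_mul_natCast (hpos i).le]
    congr 1
    ring
  rw [h4, ← mul_pow, ← ENNReal.ofReal_inv_of_pos hD, ← ENNReal.ofReal_pow (by positivity)]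
  refine ENNReal.ofReal_le_ofReal ?_
  refine pow_le_pow_left₀ (by positivity) ?_ m
  rw [inv_le_iff_one_le_mul₀ hD]
  rw [mul_assoc, mul_comm A⁻¹, ← mul_assoc]
  rw [← div_eq_mul_inv, le_div_iff₀ hA0, one_mul]
  exact h3

theorem Im_lt_top (d m : ℕ) (hd : 2 * m + 1 ≤ d) : Im d m < ∞ := by
  have hd1 : 1 ≤ d := by omega
  have hd0 : (0 : ℝ) < d := by exact_mod_cast hd1
  have := na
  have hr : (m : ℝ) / d < 1 / 2 := by
    rw [div_lt_div_iff₀ hd0 (by norm_num)]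
    have : ((2 * m + 1 : ℕ) : ℝ) ≤ d := by exact_mod_cast hd
    push_cast at this
    linarith
  have hint : Integrable (fun k : Fin d → ℝ => ∏ i, ((k i) ^ 2) ^ (-((m : ℝ) / d))) (Q d) := by
    unfold Q
    exact Integrable.fintype_prod (f := fun (_ : Fin d) (t : ℝ) => (t ^ 2) ^ (-((m : ℝ) / d)))
      (fun i => int_h _ hr)
  have hint2 := hint.const_mul ((Real.pi ^ 2 / 2) ^ m)
  have hlt : ∫⁻ k : Fin d → ℝ, ENNReal.ofReal
      ((Real.pi ^ 2 / 2) ^ m * ∏ i, ((k i) ^ 2) ^ (-((m : ℝ) / d))) ∂(Q d) < ∞ := by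
    have := hint2.hasFiniteIntegral
    refine lt_of_le_of_lt (lintegral_mono fun k => ?_) this
    rw [Real.enorm_eq_ofReal_abs]
    exact ENNReal.ofReal_le_ofReal (le_abs_self _)
  have hne : ∀ᵐ k : Fin d → ℝ ∂(Q d), ∀ i, k i ≠ 0 := by
    rw [ae_all_iff]
    intro i
    unfold Q
    exact Measure.ae_eval_ne (μ := fun _ : Fin d => q1) i 0
  refine lt_of_le_of_lt ?_ hlt
  unfold Im
  refine lintegral_mono_ae ?_
  filter_upwards [ae_cube, hne] with k hk hk0
  exact bound d m hd1 k hk hk0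

end Pool.Agent.PB.AF
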