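import Pool.Agent.PB.AF.RWa
import Pool.Agent.PB.AF.RWb

/-!
PB-AF-RWc.  The random walk bounds used in the bootstrap, uniform in `d`.

Plan. `Im d m ≤ Im (2m+1) m < ∞` for `d ≥ 2m+1` (`Im_succ_le`, `Im_lt_top`, `Nat.le_induction`).  For `m` and for `2m`:
`∫⁻ ofReal (((1-Dh)⁻¹)^m) ≤ Im d m` (equality off the null set `Dh = 1`, `ae_Dh_lt`; in `ℝ` the inverse of `0` is `0`,
so `≤` is even true everywhere), so the real function is integrable with integral `≤ (Im (2m+1) m).toReal =: C_1`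
(measurable: `Dh_cont`).  Cauchy-Schwarz (`integral_mul_le_Lp_mul_Lq_of_nonneg` with exponents 2, 2, or the
discriminant argument): `∫ |Dh| (1-Dh)^{-m} ≤ (∫ Dh^2)^{1/2} (∫ (1-Dh)^{-2m})^{1/2} = (2d)^{-1/2} C_2^{1/2}` (`int_Dh_sq`).
Take `C = max` of the two constants.
-/

open MeasureTheory Filter Topology
open scoped ENNReal

namespace Pool.Agent.PB.AF

private theorem Im_le (m d : ℕ) (h : 2 * m + 1 ≤ d) : Im d m ≤ Im (2 * m + 1) m := by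
  induction d, h using Nat.le_induction with
  | base => exact le_rfl
  | succ n hn ih => exact (Im_succ_le n m (by omega)).trans ih

private theorem ofReal_f_le {d : ℕ} (m : ℕ) (k : Fin d → ℝ) :
    ENNReal.ofReal (((1 - Dh k)⁻¹) ^ m) ≤ (ENNReal.ofReal (1 - Dh k))⁻¹ ^ m := by
  have h0 : 0 ≤ 1 - Dh k := by linarith [Dh_le_one k]
  rcases Nat.eq_zero_or_pos m with hm | hm
  · subst hm
    simp
  rcases h0.eq_or_lt with h | h
  · rw [← h, inv_zero, zero_pow (by omega), ENNReal.ofReal_zero]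
    exact bot_le
  · rw [ENNReal.ofReal_pow (inv_nonneg.2 h0), ENNReal.ofReal_inv_of_pos h]

private theorem f_nonneg {d : ℕ} (m : ℕ) (k : Fin d → ℝ) : 0 ≤ ((1 - Dh k)⁻¹) ^ m :=
  pow_nonneg (inv_nonneg.2 (by linarith [Dh_le_one k])) m

private theorem f_meas {d : ℕ} (m : ℕ) : Measurable (fun k : Fin d → ℝ => ((1 - Dh k)⁻¹) ^ m) :=
  ((Dh_cont.measurable.const_sub 1).inv).pow_const m

private theorem f_int (m d : ℕ) (h : 2 * m + 1 ≤ d) :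
    Integrable (fun k : Fin d → ℝ => ((1 - Dh k)⁻¹) ^ m) (Q d) ∧
    ∫ k : Fin d → ℝ, ((1 - Dh k)⁻¹) ^ m ∂(Q d) ≤ (Im (2 * m + 1) m).toReal := by
  have h1 : ∫⁻ k : Fin d → ℝ, ENNReal.ofReal (((1 - Dh k)⁻¹) ^ m) ∂(Q d) ≤ Im (2 * m + 1) m :=
    (lintegral_mono fun k => ofReal_f_le m k).trans (Im_le m d h)
  have h2 : Im (2 * m + 1) m < ∞ := Im_lt_top (2 * m + 1) m le_rfl
  constructor
  · refine ⟨(f_meas m).aestronglyMeasurable, ?_⟩
    rw [hasFiniteIntegral_iff_ofReal (Filter.Eventually.of_forall fun k => f_nonneg m k)]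
    exact h1.trans_lt h2
  · rw [integral_eq_lintegral_of_nonneg_ae (Filter.Eventually.of_forall fun k => f_nonneg m k)
      (f_meas m).aestronglyMeasurable]
    exact ENNReal.toReal_mono h2.ne h1

theorem rw_bounds (m : ℕ) : ∃ C : ℝ, 0 ≤ C ∧ ∀ d : ℕ, 4 * m + 1 ≤ d →
    Integrable (fun k : Fin d → ℝ => ((1 - Dh k)⁻¹) ^ m) (Q d) ∧
    ∫ k : Fin d → ℝ, ((1 - Dh k)⁻¹) ^ m ∂(Q d) ≤ C ∧
    ∫ k : Fin d → ℝ, |Dh k| * ((1 - Dh k)⁻¹) ^ m ∂(Q d) ≤ C / Real.sqrt d := by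
  refine ⟨(Im (2 * m + 1) m).toReal + (Im (2 * (2 * m) + 1) (2 * m)).toReal + 1, by positivity,
    fun d hd => ?_⟩
  obtain ⟨i1, b1⟩ := f_int m d (by omega)
  obtain ⟨i2, b2⟩ := f_int (2 * m) d (by omega)
  have p1 : 0 ≤ (Im (2 * m + 1) m).toReal := ENNReal.toReal_nonneg
  have p2 : 0 ≤ (Im (2 * (2 * m) + 1) (2 * m)).toReal := ENNReal.toReal_nonneg
  refine ⟨i1, by linarith, ?_⟩
  have hd0 : (0 : ℝ) < d := by exact_mod_cast (by omega : 0 < d)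
  obtain ⟨t, ht⟩ : ∃ t, t = Real.sqrt d := ⟨_, rfl⟩
  have ht0 : 0 < t := by rw [ht]; exact Real.sqrt_pos.2 hd0
  have htt : t * t = d := by rw [ht]; exact Real.mul_self_sqrt hd0.le
  have hsq := int_Dh_sq (d := d) (by omega)
  have i3 : Integrable (fun k : Fin d → ℝ => (Dh k) ^ 2) (Q d) := by
    refine Integrable.mono' (integrable_const (1 : ℝ)) (Dh_cont.pow 2).aestronglyMeasurable
      (Filter.Eventually.of_forall fun k => ?_)
    rw [Real.norm_eq_abs, abs_pow]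
    exact pow_le_one₀ (abs_nonneg _) (abs_Dh_le k)
  have i4 : Integrable (fun k : Fin d → ℝ => |Dh k| * ((1 - Dh k)⁻¹) ^ m) (Q d) := by
    refine Integrable.mono' i1
      ((Dh_cont.abs.measurable.mul (f_meas m)).aestronglyMeasurable)
      (Filter.Eventually.of_forall fun k => ?_)
    rw [Real.norm_eq_abs, abs_of_nonneg (mul_nonneg (abs_nonneg _) (f_nonneg m k))]
    exact mul_le_of_le_one_left (f_nonneg m k) (abs_Dh_le k)
  have h1 : ∫ k : Fin d → ℝ, |Dh k| * ((1 - Dh k)⁻¹) ^ m ∂(Q d) ≤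
      ∫ k : Fin d → ℝ, (t / 2 * (Dh k) ^ 2 + (t⁻¹ / 2) * ((1 - Dh k)⁻¹) ^ (2 * m)) ∂(Q d) := by
    refine integral_mono i4 ((i3.const_mul _).add (i2.const_mul _)) fun k => ?_
    show |Dh k| * ((1 - Dh k)⁻¹) ^ m ≤ t / 2 * (Dh k) ^ 2 + (t⁻¹ / 2) * ((1 - Dh k)⁻¹) ^ (2 * m)
    have e1 : ((1 - Dh k)⁻¹) ^ (2 * m) = (((1 - Dh k)⁻¹) ^ m) ^ 2 := by
      rw [← pow_mul, mul_comm]
    rw [e1]
    generalize ((1 - Dh k)⁻¹) ^ m = g
    have e2 : 0 ≤ (t * |Dh k| - g) ^ 2 := sq_nonneg _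
    have e3 : (Dh k) ^ 2 = |Dh k| ^ 2 := (sq_abs _).symm
    rw [e3]
    have e4 : t / 2 * |Dh k| ^ 2 + (t⁻¹ / 2) * g ^ 2 - |Dh k| * g =
        (t⁻¹ / 2) * (t * |Dh k| - g) ^ 2 := by
      field_simp
      ring
    have e5 : 0 ≤ (t⁻¹ / 2) * (t * |Dh k| - g) ^ 2 := by positivity
    linarith
  rw [integral_add (i3.const_mul _) (i2.const_mul _), integral_const_mul, integral_const_mul,
    hsq] at h1
  refine h1.trans ?_
  rw [← ht, le_div_iff₀ ht0]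
  have h2 : (t / 2 * (1 / (2 * (d : ℝ))) + t⁻¹ / 2 *
      ∫ k : Fin d → ℝ, ((1 - Dh k)⁻¹) ^ (2 * m) ∂(Q d)) * t =
      1 / 4 + (∫ k : Fin d → ℝ, ((1 - Dh k)⁻¹) ^ (2 * m) ∂(Q d)) / 2 := by
    rw [← htt]
    field_simp
    ring
  rw [h2]
  linarith

end Pool.Agent.PB.AF
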