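import Pool.Agent.PB.AF.DiagA
import Pool.Agent.PB.AF.RWc

/-!
PB-AF-DiagB.  All diagrams are bounded, the small ones are `O(d^{-1/2})`.

Plan. Let `u = (1 - Dh k)⁻¹`.  For `Q`-almost every `k` (`ae_Dh_lt`) `|ft f k| ≤ 4 u` and
`|ft (rw2 f) k| ≤ ∑_i |ft2 i f k| ≤ d (52/d) u^2 = 52 u^2` (`ft_rw2`).
By `cpow_en`, `tw_en`, `cv_en` (Enn), `ft_rpw`, `ft_rcv`, `en0_le`, `sJ_le` (all functions are nonnegative, summable
and even: ConvA), with `2 d p ≤ 4`: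
`cpow (en f) 4 0 ≤ 4^4 ∫ u^4`, `cv (cpow (en f) 3) (tw (en f)) 0 ≤ 4^3 · 52 ∫ u^5`, `cpow (en f) 8 0 ≤ 4^8 ∫ u^8`,
`sJ p (cpow (en f) 3) ≤ 4 · 4^3 ∫ |Dh| u^3`, `sJ p (cv f (cv f (tw f))) ≤ 4 · 4^2 · 52 ∫ |Dh| u^4`,
`sJ p (cv f (tw f)) ≤ 4 · 4 · 52 ∫ |Dh| u^3`.
`rw_bounds m` for `m = 3, 4, 5, 8` gives the constants (`d ≥ 33`); `integral_mono_of_nonneg`/`integral_mono_ae` with the
integrability from `rw_bounds` (for `|Dh| u^m` use `|Dh| ≤ 1`, `Integrable.mono'`, `Dh_cont`).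
-/

open MeasureTheory Filter Topology
open scoped ENNReal

namespace Pool.Agent.PB.AF

namespace DiagB

variable {d : ℕ}

private theorem u_nonneg (k : Fin d → ℝ) : 0 ≤ (1 - Dh k)⁻¹ :=
  inv_nonneg.2 (sub_nonneg.2 (Dh_le_one k))

private theorem int0 {g : Z d → ℝ} {A C : ℝ} {m : ℕ} (hA : 0 ≤ A)
    (hi : Integrable (fun k : Fin d → ℝ => ((1 - Dh k)⁻¹) ^ m) (Q d))
    (hC : ∫ k : Fin d → ℝ, ((1 - Dh k)⁻¹) ^ m ∂(Q d) ≤ C)
    (hb : ∀ᵐ k : Fin d → ℝ ∂(Q d), |ft g k| ≤ A * ((1 - Dh k)⁻¹) ^ m) :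
    ∫ k, |ft g k| ∂(Q d) ≤ A * C := by
  calc ∫ k, |ft g k| ∂(Q d) ≤ ∫ k, A * ((1 - Dh k)⁻¹) ^ m ∂(Q d) :=
        integral_mono_of_nonneg (Eventually.of_forall fun k => abs_nonneg _)
          (hi.const_mul A) hb
    _ = A * ∫ k, ((1 - Dh k)⁻¹) ^ m ∂(Q d) := integral_const_mul _ _
    _ ≤ A * C := mul_le_mul_of_nonneg_left hC hA

private theorem intD {g : Z d → ℝ} {A C p : ℝ} {m : ℕ} (hA : 0 ≤ A) (hp : 0 ≤ p)
    (hdp : 2 * d * p ≤ 4)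
    (hi : Integrable (fun k : Fin d → ℝ => ((1 - Dh k)⁻¹) ^ m) (Q d))
    (hC : ∫ k : Fin d → ℝ, |Dh k| * ((1 - Dh k)⁻¹) ^ m ∂(Q d) ≤ C / Real.sqrt d)
    (hb : ∀ᵐ k : Fin d → ℝ ∂(Q d), |ft g k| ≤ A * ((1 - Dh k)⁻¹) ^ m) :
    ∫ k, (2 * d * p) * (|Dh k| * |ft g k|) ∂(Q d) ≤ (4 * A) * (C / Real.sqrt d) := by
  have hi2 : Integrable (fun k : Fin d → ℝ => |Dh k| * ((1 - Dh k)⁻¹) ^ m) (Q d) := by
    refine hi.mono' ?_ (Eventually.of_forall fun k => ?_)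
    · have h1 : Measurable (Dh : (Fin d → ℝ) → ℝ) := Dh_cont.measurable
      have h2 : Measurable (fun k : Fin d → ℝ => |Dh k|) := Dh_cont.abs.measurable
      exact (h2.mul (((measurable_const.sub h1).inv).pow_const m)).aestronglyMeasurable
    · have h3 : 0 ≤ ((1 - Dh k)⁻¹) ^ m := pow_nonneg (u_nonneg k) m
      rw [Real.norm_eq_abs, abs_mul, abs_abs, abs_of_nonneg h3]
      exact mul_le_of_le_one_left h3 (abs_Dh_le k)
  have h0 : 0 ≤ 2 * (d : ℝ) * p := by positivity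
  calc ∫ k, (2 * d * p) * (|Dh k| * |ft g k|) ∂(Q d)
      ≤ ∫ k, (4 * A) * (|Dh k| * ((1 - Dh k)⁻¹) ^ m) ∂(Q d) := by
        refine integral_mono_of_nonneg (Eventually.of_forall fun k => by positivity)
          (hi2.const_mul (4 * A)) ?_
        filter_upwards [hb] with k hk
        have h3 : 0 ≤ ((1 - Dh k)⁻¹) ^ m := pow_nonneg (u_nonneg k) m
        have h4 : |Dh k| * |ft g k| ≤ |Dh k| * (A * ((1 - Dh k)⁻¹) ^ m) :=
          mul_le_mul_of_nonneg_left hk (abs_nonneg _)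
        calc (2 * d * p) * (|Dh k| * |ft g k|) ≤ 4 * (|Dh k| * (A * ((1 - Dh k)⁻¹) ^ m)) :=
              mul_le_mul hdp h4 (by positivity) (by norm_num)
          _ = (4 * A) * (|Dh k| * ((1 - Dh k)⁻¹) ^ m) := by ring
    _ = (4 * A) * ∫ k, |Dh k| * ((1 - Dh k)⁻¹) ^ m ∂(Q d) := integral_const_mul _ _
    _ ≤ (4 * A) * (C / Real.sqrt d) := mul_le_mul_of_nonneg_left hC (by positivity)

private theorem bd_f {f : Z d → ℝ} {k : Fin d → ℝ} (hk : Dh k < 1)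
    (h : (1 - Dh k) * |ft f k| ≤ 4) : |ft f k| ≤ 4 * (1 - Dh k)⁻¹ := by
  have h1 : 0 < 1 - Dh k := sub_pos.2 hk
  rw [← div_eq_mul_inv, le_div_iff₀ h1]
  linarith

private theorem bd_w {f : Z d → ℝ} (hf : M2 f) (hd : 1 ≤ d) {k : Fin d → ℝ} (hk : Dh k < 1)
    (h : ∀ i, (d / 13 : ℝ) * (1 - Dh k) ^ 2 * |ft2 i f k| ≤ 4) :
    |ft (rw2 f) k| ≤ 52 * ((1 - Dh k)⁻¹) ^ 2 := by
  have h1 : 0 < 1 - Dh k := sub_pos.2 hk
  have hd' : (0 : ℝ) < d := by exact_mod_cast hd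
  rw [ft_rw2 hf]
  calc |∑ i, ft2 i f k| ≤ ∑ i : Fin d, |ft2 i f k| := Finset.abs_sum_le_sum_abs _ _
    _ ≤ ∑ _i : Fin d, (52 / d) * ((1 - Dh k)⁻¹) ^ 2 := by
        refine Finset.sum_le_sum fun i _ => ?_
        have h2 := h i
        rw [inv_pow, ← div_eq_mul_inv, le_div_iff₀ (by positivity), le_div_iff₀ hd']
        nlinarith
    _ = 52 * ((1 - Dh k)⁻¹) ^ 2 := by
        rw [Finset.sum_const, Finset.card_univ, Fintype.card_fin, nsmul_eq_mul]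
        field_simp

end DiagB

open DiagB in
theorem diag_bounds : ∃ C : ℝ, ∃ d1 : ℕ, 0 ≤ C ∧ 1 ≤ d1 ∧ ∀ d : ℕ, d1 ≤ d → ∀ (p : ℝ) (f : Z d → ℝ),
    0 ≤ p → (∀ x, 0 ≤ f x) → M2 f → (∀ x, f (-x) = f x) → 2 * d * p ≤ 4 →
    (∀ k, (1 - Dh k) * |ft f k| ≤ 4) →
    (∀ i k, (d / 13 : ℝ) * (1 - Dh k) ^ 2 * |ft2 i f k| ≤ 4) →
    bigB (en f) ≤ ENNReal.ofReal C ∧ small p (en f) ≤ ENNReal.ofReal (C / Real.sqrt d) ∧
    cpow (en f) 8 0 ≤ ENNReal.ofReal C := by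
  obtain ⟨C3, hC3, H3⟩ := rw_bounds 3
  obtain ⟨C4, hC4, H4⟩ := rw_bounds 4
  obtain ⟨C5, hC5, H5⟩ := rw_bounds 5
  obtain ⟨C8, hC8, H8⟩ := rw_bounds 8
  refine ⟨1 + 256 * C4 + 3328 * C5 + 65536 * C8 + 256 * C3 + 3328 * C4 + 832 * C3, 33,
    by positivity, by norm_num, ?_⟩
  intro d hd p f hp hf0 hf he hdp hbf hbw
  obtain ⟨i3, -, D3⟩ := H3 d (by omega)
  obtain ⟨i4, I4, D4⟩ := H4 d (by omega)
  obtain ⟨i5, I5, -⟩ := H5 d (by omega)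
  obtain ⟨i8, I8, -⟩ := H8 d (by omega)
  have hd1 : 1 ≤ d := by omega
  -- regularity
  have sf := hf.abs
  have sw := rw2_summable hf
  have ew := rw2_even he
  have w0 : ∀ x, 0 ≤ rw2 f x := fun x => mul_nonneg (Nat.cast_nonneg _) (hf0 x)
  have s3 := rpw_summable sf 3
  have e3 := rpw_even he 3
  have n3 := rpw_nonneg hf0 3
  have s1w := rcv_summable sf sw
  have e1w := rcv_even he ew
  have n1w := rcv_nonneg hf0 w0
  have s2w := rcv_summable sf s1w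
  have e2w := rcv_even he e1w
  have n2w := rcv_nonneg hf0 n1w
  have s3w := rcv_summable s3 sw
  have e3w := rcv_even e3 ew
  -- pointwise bounds
  have hae := ae_Dh_lt (d := d) hd1
  have b : ∀ᵐ k : Fin d → ℝ ∂(Q d), |ft f k| ≤ 4 * (1 - Dh k)⁻¹ ∧
      |ft (rw2 f) k| ≤ 52 * ((1 - Dh k)⁻¹) ^ 2 := by
    filter_upwards [hae] with k hk
    exact ⟨bd_f hk (hbf k), bd_w hf hd1 hk fun i => hbw i k⟩
  have bp : ∀ m : ℕ, ∀ᵐ k : Fin d → ℝ ∂(Q d),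
      |ft (rpw f m) k| ≤ 4 ^ m * ((1 - Dh k)⁻¹) ^ m := by
    intro m
    filter_upwards [b] with k hk
    rw [ft_rpw sf he, abs_pow, ← mul_pow]
    exact pow_le_pow_left₀ (abs_nonneg _) hk.1 m
  have b1w : ∀ᵐ k : Fin d → ℝ ∂(Q d),
      |ft (rcv f (rw2 f)) k| ≤ 208 * ((1 - Dh k)⁻¹) ^ 3 := by
    filter_upwards [b] with k hk
    rw [ft_rcv sf sw he ew, abs_mul]
    calc _ ≤ (4 * (1 - Dh k)⁻¹) * (52 * ((1 - Dh k)⁻¹) ^ 2) :=
          mul_le_mul hk.1 hk.2 (abs_nonneg _) (mul_nonneg (by norm_num) (u_nonneg k))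
      _ = _ := by ring
  have b2w : ∀ᵐ k : Fin d → ℝ ∂(Q d),
      |ft (rcv f (rcv f (rw2 f))) k| ≤ 832 * ((1 - Dh k)⁻¹) ^ 4 := by
    filter_upwards [b, b1w] with k hk hk1
    rw [ft_rcv sf s1w he e1w, abs_mul]
    calc _ ≤ (4 * (1 - Dh k)⁻¹) * (208 * ((1 - Dh k)⁻¹) ^ 3) :=
          mul_le_mul hk.1 hk1 (abs_nonneg _) (mul_nonneg (by norm_num) (u_nonneg k))
      _ = _ := by ring
  have b3w : ∀ᵐ k : Fin d → ℝ ∂(Q d),
      |ft (rcv (rpw f 3) (rw2 f)) k| ≤ 3328 * ((1 - Dh k)⁻¹) ^ 5 := by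
    filter_upwards [b, bp 3] with k hk hk1
    rw [ft_rcv s3 sw e3 ew, abs_mul]
    calc _ ≤ (4 ^ 3 * ((1 - Dh k)⁻¹) ^ 3) * (52 * ((1 - Dh k)⁻¹) ^ 2) :=
          mul_le_mul hk1 hk.2 (abs_nonneg _)
            (mul_nonneg (by norm_num) (pow_nonneg (u_nonneg k) 3))
      _ = _ := by ring
  -- translation
  have t3w : cv (cpow (en f) 3) (tw (en f)) = en (rcv (rpw f 3) (rw2 f)) := by
    rw [cpow_en hf0 sf, tw_en, cv_en n3 w0 s3 sw]
  have t1w : cv (en f) (tw (en f)) = en (rcv f (rw2 f)) := by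
    rw [tw_en, cv_en hf0 w0 sf sw]
  have t2w : cv (en f) (cv (en f) (tw (en f))) = en (rcv f (rcv f (rw2 f))) := by
    rw [t1w, cv_en hf0 n1w sf s1w]
  have A4 : cpow (en f) 4 0 ≤ ENNReal.ofReal (4 ^ 4 * C4) := by
    rw [cpow_en hf0 sf]
    exact (en0_le (rpw_summable sf 4) (rpw_even he 4) 0).trans
      (ENNReal.ofReal_le_ofReal (int0 (by norm_num) i4 I4 (bp 4)))
  have A8 : cpow (en f) 8 0 ≤ ENNReal.ofReal (4 ^ 8 * C8) := by
    rw [cpow_en hf0 sf]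
    exact (en0_le (rpw_summable sf 8) (rpw_even he 8) 0).trans
      (ENNReal.ofReal_le_ofReal (int0 (by norm_num) i8 I8 (bp 8)))
  have A5 : cv (cpow (en f) 3) (tw (en f)) 0 ≤ ENNReal.ofReal (3328 * C5) := by
    rw [t3w]
    exact (en0_le s3w e3w 0).trans
      (ENNReal.ofReal_le_ofReal (int0 (by norm_num) i5 I5 b3w))
  have B3 : sJ p (cpow (en f) 3) ≤ ENNReal.ofReal (4 * 4 ^ 3 * (C3 / Real.sqrt d)) := by
    rw [cpow_en hf0 sf]
    exact (sJ_le hp n3 s3 e3).trans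
      (ENNReal.ofReal_le_ofReal (intD (by norm_num) hp hdp i3 D3 (bp 3)))
  have B2w : sJ p (cv (en f) (cv (en f) (tw (en f)))) ≤
      ENNReal.ofReal (4 * 832 * (C4 / Real.sqrt d)) := by
    rw [t2w]
    exact (sJ_le hp n2w s2w e2w).trans
      (ENNReal.ofReal_le_ofReal (intD (by norm_num) hp hdp i4 D4 b2w))
  have B1w : sJ p (cv (en f) (tw (en f))) ≤
      ENNReal.ofReal (4 * 208 * (C3 / Real.sqrt d)) := by
    rw [t1w]
    exact (sJ_le hp n1w s1w e1w).trans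
      (ENNReal.ofReal_le_ofReal (intD (by norm_num) hp hdp i3 D3 b1w))
  have hsq : 0 < Real.sqrt d := Real.sqrt_pos.2 (by exact_mod_cast hd1)
  refine ⟨?_, ?_, ?_⟩
  · unfold bigB
    calc 1 + cpow (en f) 4 0 + cv (cpow (en f) 3) (tw (en f)) 0
        ≤ ENNReal.ofReal 1 + ENNReal.ofReal (4 ^ 4 * C4) + ENNReal.ofReal (3328 * C5) := by
          rw [ENNReal.ofReal_one]
          exact add_le_add (add_le_add le_rfl A4) A5
      _ = ENNReal.ofReal (1 + 4 ^ 4 * C4 + 3328 * C5) := by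
          rw [ENNReal.ofReal_add (by positivity) (by positivity),
            ENNReal.ofReal_add (by norm_num) (by positivity)]
      _ ≤ _ := ENNReal.ofReal_le_ofReal (by nlinarith)
  · unfold small
    calc _ ≤ ENNReal.ofReal (4 * 4 ^ 3 * (C3 / Real.sqrt d)) +
            ENNReal.ofReal (4 * 832 * (C4 / Real.sqrt d)) +
            ENNReal.ofReal (4 * 208 * (C3 / Real.sqrt d)) :=
          add_le_add (add_le_add B3 B2w) B1w
      _ = ENNReal.ofReal (4 * 4 ^ 3 * (C3 / Real.sqrt d) + 4 * 832 * (C4 / Real.sqrt d) +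
            4 * 208 * (C3 / Real.sqrt d)) := by
          rw [ENNReal.ofReal_add (by positivity) (by positivity),
            ENNReal.ofReal_add (by positivity) (by positivity)]
      _ ≤ _ := by
          refine ENNReal.ofReal_le_ofReal ?_
          have e : 4 * 4 ^ 3 * (C3 / Real.sqrt d) + 4 * 832 * (C4 / Real.sqrt d) +
            4 * 208 * (C3 / Real.sqrt d) = (4 * 4 ^ 3 * C3 + 4 * 832 * C4 + 4 * 208 * C3) /
              Real.sqrt d := by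
            ring
          rw [e]
          exact div_le_div_of_nonneg_right (by nlinarith) hsq.le
  · exact A8.trans (ENNReal.ofReal_le_ofReal (by nlinarith))

end Pool.Agent.PB.AF
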