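import Pool.Agent.PB.AF.Dfacts

/-!
PB-AF-SymB.  Second moment bounds for symmetric functions.
-/

open MeasureTheory Filter Topology
open scoped ENNReal

namespace Pool.Agent.PB.AF

variable {d : ℕ}

private def permE (σ : Equiv.Perm (Fin d)) : Z d ≃ Z d where
  toFun x := fun i => x (σ i)
  invFun x := fun i => x (σ.symm i)
  left_inv x := by funext i; simp
  right_inv x := by funext i; simp

private def flipE (i : Fin d) : Z d ≃ Z d where
  toFun x := Function.update x i (-x i)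
  invFun x := Function.update x i (-x i)
  left_inv x := by
    funext j
    by_cases h : j = i
    · subst h; simp
    · simp [Function.update_of_ne h]
  right_inv x := by
    funext j
    by_cases h : j = i
    · subst h; simp
    · simp [Function.update_of_ne h]

private theorem summ_ij {f : Z d → ℝ} (hf : M2 f) (i j : Fin d) :
    Summable (fun x : Z d => (x i : ℝ) * (x j : ℝ) * |f x|) := by
  refine Summable.of_norm_bounded hf.nw fun x => ?_
  rw [Real.norm_eq_abs, abs_mul, abs_abs]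
  refine mul_le_mul_of_nonneg_right ?_ (abs_nonneg _)
  have h1 := coord_sq_le x i
  have h2 := coord_sq_le x j
  rw [abs_le]
  constructor <;> nlinarith [sq_nonneg ((x i : ℝ) + x j), sq_nonneg ((x i : ℝ) - x j)]

private theorem summ_ii {f : Z d → ℝ} (hf : M2 f) (i : Fin d) :
    Summable (fun x : Z d => (x i : ℝ) ^ 2 * |f x|) := by
  simpa only [sq] using summ_ij hf i i

private theorem Aii {f : Z d → ℝ} (hs : Sym f) (hf : M2 f) (i j : Fin d) :
    ∑' x : Z d, (x i : ℝ) ^ 2 * |f x| = ∑' x : Z d, (x j : ℝ) ^ 2 * |f x| := by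
  rw [← (permE (Equiv.swap i j)).tsum_eq (fun x : Z d => (x i : ℝ) ^ 2 * |f x|)]
  refine tsum_congr fun x => ?_
  have h1 : f (permE (Equiv.swap i j) x) = f x := hs.1 _ x
  have h2 : (permE (Equiv.swap i j) x) i = x j := by
    change x (Equiv.swap i j i) = x j
    rw [Equiv.swap_apply_left]
  simp only [h1, h2]

private theorem Asum (hd : 1 ≤ d) {f : Z d → ℝ} (hs : Sym f) (hf : M2 f) (i : Fin d) :
    ∑' x : Z d, (x i : ℝ) ^ 2 * |f x| = m2 f / d := by
  have h1 : m2 f = ∑ j : Fin d, ∑' x : Z d, (x j : ℝ) ^ 2 * |f x| := by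
    rw [← Summable.tsum_finsetSum fun j _ => summ_ii hf j]
    unfold m2
    refine tsum_congr fun x => ?_
    rw [n2_cast, Finset.sum_mul]
  rw [h1, Finset.sum_congr rfl fun j _ => Aii hs hf j i]
  simp only [Finset.sum_const, Finset.card_univ, Fintype.card_fin, nsmul_eq_mul]
  have : (d : ℝ) ≠ 0 := by positivity
  field_simp

private theorem Aij {f : Z d → ℝ} (hs : Sym f) {i j : Fin d} (hij : i ≠ j) :
    ∑' x : Z d, (x i : ℝ) * (x j : ℝ) * |f x| = 0 := by
  have h0 : ∑' x : Z d, (x i : ℝ) * (x j : ℝ) * |f x| =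
      -∑' x : Z d, (x i : ℝ) * (x j : ℝ) * |f x| := by
    conv_lhs => rw [← (flipE i).tsum_eq (fun x : Z d => (x i : ℝ) * (x j : ℝ) * |f x|)]
    rw [← tsum_neg]
    refine tsum_congr fun x => ?_
    have h1 : f (flipE i x) = f x := hs.2 i x
    have h2 : (flipE i x) i = -x i := by
      change (Function.update x i (-x i)) i = _
      simp
    have h3 : (flipE i x) j = x j := by
      change (Function.update x i (-x i)) j = _
      simp [Function.update_of_ne hij.symm]
    simp only [h1, h2, h3]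
    push_cast
    ring
  linarith

private theorem dot_sq (k : Fin d → ℝ) (x : Z d) (a : ℝ) :
    (dot k x) ^ 2 * a = ∑ i, ∑ j, k i * k j * ((x i : ℝ) * (x j : ℝ) * a) := by
  unfold dot
  rw [sq, Finset.sum_mul_sum, Finset.sum_mul]
  refine Finset.sum_congr rfl fun i _ => ?_
  rw [Finset.sum_mul]
  refine Finset.sum_congr rfl fun j _ => ?_
  ring

private theorem summ_dot {f : Z d → ℝ} (hf : M2 f) (k : Fin d → ℝ) :
    Summable (fun x : Z d => (dot k x) ^ 2 * |f x|) := by
  simp_rw [dot_sq]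
  exact summable_sum fun i _ => summable_sum fun j _ => (summ_ij hf i j).mul_left _

private theorem sum_dot (hd : 1 ≤ d) {f : Z d → ℝ} (hs : Sym f) (hf : M2 f) (k : Fin d → ℝ) :
    ∑' x : Z d, (dot k x) ^ 2 * |f x| = (∑ i, (k i) ^ 2) * (m2 f / d) := by
  simp_rw [dot_sq]
  rw [Summable.tsum_finsetSum fun i _ =>
    summable_sum fun j _ => (summ_ij hf i j).mul_left _]
  rw [Finset.sum_mul]
  refine Finset.sum_congr rfl fun i _ => ?_
  rw [Summable.tsum_finsetSum fun j _ => (summ_ij hf i j).mul_left _]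
  rw [Finset.sum_eq_single i]
  · rw [tsum_mul_left]
    have := Asum hd hs hf i
    simp only [sq] at this ⊢
    rw [this]
  · intro j _ hj
    rw [tsum_mul_left, Aij hs (Ne.symm hj), mul_zero]
  · simp

private theorem m2_nonneg (f : Z d → ℝ) : 0 ≤ m2 f :=
  tsum_nonneg fun x => mul_nonneg (Nat.cast_nonneg _) (abs_nonneg _)

private theorem symB1' (hd : 1 ≤ d) {f : Z d → ℝ} (hs : Sym f) (hf : M2 f) (k : Fin d → ℝ)
    (hk : ∀ i, |k i| ≤ Real.pi) :
    |ft f 0 - ft f k| ≤ 3 * (1 - Dh k) * m2 f := by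
  have hsum0 : Summable (fun x : Z d => f x * Real.cos (dot 0 x)) := by
    refine Summable.of_norm_bounded hf.abs fun x => ?_
    rw [Real.norm_eq_abs, abs_mul]
    exact mul_le_of_le_one_right (abs_nonneg _) (Real.abs_cos_le_one _)
  have hsumk : Summable (fun x : Z d => f x * Real.cos (dot k x)) := by
    refine Summable.of_norm_bounded hf.abs fun x => ?_
    rw [Real.norm_eq_abs, abs_mul]
    exact mul_le_of_le_one_right (abs_nonneg _) (Real.abs_cos_le_one _)
  have h1 : ft f 0 - ft f k = ∑' x : Z d, f x * (1 - Real.cos (dot k x)) := by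
    unfold ft
    rw [← hsum0.tsum_sub hsumk]
    refine tsum_congr fun x => ?_
    have : dot (0 : Fin d → ℝ) x = 0 := by simp [dot]
    rw [this, Real.cos_zero]; ring
  rw [h1]
  have hb : ∀ x : Z d, ‖f x * (1 - Real.cos (dot k x))‖ ≤ 1 / 2 * ((dot k x) ^ 2 * |f x|) := by
    intro x
    rw [Real.norm_eq_abs, abs_mul, abs_of_nonneg (sub_nonneg.2 (Real.cos_le_one _))]
    have h2 := Real.one_sub_sq_div_two_le_cos (x := dot k x)
    nlinarith [abs_nonneg (f x)]
  have h3 : |∑' x : Z d, f x * (1 - Real.cos (dot k x))| ≤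
      ∑' x : Z d, 1 / 2 * ((dot k x) ^ 2 * |f x|) := by
    rw [← Real.norm_eq_abs]
    exact tsum_of_norm_bounded ((summ_dot hf k).mul_left (1 / 2)).hasSum hb
  refine h3.trans ?_
  rw [tsum_mul_left, sum_dot hd hs hf k]
  have h4 := cube_bound hd k hk
  have h5 : (1 : ℝ) / 2 * ((∑ i, (k i) ^ 2) * (m2 f / d)) = (∑ i, (k i) ^ 2) / (2 * d) * m2 f := by
    have : (d : ℝ) ≠ 0 := by positivity
    field_simp
  rw [h5]
  refine mul_le_mul_of_nonneg_right (h4.trans ?_) (m2_nonneg f)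
  have h6 : Real.pi ^ 2 / 4 ≤ 3 := by nlinarith [Real.pi_lt_d2, Real.pi_pos]
  have h7 : 0 ≤ 1 - Dh k := sub_nonneg.2 (Dh_le_one k)
  exact mul_le_mul_of_nonneg_right h6 h7

theorem symB1 (hd : 1 ≤ d) {f : Z d → ℝ} (hs : Sym f) (hf : M2 f) (k : Fin d → ℝ) :
    |ft f 0 - ft f k| ≤ 3 * (1 - Dh k) * m2 f := by
  obtain ⟨k', hk', hc, -, hc', -⟩ := red k
  have h1 : ft f k = ft f k' := by
    unfold ft
    exact tsum_congr fun x => by rw [hc x]
  rw [h1, Dh_red hc']
  exact symB1' hd hs hf k' hk'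

private theorem symB2' (hd : 1 ≤ d) {f : Z d → ℝ} (hs : Sym f) (hf : M2 f) (k : Fin d → ℝ)
    (hk : ∀ i, |k i| ≤ Real.pi) (i : Fin d) :
    |ft1 i f k| ≤ 3 * Real.sqrt ((1 - Dh k) / d) * m2 f := by
  have hd0 : (0 : ℝ) < d := by exact_mod_cast hd
  set S := ∑ i, (k i) ^ 2 with hS
  have hS0 : 0 ≤ S := Finset.sum_nonneg fun i _ => sq_nonneg _
  have h7 : 0 ≤ 1 - Dh k := sub_nonneg.2 (Dh_le_one k)
  rcases hS0.eq_or_lt with h0 | hpos
  · have hk0 : ∀ j, k j = 0 := by
      intro j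
      have := (Finset.sum_eq_zero_iff_of_nonneg fun i _ => sq_nonneg (k i)).1 h0.symm j
        (Finset.mem_univ j)
      exact pow_eq_zero_iff (two_ne_zero) |>.1 this
    have h1 : ft1 i f k = 0 := by
      unfold ft1
      have : ∀ x : Z d, (x i : ℝ) * f x * Real.sin (dot k x) = 0 := by
        intro x
        have : dot k x = 0 := by simp [dot, hk0]
        rw [this, Real.sin_zero, mul_zero]
      simp [this]
    rw [h1, abs_zero]
    have := m2_nonneg f
    positivity
  · set s := Real.sqrt S with hs'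
    have hspos : 0 < s := Real.sqrt_pos.2 hpos
    have hsq : s ^ 2 = S := Real.sq_sqrt hS0
    have hb : ∀ x : Z d, ‖(x i : ℝ) * f x * Real.sin (dot k x)‖ ≤
        s / 2 * ((x i : ℝ) ^ 2 * |f x|) + 1 / (2 * s) * ((dot k x) ^ 2 * |f x|) := by
      intro x
      rw [Real.norm_eq_abs, abs_mul, abs_mul]
      have h1 : |Real.sin (dot k x)| ≤ |dot k x| := Real.abs_sin_le_abs
      have h2 : |(x i : ℝ)| * |dot k x| ≤ s / 2 * (x i : ℝ) ^ 2 + 1 / (2 * s) * (dot k x) ^ 2 := by
        rw [← sq_abs (x i : ℝ), ← sq_abs (dot k x)]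
        have h3 : 0 ≤ (s * |(x i : ℝ)| - |dot k x|) ^ 2 / (2 * s) := by positivity
        have h4 : (s * |(x i : ℝ)| - |dot k x|) ^ 2 / (2 * s) =
            s / 2 * |(x i : ℝ)| ^ 2 + 1 / (2 * s) * |dot k x| ^ 2 - |(x i : ℝ)| * |dot k x| := by
          field_simp
          ring
        linarith
      calc |(x i : ℝ)| * |f x| * |Real.sin (dot k x)| ≤ |(x i : ℝ)| * |f x| * |dot k x| := by
            gcongr
        _ = (|(x i : ℝ)| * |dot k x|) * |f x| := by ring
        _ ≤ (s / 2 * (x i : ℝ) ^ 2 + 1 / (2 * s) * (dot k x) ^ 2) * |f x| :=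
            mul_le_mul_of_nonneg_right h2 (abs_nonneg _)
        _ = _ := by ring
    have hsumm := ((summ_ii hf i).mul_left (s / 2)).add ((summ_dot hf k).mul_left (1 / (2 * s)))
    have h3 : |ft1 i f k| ≤ ∑' x : Z d, (s / 2 * ((x i : ℝ) ^ 2 * |f x|) +
        1 / (2 * s) * ((dot k x) ^ 2 * |f x|)) := by
      rw [← Real.norm_eq_abs]
      exact tsum_of_norm_bounded hsumm.hasSum hb
    refine h3.trans ?_
    rw [((summ_ii hf i).mul_left (s / 2)).tsum_add ((summ_dot hf k).mul_left (1 / (2 * s))),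
      tsum_mul_left, tsum_mul_left, Asum hd hs hf i, sum_dot hd hs hf k, ← hS, ← hsq]
    have h4 : s / 2 * (m2 f / d) + 1 / (2 * s) * (s ^ 2 * (m2 f / d)) = s / d * m2 f := by
      field_simp
      ring
    rw [h4]
    refine mul_le_mul_of_nonneg_right ?_ (m2_nonneg f)
    have h5 := cube_bound hd k hk
    rw [← hS] at h5
    have h6 : (s / d) ^ 2 ≤ (3 * Real.sqrt ((1 - Dh k) / d)) ^ 2 := by
      rw [mul_pow, Real.sq_sqrt (by positivity), div_pow, hsq]
      rw [div_le_iff₀ (by positivity)] at h5 ⊢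
      have h8 : Real.pi ^ 2 / 2 ≤ 9 := by nlinarith [Real.pi_lt_d2, Real.pi_pos]
      calc S ≤ Real.pi ^ 2 / 4 * (1 - Dh k) * (2 * d) := h5
        _ = (Real.pi ^ 2 / 2) * ((1 - Dh k) * d) := by ring
        _ ≤ 9 * ((1 - Dh k) * d) := mul_le_mul_of_nonneg_right h8 (by positivity)
        _ = 3 ^ 2 * ((1 - Dh k) / d) * d ^ 2 := by field_simp; ring
    exact le_of_sq_le_sq h6 (by positivity)
where
  le_of_sq_le_sq {a b : ℝ} (h : a ^ 2 ≤ b ^ 2) (hb : 0 ≤ b) : a ≤ b := by
    exact le_of_abs_le (abs_le_of_sq_le_sq h hb)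

theorem symB2 (hd : 1 ≤ d) {f : Z d → ℝ} (hs : Sym f) (hf : M2 f) (k : Fin d → ℝ) (i : Fin d) :
    |ft1 i f k| ≤ 3 * Real.sqrt ((1 - Dh k) / d) * m2 f := by
  obtain ⟨k', hk', -, hsn, hc', -⟩ := red k
  have h1 : ft1 i f k = ft1 i f k' := by
    unfold ft1
    exact tsum_congr fun x => by rw [hsn x]
  rw [h1, Dh_red hc']
  exact symB2' hd hs hf k' hk' i

theorem symB3 (hd : 1 ≤ d) {f : Z d → ℝ} (hs : Sym f) (hf : M2 f) (k : Fin d → ℝ) (i : Fin d) :
    |ft2 i f k| ≤ m2 f / d := by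
  rw [← Asum hd hs hf i, ← Real.norm_eq_abs]
  refine tsum_of_norm_bounded (summ_ii hf i).hasSum fun x => ?_
  rw [Real.norm_eq_abs, abs_mul, abs_mul, abs_of_nonneg (sq_nonneg (x i : ℝ))]
  exact mul_le_of_le_one_right (by positivity) (Real.abs_cos_le_one _)

end Pool.Agent.PB.AF
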