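import Pool.Agent.PB.AF.BootIff
import Pool.Agent.PB.AF.ConvA
import Pool.Agent.PB.AF.ConvB
import Pool.Agent.PB.AF.Jf
import Pool.Agent.PB.AF.SymB
import Pool.Agent.PB.AF.Alg

/-!
PB-AF-Improve.  The bootstrap step.

Plan. By `boot_le_iff` (with `c = 3`) fix `i`, `k` and apply `alg_step` with `D = Dh k`,
`P0 = ft P 0`, `P = ft P k`, `P1 = ft1 i P k`, `P2 = ft2 i P k`, `s = sin (k i)`, `c = cos (k i)`, `T = ft (τ p) k`,
`T1 = ft1 i (τ p) k`, `T2 = ft2 i (τ p) k`, `χ = ft (τ p) 0` (use it for some `i`, `Fin d` is nonempty; the first two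
claims do not depend on `i`).
`|ft P k - 1| ≤ l1 (P - δ)`: `ft P k - 1 = ft (P - δ) k` (linearity of `tsum`, `∑ δ cos = 1`), `abs_ft_le`.
`symB1`, `symB2`, `symB3` with `m2 P ≤ 1/1000`; `sin_sq_bound` of Dfacts; `χ ≥ τ p 0 = 1 > 0` (`Dh 0 = 1` for `1 ≤ d`,
`cos (dot 0 x) = 1`, all terms nonnegative, `Summable.le_tsum`).
The equations: `τ p = P + rcv (rcv P (Jr p)) (τ p)`, so `ft (τ p) k = ft P k + ft (rcv (rcv P (Jr p)) (τ p)) k` (linearity:
`Summable.tsum_add`), then `ft_rcv`, `ft1_rcv`, `ft2_rcv` twice and `ft_Jr`, `ft1_Jr`, `ft2_Jr`; all functions are even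
(`Sym.neg`, `rcv_even`) and `M2` (`rcv_M2`, `Jr_M2`, `L.summ`).
-/

open MeasureTheory Filter Topology
open scoped ENNReal

namespace Pool.Agent.PB.AF

variable {d : ℕ}

private theorem add_fun {f g h : Z d → ℝ} (hh : ∀ x, h x = f x + g x)
    (hf : M2 f) (hg : M2 g) (k : Fin d → ℝ) (i : Fin d) :
    ft h k = ft f k + ft g k ∧ ft1 i h k = ft1 i f k + ft1 i g k ∧
      ft2 i h k = ft2 i f k + ft2 i g k := by
  have c0 : ∀ u : Z d → ℝ, M2 u → Summable (fun x => u x * Real.cos (dot k x)) := by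
    intro u hu
    refine Summable.of_norm_bounded hu.abs fun x => ?_
    rw [Real.norm_eq_abs, abs_mul]
    exact mul_le_of_le_one_right (abs_nonneg _) (Real.abs_cos_le_one _)
  have c1 : ∀ u : Z d → ℝ, M2 u → Summable (fun x => (x i : ℝ) * u x * Real.sin (dot k x)) := by
    intro u hu
    refine Summable.of_norm_bounded (hu.coord1 i) fun x => ?_
    rw [Real.norm_eq_abs, abs_mul, abs_mul]
    exact mul_le_of_le_one_right (by positivity) (Real.abs_sin_le_one _)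
  have c2 : ∀ u : Z d → ℝ, M2 u → Summable (fun x => (x i : ℝ) ^ 2 * u x * Real.cos (dot k x)) := by
    intro u hu
    refine Summable.of_norm_bounded (hu.coord i) fun x => ?_
    rw [Real.norm_eq_abs, abs_mul, abs_mul, abs_of_nonneg (sq_nonneg _)]
    exact mul_le_of_le_one_right (by positivity) (Real.abs_cos_le_one _)
  refine ⟨?_, ?_, ?_⟩
  · unfold ft
    rw [← Summable.tsum_add (c0 f hf) (c0 g hg)]
    refine tsum_congr fun x => ?_
    rw [hh]; ring
  · unfold ft1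
    rw [← Summable.tsum_add (c1 f hf) (c1 g hg)]
    refine tsum_congr fun x => ?_
    rw [hh]; ring
  · unfold ft2
    rw [← Summable.tsum_add (c2 f hf) (c2 g hg)]
    refine tsum_congr fun x => ?_
    rw [hh]; ring

private theorem delta_M2 : M2 (fun x : Z d => if x = 0 then (1 : ℝ) else 0) := by
  unfold M2
  refine summable_of_ne_finset_zero (s := {0}) fun x hx => ?_
  rw [Finset.mem_singleton] at hx
  simp [hx]

private theorem ft_delta (k : Fin d → ℝ) : ft (fun x : Z d => if x = 0 then (1 : ℝ) else 0) k = 1 := by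
  unfold ft
  rw [tsum_eq_single (0 : Z d)]
  · simp [dot]
  · intro x hx
    simp [hx]

private theorem sub_delta_M2 {P : Z d → ℝ} (hM : M2 P) :
    M2 (fun x => P x - if x = 0 then (1 : ℝ) else 0) := by
  unfold M2
  refine Summable.of_nonneg_of_le (fun x => by positivity) (fun x => ?_)
    (hM.add (delta_M2 (d := d)))
  have h1 : |P x - if x = 0 then (1 : ℝ) else 0| ≤ |P x| + |if x = 0 then (1 : ℝ) else 0| :=
    abs_sub _ _
  calc (1 + (n2 x : ℝ)) * |P x - if x = 0 then (1 : ℝ) else 0|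
      ≤ (1 + (n2 x : ℝ)) * (|P x| + |if x = 0 then (1 : ℝ) else 0|) :=
        mul_le_mul_of_nonneg_left h1 (by positivity)
    _ = _ := by ring

private theorem ft_sub_one {P : Z d → ℝ} (hM : M2 P) (i : Fin d) (k : Fin d → ℝ) :
    |ft P k - 1| ≤ l1 (fun x => P x - if x = 0 then 1 else 0) := by
  have h1 := (add_fun (f := fun x => P x - if x = 0 then (1 : ℝ) else 0)
    (g := fun x : Z d => if x = 0 then (1 : ℝ) else 0) (h := P) (fun x => by ring)
    (sub_delta_M2 hM) delta_M2 k i).1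
  rw [ft_delta] at h1
  have h2 := abs_ft_le (sub_delta_M2 hM).abs k
  rw [h1]
  simpa using h2

private theorem Dh_zero (hd : 1 ≤ d) : Dh (0 : Fin d → ℝ) = 1 := by
  have h1 : (d : ℝ) ≠ 0 := by
    have : (0 : ℝ) < d := by exact_mod_cast hd
    exact this.ne'
  unfold Dh
  simp only [Pi.zero_apply, Real.cos_zero, Finset.sum_const, Finset.card_univ, Fintype.card_fin,
    nsmul_eq_mul, mul_one]
  exact div_self h1

theorem improve {K : ℕ} {pc : ℝ} {τ : ℝ → Z d → ℝ} (L : Lace K d pc τ) (hd : 1 ≤ d) {p : ℝ}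
    (hp0 : 0 ≤ p) (hp : p < pc) {P : Z d → ℝ} (hs : Sym P) (hM : M2 P)
    (h1 : l1 (fun x => P x - if x = 0 then 1 else 0) ≤ 1 / 1000) (h2 : m2 P ≤ 1 / 1000)
    (he : ∀ x, τ p x = P x + rcv (rcv P (Jr p)) (τ p) x) : boot d τ p ≤ 3 := by
  have hT := L.summ p hp0 hp
  have hTs := L.sym p
  have hJ : M2 (Jr p : Z d → ℝ) := Jr_M2 p
  have hJs : Sym (Jr p : Z d → ℝ) := Jr_sym p
  have hPJ : M2 (rcv P (Jr p)) := rcv_M2 hM hJ
  have hPJs : Sym (rcv P (Jr p)) := rcv_sym hs hJs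
  have hPJT : M2 (rcv (rcv P (Jr p)) (τ p)) := rcv_M2 hPJ hT
  have hd' : (0 : ℝ) < d := by exact_mod_cast hd
  have hd1 : (1 : ℝ) ≤ d := by exact_mod_cast hd
  -- the transform at 0 is positive
  have hχ : 0 < ft (τ p) 0 := by
    have hh : ft (τ p) 0 = ∑' x, τ p x := by
      unfold ft
      refine tsum_congr fun x => ?_
      simp [dot]
    rw [hh]
    have := hT.self.le_tsum (0 : Z d) (fun x _ => L.nonneg p x)
    rw [L.at0] at this
    linarith
  have key : ∀ (i : Fin d) (k : Fin d → ℝ), 2 * d * p ≤ 3 ∧ (1 - Dh k) * |ft (τ p) k| ≤ 3 ∧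
      ((d : ℝ) / 13) * (1 - Dh k) ^ 2 * |ft2 i (τ p) k| ≤ 3 := by
    intro i k
    have e := add_fun he hM hPJT k i
    have e0 := (add_fun he hM hPJT 0 i).1
    rw [ft_rcv hPJ.abs hT.abs hPJs.neg hTs.neg, ft_rcv hM.abs hJ.abs hs.neg hJs.neg, ft_Jr,
      Dh_zero hd] at e0
    have ek0 := e.1
    have ek1 := e.2.1
    have ek2 := e.2.2
    rw [ft_rcv hPJ.abs hT.abs hPJs.neg hTs.neg, ft_rcv hM.abs hJ.abs hs.neg hJs.neg, ft_Jr] at ek0
    rw [ft1_rcv hPJ hT hPJs.neg hTs.neg, ft1_rcv hM hJ hs.neg hJs.neg,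
      ft_rcv hM.abs hJ.abs hs.neg hJs.neg, ft_Jr, ft1_Jr] at ek1
    rw [ft2_rcv hPJ hT hPJs.neg hTs.neg, ft2_rcv hM hJ hs.neg hJs.neg,
      ft1_rcv hM hJ hs.neg hJs.neg, ft_rcv hM.abs hJ.abs hs.neg hJs.neg, ft_Jr, ft1_Jr,
      ft2_Jr] at ek2
    have hE : 0 ≤ 1 - Dh k := by
      have := Dh_le_one k
      linarith
    refine alg_step (d := (d : ℝ)) (p := p) (D := Dh k) (P0 := ft P 0) (P := ft P k)
      (P1 := ft1 i P k) (P2 := ft2 i P k) (s := Real.sin (k i)) (c := Real.cos (k i))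
      (T := ft (τ p) k) (T1 := ft1 i (τ p) k) (T2 := ft2 i (τ p) k) (χ := ft (τ p) 0)
      hd1 hp0 (neg_one_le_Dh k) (Dh_le_one k)
      ((ft_sub_one hM i 0).trans h1) ((ft_sub_one hM i k).trans h1) ?_ ?_ ?_
      (sin_sq_bound hd k i) (Real.abs_cos_le_one _) hχ ?_ ?_ ?_ ?_
    · refine (symB1 hd hs hM k).trans ?_
      exact mul_le_mul_of_nonneg_left h2 (by positivity)
    · refine (symB2 hd hs hM k i).trans ?_
      exact mul_le_mul_of_nonneg_left h2 (by positivity)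
    · refine (symB3 hd hs hM k i).trans ?_
      exact div_le_div_of_nonneg_right h2 hd'.le
    · rw [mul_one] at e0
      exact e0
    · exact ek0
    · exact ek1
    · exact ek2
  rw [boot_le_iff L hd hp0 hp 3]
  exact ⟨(key ⟨0, hd⟩ 0).1, fun k => (key ⟨0, hd⟩ k).2.1, fun i k => (key i k).2.2⟩

end Pool.Agent.PB.AF
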