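import Pool.Agent.PB.AF.Orth

/-!
PB-AF-Inv.  Basic properties of `ft`, `ft1`, `ft2`, inversion formula and the sup bound.

Plan. `abs_ft_le`: `norm_tsum_le_tsum_norm`, `|cos| ≤ 1`.  Continuity: `continuous_tsum` with the
summable bounds `|f x|`, `|x_i| |f x|`, `x_i^2 |f x|` (`M2.coord1`, `M2.coord` of Base).
`ft_inv`: `∫ (∑ f y cos(k·y)) cos(k·x) dQ = ∑ f y ∫ cos(k·y) cos(k·x) dQ` (`integral_tsum` or
`hasSum_integral_of_summable_integral_norm`; dominated by `|f y|`, `Q` is a probability measure)
`= ∑_y f y ([y=x] + [y=-x])/2 = (f x + f (-x))/2 = f x` (`int_cos_mul`).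
`abs_le_int`: from `ft_inv`, `|cos| ≤ 1`, `norm_integral_le_integral_norm`.
`ft_rw2`: `n2_cast` and `Summable.tsum_finsetSum` (finite sum of summable series).
-/

open MeasureTheory Filter Topology
open scoped ENNReal

namespace Pool.Agent.PB.AF

variable {d : ℕ}

theorem abs_ft_le {f : Z d → ℝ} (hf : Summable (fun x => |f x|)) (k : Fin d → ℝ) :
    |ft f k| ≤ l1 f := by
  have h1 : ∀ x : Z d, ‖f x * Real.cos (dot k x)‖ ≤ |f x| := fun x => by
    rw [Real.norm_eq_abs, abs_mul]
    exact mul_le_of_le_one_right (abs_nonneg _) (Real.abs_cos_le_one _)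
  have h2 : Summable fun x : Z d => ‖f x * Real.cos (dot k x)‖ :=
    Summable.of_nonneg_of_le (fun _ => norm_nonneg _) h1 hf
  unfold ft l1
  exact (norm_tsum_le_tsum_norm h2).trans (h2.tsum_le_tsum h1 hf)

theorem ft_cont {f : Z d → ℝ} (hf : Summable (fun x => |f x|)) : Continuous (ft f) := by
  unfold ft
  refine continuous_tsum (fun x => ?_) hf (fun x k => ?_)
  · exact continuous_const.mul (Real.continuous_cos.comp (dot_cont x))
  · rw [Real.norm_eq_abs, abs_mul]
    exact mul_le_of_le_one_right (abs_nonneg _) (Real.abs_cos_le_one _)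

theorem ft1_cont {f : Z d → ℝ} (hf : M2 f) (i : Fin d) : Continuous (ft1 i f) := by
  unfold ft1
  refine continuous_tsum (fun x => ?_) (hf.coord1 i) (fun x k => ?_)
  · exact continuous_const.mul (Real.continuous_sin.comp (dot_cont x))
  · rw [Real.norm_eq_abs, abs_mul, abs_mul]
    exact mul_le_of_le_one_right (by positivity) (Real.abs_sin_le_one _)

theorem ft2_cont {f : Z d → ℝ} (hf : M2 f) (i : Fin d) : Continuous (ft2 i f) := by
  unfold ft2
  refine continuous_tsum (fun x => ?_) (hf.coord i) (fun x k => ?_)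
  · exact continuous_const.mul (Real.continuous_cos.comp (dot_cont x))
  · rw [Real.norm_eq_abs, abs_mul, abs_mul, abs_of_nonneg (sq_nonneg ((x i : ℝ)))]
    exact mul_le_of_le_one_right (by positivity) (Real.abs_cos_le_one _)

theorem abs_ft2_le {f : Z d → ℝ} (hf : M2 f) (i : Fin d) (k : Fin d → ℝ) :
    |ft2 i f k| ≤ m2 f := by
  have h1 : ∀ x : Z d, ‖(x i : ℝ) ^ 2 * f x * Real.cos (dot k x)‖ ≤ (n2 x : ℝ) * |f x| := fun x => by
    rw [Real.norm_eq_abs, abs_mul, abs_mul, abs_of_nonneg (sq_nonneg ((x i : ℝ)))]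
    refine (mul_le_of_le_one_right (by positivity) (Real.abs_cos_le_one _)).trans ?_
    exact mul_le_mul_of_nonneg_right (coord_sq_le x i) (abs_nonneg _)
  have h2 : Summable fun x : Z d => ‖(x i : ℝ) ^ 2 * f x * Real.cos (dot k x)‖ :=
    Summable.of_nonneg_of_le (fun _ => norm_nonneg _) h1 hf.nw
  unfold ft2 m2
  exact (norm_tsum_le_tsum_norm h2).trans (h2.tsum_le_tsum h1 hf.nw)

theorem ft_inv {f : Z d → ℝ} (hf : Summable (fun x => |f x|)) (he : ∀ x, f (-x) = f x) (x : Z d) :
    f x = ∫ k, ft f k * Real.cos (dot k x) ∂(Q d) := by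
  have hcont : ∀ y : Z d, Continuous fun k : Fin d → ℝ =>
      f y * Real.cos (dot k y) * Real.cos (dot k x) := fun y =>
    (continuous_const.mul (Real.continuous_cos.comp (dot_cont y))).mul
      (Real.continuous_cos.comp (dot_cont x))
  have hb : ∀ (y : Z d) (k : Fin d → ℝ),
      ‖f y * Real.cos (dot k y) * Real.cos (dot k x)‖ ≤ |f y| := by
    intro y k
    rw [Real.norm_eq_abs, abs_mul, abs_mul]
    refine (mul_le_of_le_one_right (by positivity) (Real.abs_cos_le_one _)).trans ?_
    exact mul_le_of_le_one_right (abs_nonneg _) (Real.abs_cos_le_one _)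
  have hint : ∀ y : Z d, Integrable (fun k : Fin d → ℝ =>
      f y * Real.cos (dot k y) * Real.cos (dot k x)) (Q d) := fun y =>
    Integrable.of_bound (hcont y).aestronglyMeasurable |f y| (Eventually.of_forall (hb y))
  have hsum : Summable fun y : Z d =>
      ∫ k, ‖f y * Real.cos (dot k y) * Real.cos (dot k x)‖ ∂(Q d) := by
    refine Summable.of_nonneg_of_le (fun y => integral_nonneg fun k => norm_nonneg _)
      (fun y => ?_) hf
    calc ∫ k, ‖f y * Real.cos (dot k y) * Real.cos (dot k x)‖ ∂(Q d)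
        ≤ ∫ _k, |f y| ∂(Q d) := integral_mono (hint y).norm (integrable_const _) (hb y)
      _ = |f y| := by simp
  have h1 := hasSum_integral_of_summable_integral_norm hint hsum
  have h2 : (fun k : Fin d → ℝ => ∑' y : Z d, f y * Real.cos (dot k y) * Real.cos (dot k x)) =
      fun k => ft f k * Real.cos (dot k x) := by
    funext k
    unfold ft
    rw [tsum_mul_right]
  rw [h2] at h1
  have h3 : ∀ y : Z d, ∫ k, f y * Real.cos (dot k y) * Real.cos (dot k x) ∂(Q d) =
      f y * (if y - x = 0 then 1 else 0) / 2 + f y * (if y + x = 0 then 1 else 0) / 2 := by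
    intro y
    simp only [mul_assoc]
    rw [integral_const_mul, int_cos_mul y x]
    ring
  have h4 : HasSum (fun y : Z d => f y * (if y - x = 0 then 1 else 0) / 2) (f x / 2) := by
    have := hasSum_single (f := fun y : Z d => f y * (if y - x = 0 then 1 else 0) / 2) x
      (fun y hy => by
        rw [if_neg (sub_ne_zero.2 hy)]
        simp)
    simpa using this
  have h5 : HasSum (fun y : Z d => f y * (if y + x = 0 then 1 else 0) / 2) (f x / 2) := by
    have := hasSum_single (f := fun y : Z d => f y * (if y + x = 0 then 1 else 0) / 2) (-x)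
      (fun y hy => by
        rw [if_neg (fun h => hy (eq_neg_of_add_eq_zero_left h))]
        simp)
    simpa [he x] using this
  have h6 := h4.add h5
  simp only [h3] at h1
  have h7 := h6.unique h1
  rw [← h7]
  ring

theorem abs_le_int {f : Z d → ℝ} (hf : Summable (fun x => |f x|)) (he : ∀ x, f (-x) = f x)
    (x : Z d) : |f x| ≤ ∫ k, |ft f k| ∂(Q d) := by
  have hc := ft_cont hf
  have hi : Integrable (ft f) (Q d) :=
    Integrable.of_bound hc.aestronglyMeasurable (l1 f) (Eventually.of_forall fun k => abs_ft_le hf k)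
  have hb : ∀ k : Fin d → ℝ, ‖ft f k * Real.cos (dot k x)‖ ≤ |ft f k| := by
    intro k
    rw [Real.norm_eq_abs, abs_mul]
    exact mul_le_of_le_one_right (abs_nonneg _) (Real.abs_cos_le_one _)
  have hi2 : Integrable (fun k => ft f k * Real.cos (dot k x)) (Q d) :=
    Integrable.of_bound (hc.mul (Real.continuous_cos.comp (dot_cont x))).aestronglyMeasurable (l1 f)
      (Eventually.of_forall fun k => (hb k).trans (abs_ft_le hf k))
  rw [ft_inv hf he x]
  calc |∫ k, ft f k * Real.cos (dot k x) ∂(Q d)|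
      ≤ ∫ k, ‖ft f k * Real.cos (dot k x)‖ ∂(Q d) := by
        rw [← Real.norm_eq_abs]
        exact norm_integral_le_integral_norm _
    _ ≤ ∫ k, |ft f k| ∂(Q d) := integral_mono hi2.norm hi.abs hb

theorem ft_rw2 {f : Z d → ℝ} (hf : M2 f) (k : Fin d → ℝ) :
    ft (rw2 f) k = ∑ i, ft2 i f k := by
  have hs : ∀ i ∈ (Finset.univ : Finset (Fin d)), Summable fun x : Z d =>
      (x i : ℝ) ^ 2 * f x * Real.cos (dot k x) := by
    intro i _
    refine Summable.of_norm_bounded (hf.coord i) (fun x => ?_)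
    rw [Real.norm_eq_abs, abs_mul, abs_mul, abs_of_nonneg (sq_nonneg ((x i : ℝ)))]
    exact mul_le_of_le_one_right (by positivity) (Real.abs_cos_le_one _)
  unfold ft ft2 rw2
  rw [← Summable.tsum_finsetSum hs]
  refine tsum_congr fun x => ?_
  rw [n2_cast, Finset.sum_mul, Finset.sum_mul]

end Pool.Agent.PB.AF
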