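import Pool.Agent.PB.AF.Iface

/-!
PB-AF-Lim.  Monotone limits of convolutions.

Plan. `cv f g x = ∑' y, f y * g (x - y)`; for increasing sequences `(⨆ f n y) * (⨆ g n (x - y)) = ⨆ n, f n y * g n (x - y)`
(`ENNReal.iSup_mul_iSup` / `ENNReal.iSup_mul_iSup_of_monotone`; or `Tendsto.mul` with care) and
`∑' ⨆ = ⨆ ∑'` for monotone sequences (`ENNReal.tsum_iSup_eq`? otherwise `MeasureTheory.lintegral_iSup` with the counting
measure, `lintegral_count`; or `ENNReal.tsum_eq_iSup_sum` and `Finset` sums, `ENNReal.finsetSum_iSup_of_monotone`).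
`cpow` by induction.
`lim_bound`: with `u n ↑ p` and `f n ↑ f∞`: if every `n` satisfies the two bounds then so does the limit
(`J (u n) ↑ J p` because `ofReal (u n) ↑ ofReal p`).
-/

set_option autoImplicit false
open MeasureTheory Filter Topology
open scoped ENNReal BigOperators

namespace Pool.Agent.PB.AF

variable {d : ℕ}

theorem cv_mono {f f' g g' : Z d → ℝ≥0∞} (hf : f ≤ f') (hg : g ≤ g') : cv f g ≤ cv f' g' := by
  intro x
  exact ENNReal.tsum_le_tsum fun y => mul_le_mul' (hf y) (hg (x - y))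

theorem cpow_mono {f f' : Z d → ℝ≥0∞} (hf : f ≤ f') (m : ℕ) : cpow f m ≤ cpow f' m := by
  induction m with
  | zero => exact le_refl _
  | succ m ih => exact cv_mono hf ih

private theorem iSup_mul_iSup' {a b : ℕ → ℝ≥0∞} (ha : Monotone a) (hb : Monotone b) :
    (⨆ n, a n) * (⨆ n, b n) = ⨆ n, a n * b n := by
  apply le_antisymm
  · rw [ENNReal.iSup_mul]
    refine iSup_le fun i => ?_
    rw [ENNReal.mul_iSup]
    refine iSup_le fun j => ?_
    exact (mul_le_mul' (ha (le_max_left i j)) (hb (le_max_right i j))).trans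
      (le_iSup (fun n => a n * b n) (max i j))
  · exact iSup_le fun n => mul_le_mul' (le_iSup a n) (le_iSup b n)

private theorem tsum_iSup' {α : Type} {f : ℕ → α → ℝ≥0∞} (hf : ∀ y, Monotone (fun n => f n y)) :
    ∑' y, ⨆ n, f n y = ⨆ n, ∑' y, f n y := by
  let _ : MeasurableSpace α := ⊤
  have h := MeasureTheory.lintegral_iSup (μ := (Measure.count : Measure α)) (f := f)
    (fun n => measurable_from_top) (fun i j hij y => hf y hij)
  rw [MeasureTheory.lintegral_count' measurable_from_top] at h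
  rw [h]
  congr 1
  funext n
  exact MeasureTheory.lintegral_count' measurable_from_top

theorem cv_iSup {f g : ℕ → Z d → ℝ≥0∞} (hf : Monotone f) (hg : Monotone g) :
    cv (⨆ n, f n) (⨆ n, g n) = ⨆ n, cv (f n) (g n) := by
  funext x
  rw [iSup_apply]
  unfold cv
  rw [← tsum_iSup']
  · refine tsum_congr fun y => ?_
    rw [iSup_apply, iSup_apply]
    exact iSup_mul_iSup' (fun i j hij => hf hij y) (fun i j hij => hg hij (x - y))
  · intro y i j hij
    exact mul_le_mul' (hf hij y) (hg hij (x - y))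

theorem cpow_iSup {f : ℕ → Z d → ℝ≥0∞} (hf : Monotone f) (m : ℕ) :
    cpow (⨆ n, f n) m = ⨆ n, cpow (f n) m := by
  induction m with
  | zero =>
    show dl = ⨆ _ : ℕ, dl
    rw [iSup_const]
  | succ m ih =>
    show cv (⨆ n, f n) (cpow (⨆ n, f n) m) = ⨆ n, cv (f n) (cpow (f n) m)
    rw [ih, cv_iSup hf (fun i j hij => cpow_mono (hf hij) m)]

private theorem J_mono {u : ℕ → ℝ} (hu : Monotone u) : Monotone (fun n => (J (u n) : Z d → ℝ≥0∞)) := by
  intro i j hij x
  show (if ∑ i, |x i| = 1 then ENNReal.ofReal (u i) else 0) ≤ (if ∑ i, |x i| = 1 then ENNReal.ofReal (u j) else 0)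
  split_ifs
  · exact ENNReal.ofReal_le_ofReal (hu hij)
  · exact le_refl _

theorem J_iSup {u : ℕ → ℝ} {p : ℝ} (hu : Monotone u) (h2 : Tendsto u atTop (𝓝 p)) :
    (J p : Z d → ℝ≥0∞) = ⨆ n, J (u n) := by
  funext x
  rw [iSup_apply]
  show (if ∑ i, |x i| = 1 then ENNReal.ofReal p else 0) =
    ⨆ n, (if ∑ i, |x i| = 1 then ENNReal.ofReal (u n) else 0)
  split_ifs
  · exact tendsto_nhds_unique (ENNReal.tendsto_ofReal h2)
      (tendsto_atTop_iSup (fun i j hij => ENNReal.ofReal_le_ofReal (hu hij)))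
  · rw [iSup_const]

private theorem sJ_iSup {u : ℕ → ℝ} {p : ℝ} (hu : Monotone u) (h2 : Tendsto u atTop (𝓝 p))
    {g : ℕ → Z d → ℝ≥0∞} (hg : Monotone g) : sJ p (⨆ n, g n) = ⨆ n, sJ (u n) (g n) := by
  unfold sJ
  rw [J_iSup hu h2, cv_iSup (J_mono hu) hg, iSup_comm]
  refine iSup_congr fun x => ?_
  rw [iSup_apply]

/-- closedness of the bounds under increasing limits -/
theorem lim_bound {u : ℕ → ℝ} {p : ℝ} (hu : Monotone u) (h2 : Tendsto u atTop (𝓝 p))
    {f : ℕ → Z d → ℝ≥0∞} (hf : Monotone f) {C c : ℝ≥0∞}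
    (h8 : ∀ n, cpow (f n) 8 0 ≤ C) (h43 : ∀ n, cpow (f n) 4 0 * sJ (u n) (cpow (f n) 3) ≤ c) :
    cpow (⨆ n, f n) 8 0 ≤ C ∧ cpow (⨆ n, f n) 4 0 * sJ p (cpow (⨆ n, f n) 3) ≤ c := by
  constructor
  · rw [cpow_iSup hf, iSup_apply]
    exact iSup_le h8
  · rw [cpow_iSup hf, cpow_iSup hf, iSup_apply,
      sJ_iSup hu h2 (g := fun n => cpow (f n) 3) (fun i j hij => cpow_mono (hf hij) 3),
      iSup_mul_iSup' (fun i j hij => cpow_mono (hf hij) 4 0)]
    · exact iSup_le h43
    · intro i j hij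
      refine iSup_mono fun x => ?_
      exact cv_mono (J_mono hu hij) (cpow_mono (hf hij) 3) x

end Pool.Agent.PB.AF
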