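import Pool.Agent.PB.AF.Improve
import Pool.Agent.PB.AF.DiagB
import Pool.Agent.PB.AF.Cont

/-!
PB-AF-Main.  The bootstrap (assembly).
-/

open MeasureTheory Filter Topology
open scoped ENNReal

namespace Pool.Agent.PB.AF

theorem main (K : ℕ) : ∃ (d0 : ℕ) (C : ℝ), 0 ≤ C ∧ ∀ d : ℕ, d0 ≤ d → ∀ (pc : ℝ) (τ : ℝ → Z d → ℝ),
    Lace K d pc τ → ∀ p, 0 ≤ p → p < pc →
      2 * d * p ≤ 3 ∧ cpow (en (τ p)) 8 0 ≤ ENNReal.ofReal C ∧
      cpow (en (τ p)) 4 0 * sJ p (cpow (en (τ p)) 3) ≤ ENNReal.ofReal (1 / 100) := by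
  obtain ⟨C, d1, hC0, hd1, hdiag⟩ := diag_bounds
  set M : ℝ := 1000 * K * C ^ K * C + 100 * C ^ 2 + 1 with hM
  have hMpos : 0 < M := by positivity
  refine ⟨max d1 (⌈M ^ 2⌉₊), C, hC0, ?_⟩
  intro d hd pc τ L p hp0 hp
  have hdd1 : d1 ≤ d := (le_max_left _ _).trans hd
  have hd1' : 1 ≤ d := hd1.trans hdd1
  have hsq : M ≤ Real.sqrt d := by
    apply Real.le_sqrt_of_sq_le
    calc M ^ 2 ≤ ((⌈M ^ 2⌉₊ : ℕ) : ℝ) := Nat.le_ceil _
      _ ≤ d := by exact_mod_cast (le_max_right _ _).trans hd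
  have hsqpos : 0 < Real.sqrt d := lt_of_lt_of_le hMpos hsq
  have hb1 : (K : ℝ) * C ^ K * (C / Real.sqrt d) ≤ 1 / 1000 := by
    have : (K : ℝ) * C ^ K * (C / Real.sqrt d) = (K * C ^ K * C) / Real.sqrt d := by ring
    rw [this, div_le_div_iff₀ hsqpos (by norm_num)]
    have h1 : 1000 * K * C ^ K * C ≤ M := by
      rw [hM]
      have : 0 ≤ 100 * C ^ 2 := by positivity
      linarith
    linarith
  have hb2 : C * (C / Real.sqrt d) ≤ 1 / 100 := by
    have : C * (C / Real.sqrt d) = (C ^ 2) / Real.sqrt d := by ring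
    rw [this, div_le_div_iff₀ hsqpos (by norm_num)]
    have h1 : 100 * C ^ 2 ≤ M := by
      rw [hM]
      have : 0 ≤ 1000 * K * C ^ K * C := by positivity
      linarith
    linarith
  -- the bounds under `boot ≤ 4`
  have hB : ∀ q, 0 ≤ q → q < pc → boot d τ q ≤ 4 →
      bigB (en (τ q)) ≤ ENNReal.ofReal C ∧ small q (en (τ q)) ≤ ENNReal.ofReal (C / Real.sqrt d) ∧
        cpow (en (τ q)) 8 0 ≤ ENNReal.ofReal C := by
    intro q hq0 hq h4
    obtain ⟨h1, h2, h3⟩ := (boot_le_iff L hd1' hq0 hq 4).1 h4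
    exact hdiag d hdd1 q (τ q) hq0 (L.nonneg q) (L.summ q hq0 hq) (fun x => (L.sym q).neg x) h1 h2 h3
  -- the improvement
  have hA : ∀ q, 0 ≤ q → q < pc → boot d τ q ≤ 4 → boot d τ q ≤ 3 := by
    intro q hq0 hq h4
    obtain ⟨hb, hs, -⟩ := hB q hq0 hq h4
    have hrho : rho K q (en (τ q)) ≤ ENNReal.ofReal (1 / 1000) := by
      calc rho K q (en (τ q)) ≤ (K : ℝ≥0∞) * ENNReal.ofReal C ^ K *
            ENNReal.ofReal (C / Real.sqrt d) := by
            unfold rho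
            gcongr
        _ = ENNReal.ofReal ((K : ℝ) * C ^ K * (C / Real.sqrt d)) := by
            rw [ENNReal.ofReal_mul (by positivity), ENNReal.ofReal_mul (by positivity),
              ENNReal.ofReal_natCast, ENNReal.ofReal_pow hC0]
        _ ≤ ENNReal.ofReal (1 / 1000) := ENNReal.ofReal_le_ofReal hb1
    have hrho1 : rho K q (en (τ q)) ≤ 1 := by
      refine hrho.trans ?_
      rw [← ENNReal.ofReal_one]
      exact ENNReal.ofReal_le_ofReal (by norm_num)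
    obtain ⟨P, hPs, hPM, hP1, hP2, he⟩ := L.exp q hq0 hq hrho1
    have e1 := (ENNReal.ofReal_le_ofReal_iff (by norm_num)).1 (hP1.trans hrho)
    have e2 := (ENNReal.ofReal_le_ofReal_iff (by norm_num)).1 (hP2.trans hrho)
    exact improve L hd1' hq0 hq hPs hPM e1 e2 he
  have hpc : 0 < pc := lt_of_le_of_lt hp0 hp
  have hfin : boot d τ p ≤ 3 := by
    by_contra hcon
    have hcon' : 3 < boot d τ p := not_le.1 hcon
    have h4 : 4 < boot d τ p := by
      by_contra h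
      exact hcon (hA p hp0 hp (not_lt.1 h))
    have hcont : ContinuousOn (boot d τ) (Set.Icc 0 p) :=
      (boot_cont L).mono (fun t ht => ⟨ht.1, lt_of_le_of_lt ht.2 hp⟩)
    have hivt := intermediate_value_Icc hp0 hcont
    have hz := boot_zero L hd1' hpc
    obtain ⟨t, ht, hteq⟩ := hivt (show (7 / 2 : ℝ) ∈ Set.Icc (boot d τ 0) (boot d τ p) from
      ⟨by linarith, by linarith⟩)
    have h5 := hA t ht.1 (lt_of_le_of_lt ht.2 hp) (by rw [hteq]; norm_num)
    rw [hteq] at h5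
    norm_num at h5
  obtain ⟨h1, -, -⟩ := (boot_le_iff L hd1' hp0 hp 3).1 hfin
  obtain ⟨hb, hs, h8⟩ := hB p hp0 hp (hfin.trans (by norm_num))
  refine ⟨h1, h8, ?_⟩
  have h4 : cpow (en (τ p)) 4 0 ≤ ENNReal.ofReal C := by
    refine le_trans ?_ hb
    unfold bigB
    exact le_add_right (le_add_self)
  have h3 : sJ p (cpow (en (τ p)) 3) ≤ ENNReal.ofReal (C / Real.sqrt d) := by
    refine le_trans ?_ hs
    unfold small
    exact le_add_right (le_add_right le_rfl)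
  calc cpow (en (τ p)) 4 0 * sJ p (cpow (en (τ p)) 3)
      ≤ ENNReal.ofReal C * ENNReal.ofReal (C / Real.sqrt d) := mul_le_mul' h4 h3
    _ = ENNReal.ofReal (C * (C / Real.sqrt d)) := (ENNReal.ofReal_mul hC0).symm
    _ ≤ ENNReal.ofReal (1 / 100) := ENNReal.ofReal_le_ofReal hb2

end Pool.Agent.PB.AF
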