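import Pool.Agent.PB.AF.Base

/-!
PB-AF-Orth.  Orthogonality of the cosines on the torus.

Plan. `∫ exp(i k·x) dQ = ∏_j ∫ exp(i k_j x_j) dq1` (`MeasureTheory.integral_fintype_prod_eq_prod` or
`integral_fintype_prod_eq_pow`; `Q d = Measure.pi (fun _ => q1)`); the one dimensional integral is `1` if
`x_j = 0` and `(e^{iπn} - e^{-iπn})/(2πin) = 0` otherwise (`integral_exp_mul_complex`, or directly with
`integral_cos`, `integral_sin` after `∫ cos(nk) dq1`, `∫ sin(nk) dq1 = 0`).  Take real parts.
`int_cos_mul`: `cos a cos b = (cos(a-b) + cos(a+b))/2` and `dot_add`, `dot_sub`.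
-/

open MeasureTheory Filter Topology
open scoped ENNReal

namespace Pool.Agent.PB.AF

variable {d : ℕ}

private theorem exp_one (n : ℤ) :
    ∫ t, Complex.exp (((t * n : ℝ) : ℂ) * Complex.I) ∂q1 = if n = 0 then 1 else 0 := by
  by_cases h : n = 0
  · subst h
    simp
  · rw [if_neg h]
    unfold q1
    rw [integral_smul_measure, ← intervalIntegral.integral_of_le (by linarith [Real.pi_pos])]
    have h1 : ∀ t : ℝ, Complex.exp (((t * n : ℝ) : ℂ) * Complex.I) =
        Complex.exp (((n : ℂ) * Complex.I) * t) := by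
      intro t
      congr 1
      push_cast
      ring
    simp_rw [h1]
    have hn : (n : ℂ) * Complex.I ≠ 0 := by
      simp [h]
    rw [integral_exp_mul_complex hn]
    have h2 : Complex.exp ((n : ℂ) * Complex.I * (Real.pi : ℝ)) =
        Complex.exp ((n : ℂ) * Complex.I * ((-Real.pi : ℝ) : ℂ)) := by
      rw [Complex.exp_eq_exp_iff_exists_int]
      exact ⟨n, by push_cast; ring⟩
    rw [h2, sub_self, zero_div, smul_zero]

theorem int_cos (x : Z d) : ∫ k, Real.cos (dot k x) ∂(Q d) = if x = 0 then 1 else 0 := by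
  have h1 : ∀ k : Fin d → ℝ, Complex.exp (((dot k x : ℝ) : ℂ) * Complex.I) =
      ∏ i, Complex.exp (((k i * x i : ℝ) : ℂ) * Complex.I) := by
    intro k
    rw [← Complex.exp_sum]
    congr 1
    unfold dot
    push_cast
    rw [Finset.sum_mul]
  have h2 : ∫ k, Complex.exp (((dot k x : ℝ) : ℂ) * Complex.I) ∂(Q d) =
      ∏ i, if x i = 0 then (1 : ℂ) else 0 := by
    simp_rw [h1]
    unfold Q
    rw [integral_fintype_prod_eq_prod
      (fun i (t : ℝ) => Complex.exp (((t * x i : ℝ) : ℂ) * Complex.I))]
    exact Finset.prod_congr rfl fun i _ => exp_one (x i)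
  have h4 : Integrable (fun k : Fin d → ℝ => Complex.exp (((dot k x : ℝ) : ℂ) * Complex.I))
      (Q d) := by
    refine Integrable.of_bound (C := 1) ?_ ?_
    · have := dot_cont x
      exact (by fun_prop : Continuous fun k : Fin d → ℝ =>
        Complex.exp (((dot k x : ℝ) : ℂ) * Complex.I)).aestronglyMeasurable
    · filter_upwards with k
      rw [Complex.norm_exp_ofReal_mul_I]
  have h3 : ∫ k, Real.cos (dot k x) ∂(Q d) =
      (∫ k, Complex.exp (((dot k x : ℝ) : ℂ) * Complex.I) ∂(Q d)).re := by
    have h5 := integral_re (𝕜 := ℂ) h4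
    rw [RCLike.re_eq_complex_re] at h5
    rw [← h5]
    refine integral_congr_ae ?_
    filter_upwards with k
    exact (Complex.exp_ofReal_mul_I_re (dot k x)).symm
  rw [h3, h2]
  by_cases hx : x = 0
  · subst hx
    simp
  · rw [if_neg hx]
    obtain ⟨i, hi⟩ : ∃ i, x i ≠ 0 := by
      by_contra hcon
      push Not at hcon
      exact hx (funext hcon)
    rw [Finset.prod_eq_zero (Finset.mem_univ i) (if_neg hi)]
    simp

theorem int_cos_mul (x y : Z d) : ∫ k, Real.cos (dot k x) * Real.cos (dot k y) ∂(Q d) =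
    ((if x - y = 0 then 1 else 0) + (if x + y = 0 then 1 else 0)) / 2 := by
  have hint : ∀ z : Z d, Integrable (fun k : Fin d → ℝ => Real.cos (dot k z)) (Q d) := by
    intro z
    refine Integrable.of_bound (C := 1) ?_ ?_
    · have := dot_cont z
      exact (by fun_prop : Continuous fun k : Fin d → ℝ =>
        Real.cos (dot k z)).aestronglyMeasurable
    · filter_upwards with k
      rw [Real.norm_eq_abs]
      exact Real.abs_cos_le_one _
  have h1 : ∀ k : Fin d → ℝ, Real.cos (dot k x) * Real.cos (dot k y) =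
      (Real.cos (dot k (x - y)) + Real.cos (dot k (x + y))) / 2 := by
    intro k
    rw [dot_sub, dot_add, Real.cos_sub, Real.cos_add]
    ring
  simp_rw [h1]
  rw [integral_div, integral_add (hint _) (hint _), int_cos, int_cos]

end Pool.Agent.PB.AF
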