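import Pool.Agent.PB.AF.ConvA
import Pool.Agent.PB.AF.Enn
import Pool.Agent.PB.AF.Jf

/-!
PB-AF-Series.  Summation of the lace expansion (abstract, no percolation).

Plan. `a N x := (A N x).toReal`; all values are finite (`b1`, `b3`, `A 0 0 = 1`, `4 r ≤ 1`).  `P x := ∑' N, (-1)^N * a N x`.
(1) `∑_x |a (N+1) x| ≤ r^(N+1)`, `∑_x n2 x |a (N+1) x| ≤ r^(N+1)`, so everything is absolutely summable over `(N, x)` with
weight `1 + n2 x` (`ENNReal.tsum_comm`, `∑_N r^(N+1) ≤ (4/3) r` as `r ≤ 1/4`: `ENNReal.tsum_geometric` or real geometric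
series).  Hence `M2 P`, `l1 (P - δ) ≤ r + (4/3) r ≤ 4 r` (for `x = 0`: `P 0 - 1 = ∑_{N≥1}`), `m2 P ≤ r + (4/3) r ≤ 4 r`.
It is convenient to prove first, in `[0,∞]`: `ofReal |P x - δ x| ≤ (if x = 0 then 0 else A 0 x) + ∑' N, A (N+1) x` and
`ofReal |P x| ≤ ∑' N, A N x`.
(2) `Sym P`: termwise.
(3) `R N x → 0`: `e2` gives `R N x ≤ A (N+1) x + cv (cv (A (N+1)) (J p)) (en T) x ≤ r^(N+1) (1 + 2 d p)` (`T ≤ 1`,
`∑ cv f g = ∑ f ∑ g`, `∑ J p = 2 d p < ∞`; or bound `≤ r^(N+1) (1 + ∑' y, J p y)`).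
(4) telescoping in real numbers: `T x = ∑_{n ≤ N} (-1)^n (a n x + rcv (rcv (a n) (Jr p)) T x) + (-1)^(N+1) (R N x).toReal`
(induction on `N`, toReal of `e1`, `e2`; `cv` of `en` functions and `rcv`: lemmas of Enn.lean, `A N = en (a N)`,
`J p = en (Jr p)`).  Let `N → ∞`.
(5) `∑'_n (-1)^n rcv (rcv (a n) (Jr p)) T x = rcv (rcv P (Jr p)) T x`: both sides are absolutely convergent triple
sums: `rcv (rcv f (Jr p)) T x = ∑' y, ∑' z, f z * Jr p (y - z) * T (x - y)`; exchange with `Summable.tsum_comm` (bound: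
`∑_n ∑_z |a n z| ∑_y |Jr p (y - z)| ≤ const`).
-/

open MeasureTheory Filter Topology
open scoped ENNReal

namespace Pool.Agent.PB.AF

variable {d : ℕ}

private theorem geo {r : ℝ≥0∞} (hr : 4 * r ≤ 1) : ∑' N : ℕ, r ^ (N + 1) ≤ 3 * r := by
  have h1 : ∑' N : ℕ, r ^ (N + 1) = r * (1 - r)⁻¹ := by
    rw [← ENNReal.tsum_geometric, ← ENNReal.tsum_mul_left]
    exact tsum_congr fun N => by rw [pow_succ, mul_comm]
  have h2 : r ≤ 4⁻¹ := by
    rw [ENNReal.le_inv_iff_mul_le, mul_comm]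
    exact hr
  have h3 : (3 : ℝ≥0∞)⁻¹ + 4⁻¹ ≤ 1 := by
    have e3 : (3 : ℝ≥0∞)⁻¹ = ENNReal.ofReal (1 / 3) := by
      rw [one_div, ENNReal.ofReal_inv_of_pos (by norm_num)]
      norm_num
    have e4 : (4 : ℝ≥0∞)⁻¹ = ENNReal.ofReal (1 / 4) := by
      rw [one_div, ENNReal.ofReal_inv_of_pos (by norm_num)]
      norm_num
    rw [e3, e4, ← ENNReal.ofReal_add (by norm_num) (by norm_num), ← ENNReal.ofReal_one]
    exact ENNReal.ofReal_le_ofReal (by norm_num)
  have h4 : (1 - r)⁻¹ ≤ 3 := by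
    rw [ENNReal.inv_le_iff_inv_le]
    refine ENNReal.le_sub_of_add_le_right (ne_top_of_le_ne_top (by simp) h2) ?_
    exact (add_le_add le_rfl h2).trans h3
  rw [h1, mul_comm 3 r]
  gcongr

/-- total mass of a convolution -/
private theorem tsum_cv (f g : Z d → ℝ≥0∞) : ∑' x, cv f g x = (∑' x, f x) * ∑' x, g x := by
  unfold cv
  rw [ENNReal.tsum_comm, ← ENNReal.tsum_mul_right]
  refine tsum_congr fun y => ?_
  rw [ENNReal.tsum_mul_left]
  congr 1
  exact (Equiv.subRight y).tsum_eq g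

private theorem cv_le_mass (f g : Z d → ℝ≥0∞) (hg : ∀ x, g x ≤ 1) (x : Z d) :
    cv f g x ≤ ∑' y, f y := by
  unfold cv
  exact ENNReal.tsum_le_tsum fun y => mul_le_of_le_one_right' (hg _)

private theorem J_mass (p : ℝ) (hp : 0 ≤ p) : ∑' x : Z d, J p x ≠ ∞ := by
  rw [J_en]
  unfold en
  have h0 : ∀ x : Z d, 0 ≤ Jr p x := by
    intro x
    unfold Jr
    split_ifs
    · exact hp
    · exact le_rfl
  rw [← ENNReal.ofReal_tsum_of_nonneg h0 (Jr_M2 p).self]
  exact ENNReal.ofReal_ne_top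

theorem series_exp {p : ℝ} (hp : 0 ≤ p) {T : Z d → ℝ} (hT0 : ∀ x, 0 ≤ T x) (hT1 : ∀ x, T x ≤ 1)
    {A R : ℕ → Z d → ℝ≥0∞} {r : ℝ≥0∞} (hr : 4 * r ≤ 1) (hA0 : A 0 0 = 1)
    (hs1 : ∀ (N : ℕ) (σ : Equiv.Perm (Fin d)) (x : Z d), A N (fun i => x (σ i)) = A N x)
    (hs2 : ∀ (N : ℕ) (i : Fin d) (x : Z d), A N (Function.update x i (-x i)) = A N x)
    (e1 : ∀ x, en T x + R 0 x = A 0 x + cv (cv (A 0) (J p)) (en T) x)
    (e2 : ∀ N x, R N x + R (N + 1) x = A (N + 1) x + cv (cv (A (N + 1)) (J p)) (en T) x)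
    (b1 : ∑' x, (if x = 0 then 0 else A 0 x) ≤ r)
    (b2 : ∑' x, (n2 x : ℝ≥0∞) * A 0 x ≤ r)
    (b3 : ∀ N, ∑' x, A (N + 1) x ≤ r ^ (N + 1))
    (b4 : ∀ N, ∑' x, (n2 x : ℝ≥0∞) * A (N + 1) x ≤ r ^ (N + 1)) :
    ∃ P : Z d → ℝ, Sym P ∧ M2 P ∧
      ENNReal.ofReal (l1 (fun x => P x - if x = 0 then 1 else 0)) ≤ 4 * r ∧
      ENNReal.ofReal (m2 P) ≤ 4 * r ∧
      ∀ x, T x = P x + rcv (rcv P (Jr p)) T x := by
  classical
  have hrtop : r ≠ ∞ := by
    intro h
    rw [h] at hr
    have : (4 : ℝ≥0∞) * ∞ = ∞ := ENNReal.mul_top (by norm_num)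
    rw [this] at hr
    exact absurd hr (by simp)
  -- masses
  have hF0 : ∑' x, A 0 x ≤ 1 + r := by
    calc ∑' x, A 0 x = ∑' x, ((if x = 0 then 1 else 0) + if x = 0 then 0 else A 0 x) := by
          refine tsum_congr fun x => ?_
          split_ifs with h
          · rw [h, hA0, add_zero]
          · rw [zero_add]
      _ = (∑' x : Z d, if x = 0 then (1 : ℝ≥0∞) else 0) + ∑' x, (if x = 0 then 0 else A 0 x) :=
          ENNReal.tsum_add
      _ ≤ 1 + r := by
          rw [tsum_ite_eq]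
          gcongr
  have hgeo := geo hr
  set G : ℝ≥0∞ := ∑' x : Z d, J p x with hG
  have hGtop : G ≠ ∞ := J_mass p hp
  have hFtop : ∀ N, ∑' x, A N x ≠ ∞ := by
    intro N
    cases N with
    | zero => exact ne_top_of_le_ne_top (ENNReal.add_ne_top.2 ⟨by simp, hrtop⟩) hF0
    | succ N => exact ne_top_of_le_ne_top (ENNReal.pow_ne_top hrtop) (b3 N)
  have hAtop : ∀ N x, A N x ≠ ∞ := fun N x => ne_top_of_le_ne_top (hFtop N) (ENNReal.le_tsum x)
  have henT : ∀ x, en T x ≤ 1 := by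
    intro x
    unfold en
    rw [← ENNReal.ofReal_one]
    exact ENNReal.ofReal_le_ofReal (hT1 x)
  have hcvle : ∀ N x, cv (cv (A N) (J p)) (en T) x ≤ (∑' y, A N y) * G := by
    intro N x
    refine (cv_le_mass _ _ henT x).trans ?_
    rw [tsum_cv]
  have hcvtop : ∀ N x, cv (cv (A N) (J p)) (en T) x ≠ ∞ := fun N x =>
    ne_top_of_le_ne_top (ENNReal.mul_ne_top (hFtop N) hGtop) (hcvle N x)
  -- total mass over all N
  have hAll : ∑' N, ∑' x, A N x ≤ 1 + 4 * r := by
    rw [tsum_eq_zero_add' ENNReal.summable]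
    calc ∑' x, A 0 x + ∑' N, ∑' x, A (N + 1) x ≤ (1 + r) + ∑' N : ℕ, r ^ (N + 1) :=
          add_le_add hF0 (ENNReal.tsum_le_tsum b3)
      _ ≤ (1 + r) + 3 * r := by gcongr
      _ = 1 + 4 * r := by ring
  have hAlltop : ∑' N, ∑' x, A N x ≠ ∞ :=
    ne_top_of_le_ne_top (ENNReal.add_ne_top.2 ⟨by simp, ENNReal.mul_ne_top (by simp) hrtop⟩) hAll
  have hpt : ∀ x, ∑' N, A N x ≠ ∞ := by
    intro x
    refine ne_top_of_le_ne_top hAlltop ?_
    exact ENNReal.tsum_le_tsum fun N => ENNReal.le_tsum x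
  set a : ℕ → Z d → ℝ := fun N x => (A N x).toReal with ha
  have ha0 : ∀ N x, 0 ≤ a N x := fun N x => ENNReal.toReal_nonneg
  have hasum : ∀ x, Summable fun N => a N x := fun x => ENNReal.summable_toReal (hpt x)
  have haalt : ∀ x, Summable fun N => (-1 : ℝ) ^ N * a N x := by
    intro x
    refine Summable.of_abs ((hasum x).congr fun N => ?_)
    rw [abs_mul, abs_pow, abs_neg, abs_one, one_pow, one_mul, abs_of_nonneg (ha0 N x)]
  set P : Z d → ℝ := fun x => ∑' N : ℕ, (-1 : ℝ) ^ N * a N x with hP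
  have habs : ∀ N x, |(-1 : ℝ) ^ N * a N x| = a N x := by
    intro N x
    rw [abs_mul, abs_pow, abs_neg, abs_one, one_pow, one_mul, abs_of_nonneg (ha0 N x)]
  have htoA : ∀ N x, ENNReal.ofReal (a N x) = A N x := fun N x => ENNReal.ofReal_toReal (hAtop N x)
  -- pointwise bounds
  have hPle : ∀ x, ENNReal.ofReal |P x| ≤ ∑' N, A N x := by
    intro x
    have h1 : |P x| ≤ ∑' N, a N x := by
      have h2 := norm_tsum_le_tsum_norm (f := fun N : ℕ => (-1 : ℝ) ^ N * a N x)
        (by simpa only [Real.norm_eq_abs, habs] using hasum x)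
      simpa only [Real.norm_eq_abs, habs] using h2
    calc ENNReal.ofReal |P x| ≤ ENNReal.ofReal (∑' N, a N x) := ENNReal.ofReal_le_ofReal h1
      _ = ∑' N, A N x := by
        rw [ENNReal.ofReal_tsum_of_nonneg (fun N => ha0 N x) (hasum x)]
        exact tsum_congr fun N => htoA N x
  have hPdle : ∀ x, ENNReal.ofReal |P x - if x = 0 then 1 else 0| ≤
      (if x = 0 then 0 else A 0 x) + ∑' N, A (N + 1) x := by
    intro x
    have hs' : Summable fun N => a (N + 1) x := (summable_nat_add_iff 1).2 (hasum x)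
    have h3 : P x = a 0 x + ∑' N : ℕ, (-1 : ℝ) ^ (N + 1) * a (N + 1) x := by
      have := (haalt x).tsum_eq_zero_add
      simp only [pow_zero, one_mul] at this
      exact this
    have h4 : |∑' N : ℕ, (-1 : ℝ) ^ (N + 1) * a (N + 1) x| ≤ ∑' N, a (N + 1) x := by
      have h2 := norm_tsum_le_tsum_norm (f := fun N : ℕ => (-1 : ℝ) ^ (N + 1) * a (N + 1) x)
        (by simpa only [Real.norm_eq_abs, habs] using hs')
      simpa only [Real.norm_eq_abs, habs] using h2
    have h5 : |a 0 x - if x = 0 then 1 else 0| = if x = 0 then 0 else a 0 x := by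
      split_ifs with h
      · rw [h, ha]
        simp [hA0]
      · rw [sub_zero, abs_of_nonneg (ha0 0 x)]
    have h6 : |P x - if x = 0 then 1 else 0| ≤ (if x = 0 then 0 else a 0 x) + ∑' N, a (N + 1) x := by
      rw [h3]
      calc |a 0 x + (∑' N : ℕ, (-1 : ℝ) ^ (N + 1) * a (N + 1) x) - if x = 0 then 1 else 0|
          = |(a 0 x - if x = 0 then 1 else 0) + ∑' N : ℕ, (-1 : ℝ) ^ (N + 1) * a (N + 1) x| := by
            congr 1
            ring
        _ ≤ |a 0 x - if x = 0 then 1 else 0| + |∑' N : ℕ, (-1 : ℝ) ^ (N + 1) * a (N + 1) x| :=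
            abs_add_le _ _
        _ ≤ _ := by
            rw [h5]
            gcongr
    calc ENNReal.ofReal |P x - if x = 0 then 1 else 0|
        ≤ ENNReal.ofReal ((if x = 0 then 0 else a 0 x) + ∑' N, a (N + 1) x) :=
          ENNReal.ofReal_le_ofReal h6
      _ = (if x = 0 then 0 else A 0 x) + ∑' N, A (N + 1) x := by
          rw [ENNReal.ofReal_add (by split_ifs <;> [exact le_rfl; exact ha0 0 x])
            (tsum_nonneg fun N => ha0 (N + 1) x),
            ENNReal.ofReal_tsum_of_nonneg (fun N => ha0 (N + 1) x) hs']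
          congr 1
          · split_ifs
            · simp
            · exact htoA 0 x
          · exact tsum_congr fun N => htoA (N + 1) x
  -- sums over x
  have hSum1 : ∑' x, ∑' N, A N x ≤ 1 + 4 * r := by
    rw [ENNReal.tsum_comm]
    exact hAll
  have hSumw : ∑' x, (n2 x : ℝ≥0∞) * ∑' N, A N x ≤ 4 * r := by
    simp_rw [← ENNReal.tsum_mul_left]
    rw [ENNReal.tsum_comm, tsum_eq_zero_add' ENNReal.summable]
    calc ∑' x, (n2 x : ℝ≥0∞) * A 0 x + ∑' N, ∑' x, (n2 x : ℝ≥0∞) * A (N + 1) x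
        ≤ r + ∑' N : ℕ, r ^ (N + 1) := add_le_add b2 (ENNReal.tsum_le_tsum b4)
      _ ≤ r + 3 * r := by gcongr
      _ = 4 * r := by ring
  have hSumd : ∑' x, ((if x = 0 then 0 else A 0 x) + ∑' N, A (N + 1) x) ≤ 4 * r := by
    rw [ENNReal.tsum_add, ENNReal.tsum_comm (f := fun x N => A (N + 1) x)]
    calc ∑' x, (if x = 0 then 0 else A 0 x) + ∑' N, ∑' x, A (N + 1) x
        ≤ r + ∑' N : ℕ, r ^ (N + 1) := add_le_add b1 (ENNReal.tsum_le_tsum b3)
      _ ≤ r + 3 * r := by gcongr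
      _ = 4 * r := by ring
  have h4r : (4 : ℝ≥0∞) * r ≠ ∞ := ENNReal.mul_ne_top (by simp) hrtop
  have hM2 : M2 P := by
    have h1 : ∑' x, ENNReal.ofReal ((1 + (n2 x : ℝ)) * |P x|) ≠ ∞ := by
      refine ne_top_of_le_ne_top (b := (1 + 4 * r) + 4 * r)
        (ENNReal.add_ne_top.2 ⟨ENNReal.add_ne_top.2 ⟨by simp, h4r⟩, h4r⟩) ?_
      calc ∑' x, ENNReal.ofReal ((1 + (n2 x : ℝ)) * |P x|)
          ≤ ∑' x, ((∑' N, A N x) + (n2 x : ℝ≥0∞) * ∑' N, A N x) := by
            refine ENNReal.tsum_le_tsum fun x => ?_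
            rw [add_mul, one_mul, ENNReal.ofReal_add (abs_nonneg _) (by positivity),
              ENNReal.ofReal_mul (by positivity), ENNReal.ofReal_natCast]
            gcongr
            · exact hPle x
            · exact hPle x
        _ ≤ _ := by
            rw [ENNReal.tsum_add]
            exact add_le_add hSum1 hSumw
    have h2 := ENNReal.summable_toReal h1
    refine h2.congr fun x => ?_
    rw [ENNReal.toReal_ofReal (by positivity)]
  have hl1 : ENNReal.ofReal (l1 (fun x => P x - if x = 0 then 1 else 0)) ≤ 4 * r := by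
    have h1 : ∑' x, ENNReal.ofReal |P x - if x = 0 then 1 else 0| ≤ 4 * r :=
      (ENNReal.tsum_le_tsum hPdle).trans hSumd
    have h2 : Summable fun x => |P x - if x = 0 then 1 else 0| := by
      have h3 := ENNReal.summable_toReal (ne_top_of_le_ne_top h4r h1)
      refine h3.congr fun x => ?_
      rw [ENNReal.toReal_ofReal (abs_nonneg _)]
    unfold l1
    rw [ENNReal.ofReal_tsum_of_nonneg (fun x => abs_nonneg _) h2]
    exact h1
  have hm2 : ENNReal.ofReal (m2 P) ≤ 4 * r := by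
    unfold m2
    rw [ENNReal.ofReal_tsum_of_nonneg (fun x => by positivity) hM2.nw]
    refine le_trans (ENNReal.tsum_le_tsum fun x => ?_) hSumw
    rw [ENNReal.ofReal_mul (by positivity), ENNReal.ofReal_natCast]
    gcongr
    exact hPle x
  refine ⟨P, ⟨fun σ x => ?_, fun i x => ?_⟩, hM2, hl1, hm2, fun x => ?_⟩
  · exact tsum_congr fun N => by simp only [ha, hs1 N σ x]
  · exact tsum_congr fun N => by simp only [ha, hs2 N i x]
  -- the expansion
  set c : ℕ → ℝ := fun N => (cv (cv (A N) (J p)) (en T) x).toReal with hc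
  have hTx : (en T x).toReal = T x := ENNReal.toReal_ofReal (hT0 x)
  have hRtop : ∀ N, R N x ≠ ∞ := by
    intro N
    cases N with
    | zero =>
      have h1 : R 0 x ≤ A 0 x + cv (cv (A 0) (J p)) (en T) x := by
        rw [← e1 x]
        exact le_add_self
      exact ne_top_of_le_ne_top (ENNReal.add_ne_top.2 ⟨hAtop 0 x, hcvtop 0 x⟩) h1
    | succ N =>
      have h1 : R (N + 1) x ≤ A (N + 1) x + cv (cv (A (N + 1)) (J p)) (en T) x := by
        rw [← e2 N x]
        exact le_add_self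
      exact ne_top_of_le_ne_top (ENNReal.add_ne_top.2 ⟨hAtop (N + 1) x, hcvtop (N + 1) x⟩) h1
  have r1 : T x + (R 0 x).toReal = a 0 x + c 0 := by
    have := congrArg ENNReal.toReal (e1 x)
    rw [ENNReal.toReal_add (ne_top_of_le_ne_top (by simp) (henT x)) (hRtop 0),
      ENNReal.toReal_add (hAtop 0 x) (hcvtop 0 x), hTx] at this
    exact this
  have r2 : ∀ N, (R N x).toReal + (R (N + 1) x).toReal = a (N + 1) x + c (N + 1) := by
    intro N
    have := congrArg ENNReal.toReal (e2 N x)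
    rw [ENNReal.toReal_add (hRtop N) (hRtop (N + 1)),
      ENNReal.toReal_add (hAtop (N + 1) x) (hcvtop (N + 1) x)] at this
    exact this
  have htel : ∀ N, T x = ∑ n ∈ Finset.range (N + 1), (-1 : ℝ) ^ n * (a n x + c n) +
      (-1) ^ (N + 1) * (R N x).toReal := by
    intro N
    induction N with
    | zero =>
      rw [zero_add, Finset.sum_range_one, pow_zero, one_mul, pow_one]
      linarith
    | succ N ih =>
      rw [Finset.sum_range_succ, ih, ← r2 N]
      ring
  have hRlim : Tendsto (fun N => (R N x).toReal) atTop (𝓝 0) := by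
    have h1 : ∀ N, R (N + 1) x ≤ r ^ (N + 1) * (1 + G) := by
      intro N
      calc R (N + 1) x ≤ A (N + 1) x + cv (cv (A (N + 1)) (J p)) (en T) x := by
            rw [← e2 N x]
            exact le_add_self
        _ ≤ r ^ (N + 1) + r ^ (N + 1) * G := by
            refine add_le_add ((ENNReal.le_tsum x).trans (b3 N)) ((hcvle _ x).trans ?_)
            gcongr
            exact b3 N
        _ = _ := by ring
    have hρ : r.toReal < 1 := by
      have h2 : r ≤ 4⁻¹ := by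
        rw [ENNReal.le_inv_iff_mul_le, mul_comm]
        exact hr
      have h3 := ENNReal.toReal_mono (by simp) h2
      have h4 : ((4 : ℝ≥0∞)⁻¹).toReal = 1 / 4 := by
        rw [ENNReal.toReal_inv]
        norm_num
      rw [h4] at h3
      linarith
    have h2 : ∀ N, (R (N + 1) x).toReal ≤ r.toReal ^ (N + 1) * (1 + G).toReal := by
      intro N
      have h3 := ENNReal.toReal_mono (ENNReal.mul_ne_top (ENNReal.pow_ne_top hrtop)
        (ENNReal.add_ne_top.2 ⟨by simp, hGtop⟩)) (h1 N)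
      rwa [ENNReal.toReal_mul, ENNReal.toReal_pow] at h3
    rw [← tendsto_add_atTop_iff_nat 1]
    refine squeeze_zero (fun N => ENNReal.toReal_nonneg) h2 ?_
    have h3 : Tendsto (fun N : ℕ => r.toReal ^ (N + 1)) atTop (𝓝 0) :=
      (tendsto_add_atTop_iff_nat 1).2
        (tendsto_pow_atTop_nhds_zero_of_lt_one ENNReal.toReal_nonneg hρ)
    simpa using h3.mul_const ((1 + G).toReal)
  -- summability of the triple series
  set Ψ : ℕ → Z d × Z d → ℝ≥0∞ := fun N q => A N q.2 * J p (q.1 - q.2) * en T (x - q.1) with hΨ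
  have hΨsum : ∀ N, ∑' q, Ψ N q = cv (cv (A N) (J p)) (en T) x := by
    intro N
    rw [ENNReal.tsum_prod']
    unfold cv
    refine tsum_congr fun y => ?_
    rw [← ENNReal.tsum_mul_right]
  have hΨall : ∑' q : ℕ × (Z d × Z d), Ψ q.1 q.2 ≠ ∞ := by
    rw [ENNReal.tsum_prod']
    refine ne_top_of_le_ne_top (ENNReal.mul_ne_top hAlltop hGtop) ?_
    rw [← ENNReal.tsum_mul_right]
    refine ENNReal.tsum_le_tsum fun N => ?_
    rw [hΨsum N]
    exact hcvle N x
  have hJtop : ∀ y : Z d, J p y ≠ ∞ := fun y => ne_top_of_le_ne_top hGtop (ENNReal.le_tsum y)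
  have hTtop : ∀ y : Z d, en T y ≠ ∞ := fun y => ne_top_of_le_ne_top (by simp) (henT y)
  have hΨtop : ∀ N q, Ψ N q ≠ ∞ := fun N q =>
    ENNReal.mul_ne_top (ENNReal.mul_ne_top (hAtop N _) (hJtop _)) (hTtop _)
  have hJr : ∀ y : Z d, (J p y).toReal = Jr p y := by
    intro y
    unfold J Jr
    split_ifs
    · exact ENNReal.toReal_ofReal hp
    · simp
  have hΨreal : ∀ N q, (Ψ N q).toReal = a N q.2 * Jr p (q.1 - q.2) * T (x - q.1) := by
    intro N q
    rw [hΨ]
    simp only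
    rw [ENNReal.toReal_mul, ENNReal.toReal_mul, hJr]
    congr 1
    exact ENNReal.toReal_ofReal (hT0 _)
  have hΦ : Summable fun q : ℕ × (Z d × Z d) =>
      (-1 : ℝ) ^ q.1 * (a q.1 q.2.2 * Jr p (q.2.1 - q.2.2) * T (x - q.2.1)) := by
    have h1 := ENNReal.summable_toReal hΨall
    refine Summable.of_abs (h1.congr fun q => ?_)
    rw [hΨreal, abs_mul, abs_pow, abs_neg, abs_one, one_pow, one_mul, abs_of_nonneg]
    rw [← hΨreal]
    exact ENNReal.toReal_nonneg
  have hcsum : Summable fun N : ℕ => (-1 : ℝ) ^ N * c N := by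
    have h1 : Summable fun N => c N := by
      refine ENNReal.summable_toReal (ne_top_of_le_ne_top (ENNReal.mul_ne_top hAlltop hGtop) ?_)
      rw [← ENNReal.tsum_mul_right]
      exact ENNReal.tsum_le_tsum fun N => hcvle N x
    refine Summable.of_abs (h1.congr fun N => ?_)
    rw [abs_mul, abs_pow, abs_neg, abs_one, one_pow, one_mul, abs_of_nonneg]
    exact ENNReal.toReal_nonneg
  have hcval : ∀ N, (-1 : ℝ) ^ N * c N = ∑' q : Z d × Z d,
      (-1 : ℝ) ^ N * (a N q.2 * Jr p (q.1 - q.2) * T (x - q.1)) := by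
    intro N
    rw [tsum_mul_left]
    congr 1
    rw [hc]
    simp only
    rw [← hΨsum N, ENNReal.tsum_toReal_eq (hΨtop N)]
    exact tsum_congr fun q => hΨreal N q
  have hmain : ∑' N : ℕ, (-1 : ℝ) ^ N * c N = rcv (rcv P (Jr p)) T x := by
    simp_rw [hcval]
    have hcomm := Summable.tsum_comm (f := fun (N : ℕ) (q : Z d × Z d) =>
      (-1 : ℝ) ^ N * (a N q.2 * Jr p (q.1 - q.2) * T (x - q.1))) hΦ
    refine hcomm.symm.trans ?_
    have h1 : ∀ q : Z d × Z d, ∑' N : ℕ, (-1 : ℝ) ^ N * (a N q.2 * Jr p (q.1 - q.2) * T (x - q.1)) =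
        P q.2 * Jr p (q.1 - q.2) * T (x - q.1) := by
      intro q
      rw [hP]
      simp only
      rw [← tsum_mul_right, ← tsum_mul_right]
      exact tsum_congr fun N => by ring
    simp_rw [h1]
    have h2 : Summable fun q : Z d × Z d => P q.2 * Jr p (q.1 - q.2) * T (x - q.1) := by
      have h3 := hΦ.prod_symm.prod
      refine h3.congr fun q => ?_
      exact h1 q
    rw [h2.tsum_prod]
    unfold rcv
    refine tsum_congr fun y => ?_
    exact tsum_mul_right (f := fun c : Z d => P c * Jr p (y - c)) (a := T (x - y))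
  have hlim1 : Tendsto (fun N => ∑ n ∈ Finset.range (N + 1), (-1 : ℝ) ^ n * (a n x + c n)) atTop
      (𝓝 (∑' n : ℕ, (-1 : ℝ) ^ n * (a n x + c n))) := by
    have h1 : Summable fun n : ℕ => (-1 : ℝ) ^ n * (a n x + c n) :=
      ((haalt x).add hcsum).congr fun n => by ring
    exact (tendsto_add_atTop_iff_nat 1).2 h1.hasSum.tendsto_sum_nat
  have hlim2 : Tendsto (fun N : ℕ => (-1 : ℝ) ^ (N + 1) * (R N x).toReal) atTop (𝓝 0) := by
    rw [tendsto_zero_iff_abs_tendsto_zero]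
    refine hRlim.congr fun N => ?_
    rw [Function.comp_apply, abs_mul, abs_pow, abs_neg, abs_one, one_pow, one_mul, abs_of_nonneg]
    exact ENNReal.toReal_nonneg
  have hfin := hlim1.add hlim2
  have hconst : Tendsto (fun _ : ℕ => T x) atTop (𝓝 (T x)) := tendsto_const_nhds
  have heq := tendsto_nhds_unique (hconst.congr htel) hfin
  rw [heq, add_zero, ← hmain, hP]
  simp only
  rw [← (haalt x).tsum_add hcsum]
  exact tsum_congr fun n => by ring

end Pool.Agent.PB.AF
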