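import Pool.Agent.PB.Basic
import Pool.Agent.PB.AF.Iface

/-!
PB-AF-SymP.  Invariance of `tau` and of the lace coefficients `PiN` under the automorphisms of the lattice fixing `0`.

Plan. `Pr_relabel`: the image of a product measure under a permutation of the index set
(`MeasureTheory.Measure.infinitePi_map_piCongrLeft` or uniqueness `Measure.eq_infinitePi`); since `ω ↦ ω ∘ e` is a measurable
equivalence this holds for ALL sets (`MeasurableEquiv.map_apply` or `MeasurePreserving.measure_preimage_equiv`).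
For `φ : V d ≃ V d` with `φ 0 = 0` and `l1 (φ y - φ x) = l1 (y - x)` put `e (inl s) = inl (s.map φ)`, `e (inr (v, b)) = inr (φ v, b)`
and `ω' = ω ∘ e`.  Then `opn p ω' = (Sym2.map φ) ⁻¹' opn p ω`, `Rch (opn p ω') x y ↔ Rch (opn p ω) (φ x) (φ y)`, similarly
for `Cl`, `del1`, `Sep`, `DConn`, `ClA`, `EPrime` (everything is defined by quantifiers over vertices and edges; prove the transport
lemmas for an arbitrary `O : Set (Sym2 W)` and an equivalence `φ`, with `O' = (Sym2.map φ) ⁻¹' O`).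
Hence `ker p (ofSet (φ '' A)) (φ y) (φ u) (φ v) (K.map φ) = ker p (ofSet A) y u v K`, `Ecal p F (φA) (φ y) = Ecal p (F ∘ φ) A y`
(reindex the three sums: `Equiv.tsum_eq`, for finsets the equivalence `Finset.mapEmbedding`/`Equiv.finsetCongr φ`),
`Xi p (φ x) (φ A) (φ y) = Xi p x A y`, and by induction `PiN p N (φ x) = PiN p N x`.
Finally take `φ x = fun i => x (σ i)` and `φ x = update x i (-x i)`.
-/

set_option autoImplicit false
open MeasureTheory Filter Topology
open scoped ENNReal BigOperators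

namespace Pool.Agent.PB.AFB

variable {d : ℕ}

theorem Pr_relabel (e : Ix d ≃ Ix d) (E : Set (Om d)) :
    Pr d {ω | (fun i => ω (e i)) ∈ E} = Pr d E := by
  have h1 := Measure.infinitePi_map_piCongrLeft (fun _ : Ix d => (volume : Measure unitInterval))
    e.symm
  have h2 : Pr d E =
      (Pr d).map (MeasurableEquiv.piCongrLeft (fun _ : Ix d => unitInterval) e.symm) E := by
    unfold Pr
    rw [h1]
  rw [h2, MeasurableEquiv.map_apply]
  congr 1
  ext ω
  have h3 : (fun i => ω (e i)) =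
      MeasurableEquiv.piCongrLeft (fun _ : Ix d => unitInterval) e.symm ω := by
    funext i
    have h4 := Equiv.piCongrLeft_apply_apply (P := fun _ : Ix d => unitInterval) e.symm ω (e i)
    rw [Equiv.symm_apply_apply] at h4
    exact h4.symm
  rw [Set.mem_ofPred_eq, h3]
  rfl

/-! ### Transport of edge sets -/

section Transport

variable {W : Type*}

/-- preimage of an edge set -/
private def pbk (φ : W ≃ W) (O : Set (Sym2 W)) : Set (Sym2 W) := {e | Sym2.map φ e ∈ O}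

private theorem mem_pbk (φ : W ≃ W) (O : Set (Sym2 W)) (x y : W) :
    s(x, y) ∈ pbk φ O ↔ s(φ x, φ y) ∈ O := Iff.rfl

private theorem Rch_pbk (φ : W ≃ W) (O : Set (Sym2 W)) (x y : W) :
    Rch (pbk φ O) x y ↔ Rch O (φ x) (φ y) := by
  constructor
  · intro h
    exact Relation.ReflTransGen.lift φ (fun a b hab => hab) _ _ h
  · intro h
    have h1 : Rch (pbk φ O) (φ.symm (φ x)) (φ.symm (φ y)) := by
      refine Relation.ReflTransGen.lift φ.symm (fun a b hab => ?_) _ _ h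
      show s(φ.symm a, φ.symm b) ∈ pbk φ O
      rw [mem_pbk, Equiv.apply_symm_apply, Equiv.apply_symm_apply]
      exact hab
    rwa [Equiv.symm_apply_apply, Equiv.symm_apply_apply] at h1

private theorem Cl_pbk (φ : W ≃ W) (O : Set (Sym2 W)) (x : W) :
    Cl (pbk φ O) x = φ ⁻¹' Cl O (φ x) := by
  ext y
  exact Rch_pbk φ O x y

private theorem del1_pbk (φ : W ≃ W) (O : Set (Sym2 W)) (e : Sym2 W) :
    del1 (pbk φ O) e = pbk φ (del1 O (Sym2.map φ e)) := by
  ext f
  constructor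
  · rintro ⟨h1, h2⟩
    exact ⟨h1, fun h => h2 (Sym2.map.injective φ.injective h)⟩
  · rintro ⟨h1, h2⟩
    exact ⟨h1, fun h => h2 (congrArg (Sym2.map φ) h)⟩

/-- preimage of a deletion -/
private def Dpb (φ : W ≃ W) (A : Del W) : Del W := ⟨φ ⁻¹' A.S, pbk φ A.F⟩

private theorem Dpb_ofSet (φ : W ≃ W) (S : Set W) :
    Dpb φ (Del.ofSet S) = Del.ofSet (φ ⁻¹' S) := rfl

private theorem rem_pbk (φ : W ≃ W) (A : Del W) (O : Set (Sym2 W)) :
    (Dpb φ A).rem (pbk φ O) = pbk φ (A.rem O) := by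
  ext f
  constructor
  · rintro ⟨h1, h2, h3⟩
    refine ⟨h1, h2, ?_⟩
    intro x hx
    rw [Sym2.mem_map] at hx
    obtain ⟨y, hy, rfl⟩ := hx
    exact h3 y hy
  · rintro ⟨h1, h2, h3⟩
    refine ⟨h1, h2, ?_⟩
    intro x hx
    exact h3 (φ x) (Sym2.mem_map.2 ⟨x, hx, rfl⟩)

private theorem mem_ClA_pbk (φ : W ≃ W) (A : Del W) (O : Set (Sym2 W)) (x y : W) :
    x ∈ ClA (Dpb φ A) (pbk φ O) y ↔ φ x ∈ ClA A O (φ y) := by
  rw [mem_ClA, mem_ClA, rem_pbk, Rch_pbk]
  rfl

private theorem Sep_pbk (φ : W ≃ W) (O : Set (Sym2 W)) (e : Sym2 W) (y u : W) :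
    Sep (pbk φ O) e y {u} ↔ Sep O (Sym2.map φ e) (φ y) {φ u} := by
  unfold Sep RchT
  rw [del1_pbk]
  constructor
  · rintro ⟨h1, h2⟩
    refine ⟨h1, ?_⟩
    rintro ⟨t, ht, h3⟩
    rw [Set.mem_singleton_iff] at ht
    subst ht
    exact h2 ⟨u, rfl, (Rch_pbk _ _ _ _).2 h3⟩
  · rintro ⟨h1, h2⟩
    refine ⟨h1, ?_⟩
    rintro ⟨t, ht, h3⟩
    rw [Set.mem_singleton_iff] at ht
    subst ht
    exact h2 ⟨_, rfl, (Rch_pbk _ _ _ _).1 h3⟩

private theorem sym2_surj (φ : W ≃ W) (e : Sym2 W) : ∃ f : Sym2 W, Sym2.map φ f = e := by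
  refine ⟨Sym2.map φ.symm e, ?_⟩
  rw [Sym2.map_map]
  have h : (φ ∘ φ.symm) = id := by
    funext x
    simp
  rw [h, Sym2.map_id]
  rfl

private theorem EPrime_pbk (φ : W ≃ W) (A : Del W) (O : Set (Sym2 W)) (y u : W) :
    EPrime (pbk φ O) y u (Dpb φ A) ↔ EPrime O (φ y) (φ u) A := by
  unfold EPrime
  rw [Rch_pbk, mem_ClA_pbk]
  refine and_congr_right fun _ => and_congr_right fun _ => ?_
  constructor
  · intro h e he u' hu' hr
    obtain ⟨f, rfl⟩ := sym2_surj φ e
    rw [Sym2.mem_map] at hu'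
    obtain ⟨w, hw, rfl⟩ := hu'
    have h1 := h f ((Sep_pbk φ O f y u).2 he) w hw
    rw [del1_pbk, Rch_pbk, mem_ClA_pbk] at h1
    exact h1 hr
  · intro h f hf w hw hr
    rw [mem_ClA_pbk]
    rw [del1_pbk, Rch_pbk] at hr
    exact h _ ((Sep_pbk φ O f y u).1 hf) _ (Sym2.mem_map.2 ⟨w, hw, rfl⟩) hr

private theorem DConn_pbk (φ : W ≃ W) (O : Set (Sym2 W)) (y u : W) :
    DConn (pbk φ O) y u ↔ DConn O (φ y) (φ u) := by
  unfold DConn
  rw [Rch_pbk]
  refine and_congr_right fun _ => ?_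
  constructor
  · intro h e he
    obtain ⟨f, rfl⟩ := sym2_surj φ e
    exact h f ((Sep_pbk φ O f y u).2 he)
  · intro h f hf
    exact h _ ((Sep_pbk φ O f y u).1 hf)

end Transport

/-! ### Relabelling -/

/-- the relabelling given by an equivalence of the vertices -/
private def rl (φ : V d ≃ V d) : Ix d ≃ Ix d where
  toFun := Sum.map (Sym2.map φ) (fun q => (φ q.1, q.2))
  invFun := Sum.map (Sym2.map φ.symm) (fun q => (φ.symm q.1, q.2))
  left_inv := by
    rintro (e | ⟨v, b⟩)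
    · show Sum.inl (Sym2.map φ.symm (Sym2.map φ e)) = Sum.inl e
      rw [Sym2.map_map]
      have h : (φ.symm ∘ φ) = id := by
        funext x
        simp
      rw [h, Sym2.map_id]
      rfl
    · show Sum.inr (φ.symm (φ v), b) = Sum.inr (v, b)
      rw [Equiv.symm_apply_apply]
  right_inv := by
    rintro (e | ⟨v, b⟩)
    · show Sum.inl (Sym2.map φ (Sym2.map φ.symm e)) = Sum.inl e
      rw [Sym2.map_map]
      have h : (φ ∘ φ.symm) = id := by
        funext x
        simp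
      rw [h, Sym2.map_id]
      rfl
    · show Sum.inr (φ (φ.symm v), b) = Sum.inr (v, b)
      rw [Equiv.apply_symm_apply]

private theorem opn_rl (φ : V d ≃ V d) (h : ∀ x y, l1 (φ y - φ x) = l1 (y - x)) (p : ℝ)
    (ω : Om d) : opn p (fun i => ω (rl φ i)) = pbk φ (opn p ω) := by
  ext e
  have h1 : e ∈ (lat d).edgeSet ↔ Sym2.map φ e ∈ (lat d).edgeSet := by
    induction e using Sym2.ind with
    | _ a b =>
      rw [Sym2.map_mk, SimpleGraph.mem_edgeSet, SimpleGraph.mem_edgeSet]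
      show l1 (b - a) = 1 ↔ l1 (φ b - φ a) = 1
      rw [h]
  constructor
  · rintro ⟨h2, h3⟩
    exact ⟨h1.1 h2, h3⟩
  · rintro ⟨h2, h3⟩
    exact ⟨h1.2 h2, h3⟩

private theorem Pr_pbk (φ : V d ≃ V d) (h : ∀ x y, l1 (φ y - φ x) = l1 (y - x)) (p : ℝ)
    (P : Set (Sym2 (V d)) → Prop) :
    Pr d {ω | P (pbk φ (opn p ω))} = Pr d {ω | P (opn p ω)} := by
  rw [← Pr_relabel (rl φ) {ω | P (opn p ω)}]
  congr 1
  ext ω
  rw [Set.mem_ofPred_eq, Set.mem_ofPred_eq, Set.mem_ofPred_eq, opn_rl φ h]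

theorem tau_aut (φ : V d ≃ V d) (h0 : φ 0 = 0) (h : ∀ x y, l1 (φ y - φ x) = l1 (y - x)) (p : ℝ)
    (x : V d) : tau p (φ x) = tau p x := by
  unfold tau
  rw [← Pr_pbk φ h p (fun O => Rch O 0 x)]
  congr 1
  ext ω
  rw [Set.mem_ofPred_eq, Set.mem_ofPred_eq, Rch_pbk, h0]

private theorem J_aut (φ : V d ≃ V d) (h : ∀ x y, l1 (φ y - φ x) = l1 (y - x)) (p : ℝ)
    (u v : V d) : J p (φ v - φ u) = J p (v - u) := by
  unfold J
  rw [h]

private theorem pre_eq_iff (φ : V d ≃ V d) (C : Set (V d)) (K : Finset (V d)) :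
    φ ⁻¹' C = (K : Set (V d)) ↔ C = ((K.map φ.toEmbedding : Finset (V d)) : Set (V d)) := by
  rw [Finset.coe_map, Equiv.coe_toEmbedding]
  constructor
  · intro h
    rw [← h, Equiv.image_preimage]
  · intro h
    rw [h, Equiv.preimage_image]

private theorem ker_aut (φ : V d ≃ V d) (h : ∀ x y, l1 (φ y - φ x) = l1 (y - x)) (p : ℝ)
    (A : Del (V d)) (y u v : V d) (K : Finset (V d)) :
    ker p A (φ y) (φ u) (φ v) (K.map φ.toEmbedding) = ker p (Dpb φ A) y u v K := by
  unfold ker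
  rw [J_aut φ h, ← Pr_pbk φ h p (fun O => EPrime O y u (Dpb φ A) ∧
    Cl (del1 O s(u, v)) y = (K : Set (V d)))]
  congr 2
  ext ω
  rw [Set.mem_ofPred_eq, Set.mem_ofPred_eq, EPrime_pbk, del1_pbk, Cl_pbk, pre_eq_iff]
  rfl

private theorem ker0_aut (φ : V d ≃ V d) (h0 : φ 0 = 0)
    (h : ∀ x y, l1 (φ y - φ x) = l1 (y - x)) (p : ℝ) (u v : V d) (K : Finset (V d)) :
    ker0 p (φ u) (φ v) (K.map φ.toEmbedding) = ker0 p u v K := by
  unfold ker0
  rw [J_aut φ h, ← Pr_pbk φ h p (fun O => DConn O 0 u ∧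
    Cl (del1 O s(u, v)) 0 = (K : Set (V d)))]
  congr 2
  ext ω
  rw [Set.mem_ofPred_eq, Set.mem_ofPred_eq, DConn_pbk, del1_pbk, Cl_pbk, pre_eq_iff, h0]
  rfl

/-- transport of a function on the state space -/
private def TF (φ : V d ≃ V d) (F : Finset (V d) → V d → ℝ≥0∞) : Finset (V d) → V d → ℝ≥0∞ :=
  fun K v => F (K.map φ.toEmbedding) (φ v)

private theorem Ecal_aut (φ : V d ≃ V d) (h : ∀ x y, l1 (φ y - φ x) = l1 (y - x)) (p : ℝ)
    (F : Finset (V d) → V d → ℝ≥0∞) (A : Del (V d)) (y : V d) :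
    Ecal p F A (φ y) = Ecal p (TF φ F) (Dpb φ A) y := by
  unfold Ecal
  rw [← φ.tsum_eq]
  refine tsum_congr fun u => ?_
  rw [← φ.tsum_eq]
  refine tsum_congr fun v => ?_
  rw [← (Equiv.finsetCongr φ).tsum_eq]
  refine tsum_congr fun K => ?_
  rw [Equiv.finsetCongr_apply, ker_aut φ h]
  rfl

private theorem Ecal0_aut (φ : V d ≃ V d) (h0 : φ 0 = 0)
    (h : ∀ x y, l1 (φ y - φ x) = l1 (y - x)) (p : ℝ) (F : Finset (V d) → V d → ℝ≥0∞) :
    Ecal0 p F = Ecal0 p (TF φ F) := by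
  unfold Ecal0
  rw [← φ.tsum_eq]
  refine tsum_congr fun u => ?_
  rw [← φ.tsum_eq]
  refine tsum_congr fun v => ?_
  rw [← (Equiv.finsetCongr φ).tsum_eq]
  refine tsum_congr fun K => ?_
  rw [Equiv.finsetCongr_apply, ker0_aut φ h0 h]
  rfl

private theorem pre_map (φ : V d ≃ V d) (K : Finset (V d)) :
    φ ⁻¹' ((K.map φ.toEmbedding : Finset (V d)) : Set (V d)) = (K : Set (V d)) := by
  rw [Finset.coe_map, Equiv.coe_toEmbedding, Equiv.preimage_image]

private theorem EcalF_aut (φ : V d ≃ V d) (h : ∀ x y, l1 (φ y - φ x) = l1 (y - x)) (p : ℝ)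
    (F : Finset (V d) → V d → ℝ≥0∞) : TF φ (EcalF p F) = EcalF p (TF φ F) := by
  funext K v
  show Ecal p F (Del.ofSet ((K.map φ.toEmbedding : Finset (V d)) : Set (V d))) (φ v) =
    Ecal p (TF φ F) (Del.ofSet (K : Set (V d))) v
  rw [Ecal_aut φ h, Dpb_ofSet, pre_map]

private theorem iter_aut (φ : V d ≃ V d) (h : ∀ x y, l1 (φ y - φ x) = l1 (y - x)) (p : ℝ) (N : ℕ)
    (F : Finset (V d) → V d → ℝ≥0∞) :
    TF φ ((EcalF p)^[N] F) = (EcalF p)^[N] (TF φ F) := by
  induction N with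
  | zero => rfl
  | succ N ih => rw [Function.iterate_succ_apply', Function.iterate_succ_apply', EcalF_aut φ h, ih]

theorem PiN_aut (φ : V d ≃ V d) (h0 : φ 0 = 0) (h : ∀ x y, l1 (φ y - φ x) = l1 (y - x)) (p : ℝ)
    (N : ℕ) (x : V d) : PiN p N (φ x) = PiN p N x := by
  cases N with
  | zero =>
    show Pr d {ω | DConn (opn p ω) 0 (φ x)} = Pr d {ω | DConn (opn p ω) 0 x}
    rw [← Pr_pbk φ h p (fun O => DConn O 0 x)]
    congr 1
    ext ω
    rw [Set.mem_ofPred_eq, Set.mem_ofPred_eq, DConn_pbk, h0]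
  | succ N =>
    show Ecal0 p ((EcalF p)^[N] (fun A y => Xi p (φ x) (Del.ofSet (A : Set (V d))) y)) =
      Ecal0 p ((EcalF p)^[N] (fun A y => Xi p x (Del.ofSet (A : Set (V d))) y))
    rw [Ecal0_aut φ h0 h, iter_aut φ h]
    congr 2
    funext K v
    show Pr d {ω | EPrime (opn p ω) (φ v) (φ x)
      (Del.ofSet ((K.map φ.toEmbedding : Finset (V d)) : Set (V d)))} =
        Pr d {ω | EPrime (opn p ω) v x (Del.ofSet (K : Set (V d)))}
    rw [← Pr_pbk φ h p (fun O => EPrime O v x (Del.ofSet (K : Set (V d))))]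
    congr 1
    ext ω
    rw [Set.mem_ofPred_eq, Set.mem_ofPred_eq, ← EPrime_pbk, Dpb_ofSet, pre_map]

/-- permutation of the coordinates -/
private def ePerm (σ : Equiv.Perm (Fin d)) : V d ≃ V d where
  toFun x := fun i => x (σ i)
  invFun x := fun i => x (σ.symm i)
  left_inv x := by
    funext i
    simp
  right_inv x := by
    funext i
    simp

private theorem ePerm_l1 (σ : Equiv.Perm (Fin d)) (x y : V d) :
    l1 (ePerm σ y - ePerm σ x) = l1 (y - x) :=
  Equiv.sum_comp σ (fun i => |(y - x) i|)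

/-- reflection of a coordinate -/
private def eFlip (i : Fin d) : V d ≃ V d where
  toFun x := Function.update x i (-x i)
  invFun x := Function.update x i (-x i)
  left_inv x := by
    funext j
    by_cases hj : j = i
    · subst hj
      simp
    · simp [Function.update_of_ne hj]
  right_inv x := by
    funext j
    by_cases hj : j = i
    · subst hj
      simp
    · simp [Function.update_of_ne hj]

private theorem eFlip_l1 (i : Fin d) (x y : V d) :
    l1 (eFlip i y - eFlip i x) = l1 (y - x) := by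
  unfold l1
  refine Finset.sum_congr rfl fun j _ => ?_
  show |Function.update y i (-y i) j - Function.update x i (-x i) j| = |y j - x j|
  by_cases hj : j = i
  · subst hj
    rw [Function.update_self, Function.update_self, ← abs_neg]
    congr 1
    ring
  · rw [Function.update_of_ne hj, Function.update_of_ne hj]

private theorem eFlip_zero (i : Fin d) : eFlip i (0 : V d) = 0 := by
  show Function.update (0 : V d) i (-(0 : V d) i) = 0
  simp

theorem tau_perm (p : ℝ) (σ : Equiv.Perm (Fin d)) (x : V d) :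
    tau p (fun i => x (σ i)) = tau p x :=
  tau_aut (ePerm σ) rfl (ePerm_l1 σ) p x

theorem tau_flip (p : ℝ) (i : Fin d) (x : V d) : tau p (Function.update x i (-x i)) = tau p x :=
  tau_aut (eFlip i) (eFlip_zero i) (eFlip_l1 i) p x

theorem PiN_perm (p : ℝ) (N : ℕ) (σ : Equiv.Perm (Fin d)) (x : V d) :
    PiN p N (fun i => x (σ i)) = PiN p N x :=
  PiN_aut (ePerm σ) rfl (ePerm_l1 σ) p N x

theorem PiN_flip (p : ℝ) (N : ℕ) (i : Fin d) (x : V d) :
    PiN p N (Function.update x i (-x i)) = PiN p N x :=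
  PiN_aut (eFlip i) (eFlip_zero i) (eFlip_l1 i) p N x

end Pool.Agent.PB.AFB
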