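import Pool.Agent.PB.AF.TauA

/-!
PB-AF-TauC.  Continuity of the two point function in `p`.

Plan. `tau_left`: put `E = {ω | Rch {e ∈ edgeSet | ω e < p} 0 x}` (strict inequality).  `⋃ n {Rch (opn (u n) ω) 0 x} = E` (a
connection uses finitely many edges: `Rch.exists_finite`; finitely many labels `< p` are `≤ u n` for large `n`), the union is
increasing, `measure_iUnion_eq_iSup` (`Monotone.measure_iUnion`).  `E` differs from `{Rch (opn p ω) 0 x}` by the
null set where some label equals `p` (countable union of null sets, as in `tau_zero`; `measure_congr`).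
(No measurability is needed for `Monotone.measure_iUnion`; otherwise: the events are measurable, countable unions over finite
edge sets.)
`tau_right`: for `p < pc d`, `u n ↓ p`: fix `q ∈ (p, pc d)` with `u n < q` eventually; `theta d q = 0`, so a.s. `Cl (opn q ω) 0` is
finite.  On this event, if `Rch (opn (u n) ω) 0 x` for all `n` then `Rch (opn p ω) 0 x`: the connection uses only
edges inside the finite set `Cl (opn q ω) 0` (`Rch.inside`), there are finitely many such edges, and those with label `> p` have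
label `> u n` for large `n`, so `opn (u n) ω` and `opn p ω` agree inside `Cl (opn q ω) 0`.  So `tau p x = ⨅ n, tau (u n) x`
(`Antitone.measure_iInter`, needs null measurability of `{Rch (opn q ω) 0 x}`: prove `measurableSet_rch` first:
`Rch O 0 x ↔ ∃ n, RchL O n 0 x` (`rch_iff_exists_RchL`) and induction on `n` (countable unions over `z : V d`)).
`tau_cont`: monotone function, left- and right-continuous along sequences (`tendsto_of_monotone`-type argument: for a
monotone real function, continuity within `Ico 0 pc` at `p` follows from `tau (p ± 1/n)` → `tau p`).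
-/

set_option autoImplicit false
open MeasureTheory Filter Topology
open scoped ENNReal BigOperators

namespace Pool.Agent.PB.AFB

variable {d : ℕ}

private theorem mes_opn (p : ℝ) (e : Sym2 (V d)) : MeasurableSet {ω : Om d | e ∈ opn p ω} := by
  have h : {ω : Om d | e ∈ opn p ω} =
      {_ω | e ∈ (lat d).edgeSet} ∩ {ω : Om d | ((ω (Sum.inl e) : unitInterval) : ℝ) ≤ p} := by
    ext ω; simp [opn]
  rw [h]
  refine (MeasurableSet.const _).inter ?_
  exact measurableSet_le (measurable_subtype_coe.comp (measurable_pi_apply _)) measurable_const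

private theorem mes_rchL (p : ℝ) (n : ℕ) (y x : V d) :
    MeasurableSet {ω : Om d | RchL (opn p ω) n y x} := by
  induction n generalizing x with
  | zero => exact MeasurableSet.const _
  | succ n ih =>
    have h : {ω : Om d | RchL (opn p ω) (n + 1) y x} =
        {ω | RchL (opn p ω) n y x} ∪
          ⋃ z, ({ω | RchL (opn p ω) n y z} ∩ {ω | s(z, x) ∈ opn p ω}) := by
      ext ω; simp [RchL]
    rw [h]
    exact (ih x).union (MeasurableSet.iUnion fun z => (ih z).inter (mes_opn p _))

private theorem null_label (p : ℝ) :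
    Pr d {ω : Om d | ∃ e : Sym2 (V d), ((ω (Sum.inl e) : unitInterval) : ℝ) = p} = 0 := by
  have h : {ω : Om d | ∃ e : Sym2 (V d), ((ω (Sum.inl e) : unitInterval) : ℝ) = p} =
      ⋃ e : Sym2 (V d), Function.eval (Sum.inl e : Ix d) ⁻¹' {a : unitInterval | (a : ℝ) = p} := by
    ext ω
    simp
  rw [h]
  refine measure_iUnion_null fun e => ?_
  have hm : MeasurableSet {a : unitInterval | (a : ℝ) = p} :=
    measurableSet_eq_fun measurable_subtype_coe measurable_const
  rw [Pr, (measurePreserving_eval_infinitePi (fun _ : Ix d => (volume : Measure unitInterval))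
    (Sum.inl e)).measure_preimage hm.nullMeasurableSet]
  apply Set.Subsingleton.measure_zero
  intro a ha b hb
  exact Subtype.ext (Eq.trans ha (Eq.symm hb))

theorem measurableSet_rch (p : ℝ) (y x : V d) : MeasurableSet {ω : Om d | Rch (opn p ω) y x} := by
  have h : {ω : Om d | Rch (opn p ω) y x} = ⋃ n, {ω | RchL (opn p ω) n y x} := by
    ext ω
    simp [rch_iff_exists_RchL]
  rw [h]
  exact MeasurableSet.iUnion fun n => mes_rchL p n y x

theorem tau_left (x : V d) {p : ℝ} {u : ℕ → ℝ} (hu : Monotone u) (h1 : ∀ n, u n < p)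
    (h2 : Tendsto u atTop (𝓝 p)) : tau p x = ⨆ n, tau (u n) x := by
  have hm : Monotone (fun n => {ω : Om d | Rch (opn (u n) ω) 0 x}) := fun m n hmn ω hω =>
    Rch.mono (opn_mono (hu hmn) ω) hω
  have h3 : Pr d (⋃ n, {ω : Om d | Rch (opn (u n) ω) 0 x}) = ⨆ n, tau (u n) x :=
    hm.measure_iUnion
  rw [← h3]
  apply le_antisymm
  · have hsub : {ω : Om d | Rch (opn p ω) 0 x} ⊆ (⋃ n, {ω : Om d | Rch (opn (u n) ω) 0 x}) ∪
        {ω : Om d | ∃ e : Sym2 (V d), ((ω (Sum.inl e) : unitInterval) : ℝ) = p} := by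
      intro ω hω
      by_cases hN : ∃ e : Sym2 (V d), ((ω (Sum.inl e) : unitInterval) : ℝ) = p
      · exact Or.inr hN
      left
      push Not at hN
      obtain ⟨S, hS, hf, hr⟩ := Rch.exists_finite hω
      have hev : ∀ᶠ n in atTop, ∀ e ∈ S, ((ω (Sum.inl e) : unitInterval) : ℝ) ≤ u n := by
        refine (eventually_all_finite hf).2 fun e he => ?_
        have h4 : ((ω (Sum.inl e) : unitInterval) : ℝ) < p := lt_of_le_of_ne (hS he).2 (hN e)
        exact (h2.eventually (lt_mem_nhds h4)).mono fun n hn => hn.le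
      obtain ⟨n, hn⟩ := hev.exists
      rw [Set.mem_iUnion]
      exact ⟨n, Rch.mono (O' := opn (u n) ω) (fun e he => ⟨(hS he).1, hn e he⟩) hr⟩
    calc tau p x ≤ Pr d ((⋃ n, {ω : Om d | Rch (opn (u n) ω) 0 x}) ∪
        {ω : Om d | ∃ e : Sym2 (V d), ((ω (Sum.inl e) : unitInterval) : ℝ) = p}) :=
          measure_mono hsub
      _ ≤ Pr d (⋃ n, {ω : Om d | Rch (opn (u n) ω) 0 x}) +
        Pr d {ω : Om d | ∃ e : Sym2 (V d), ((ω (Sum.inl e) : unitInterval) : ℝ) = p} :=
          measure_union_le _ _
      _ = Pr d (⋃ n, {ω : Om d | Rch (opn (u n) ω) 0 x}) := by rw [null_label, add_zero]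
  · refine measure_mono ?_
    intro ω hω
    obtain ⟨n, hn⟩ := Set.mem_iUnion.1 hω
    exact Rch.mono (opn_mono (h1 n).le ω) hn

private theorem tau_right (hd : 1 ≤ d) (x : V d) {p : ℝ} (hp : p < pc d) {u : ℕ → ℝ}
    (hu : Antitone u) (h1 : ∀ n, p < u n) (h2 : Tendsto u atTop (𝓝 p)) :
    Tendsto (fun n => tau (u n) x) atTop (𝓝 (tau p x)) := by
  have hm : Antitone (fun n => {ω : Om d | Rch (opn (u n) ω) 0 x}) := fun m n hmn ω hω =>
    Rch.mono (opn_mono (hu hmn) ω) hω
  have h3 := tendsto_measure_iInter_atTop (μ := Pr d)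
    (fun n => (measurableSet_rch (u n) 0 x).nullMeasurableSet) hm ⟨0, measure_ne_top _ _⟩
  have h4 : Pr d (⋂ n, {ω : Om d | Rch (opn (u n) ω) 0 x}) = tau p x := by
    apply le_antisymm
    · obtain ⟨q, hq1, hq2⟩ := exists_between hp
      have hsub : (⋂ n, {ω : Om d | Rch (opn (u n) ω) 0 x}) ⊆
          {ω : Om d | Rch (opn p ω) 0 x} ∪ {ω : Om d | (Cl (opn q ω) 0).Infinite} := by
        intro ω hω
        by_cases hN : (Cl (opn q ω) 0).Infinite
        · exact Or.inr hN
        left
        rw [Set.not_infinite] at hN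
        have hEf : {e : Sym2 (V d) | ∀ z ∈ e, z ∈ Cl (opn q ω) 0}.Finite := by
          have h5 : {e : Sym2 (V d) | ∀ z ∈ e, z ∈ Cl (opn q ω) 0} =
              ((hN.toFinset.sym2 : Finset (Sym2 (V d))) : Set (Sym2 (V d))) := by
            ext e
            rw [Set.mem_ofPred_eq, Finset.mem_coe, Finset.mem_sym2_iff]
            simp only [Set.Finite.mem_toFinset]
          rw [h5]
          exact Finset.finite_toSet _
        have hev : ∀ᶠ n in atTop, ∀ e ∈ {e : Sym2 (V d) | ∀ z ∈ e, z ∈ Cl (opn q ω) 0},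
            ((ω (Sum.inl e) : unitInterval) : ℝ) ≤ u n →
              ((ω (Sum.inl e) : unitInterval) : ℝ) ≤ p := by
          refine (eventually_all_finite hEf).2 fun e _ => ?_
          by_cases h6 : ((ω (Sum.inl e) : unitInterval) : ℝ) ≤ p
          · exact Filter.Eventually.of_forall fun n _ => h6
          · exact (h2.eventually (gt_mem_nhds (not_le.1 h6))).mono fun n hn h7 =>
              absurd h7 (not_le.2 hn)
        obtain ⟨n, hn1, hn2⟩ := (hev.and (h2.eventually (gt_mem_nhds hq1))).exists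
        have h7 : Rch (opn (u n) ω) 0 x := Set.mem_iInter.1 hω n
        refine h7.inside.mono ?_
        rintro e ⟨he1, he2⟩
        refine ⟨he1.1, hn1 e ?_ he1.2⟩
        intro z hz
        exact Cl_mono (opn_mono hn2.le ω) 0 (he2 z hz)
      calc Pr d (⋂ n, {ω : Om d | Rch (opn (u n) ω) 0 x}) ≤
          Pr d ({ω : Om d | Rch (opn p ω) 0 x} ∪ {ω : Om d | (Cl (opn q ω) 0).Infinite}) :=
            measure_mono hsub
        _ ≤ Pr d {ω : Om d | Rch (opn p ω) 0 x} + Pr d {ω : Om d | (Cl (opn q ω) 0).Infinite} :=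
            measure_union_le _ _
        _ = tau p x := by
            have h8 : Pr d {ω : Om d | (Cl (opn q ω) 0).Infinite} = 0 := theta_eq_zero hd hq2
            rw [h8, add_zero]
            rfl
    · refine measure_mono ?_
      intro ω hω
      refine Set.mem_iInter.2 fun n => ?_
      exact Rch.mono (opn_mono (h1 n).le ω) hω
  rw [h4] at h3
  exact h3

theorem tau_cont (hd : 1 ≤ d) (x : V d) : ContinuousOn (fun p => taur p x) (Set.Ico 0 (pc d)) := by
  intro p hp
  refine ContinuousAt.continuousWithinAt ?_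
  have hmono : ∀ {a b : ℝ}, a ≤ b → taur a x ≤ taur b x := fun {a b} hab =>
    ENNReal.toReal_mono (tau_ne_top b x) (tau_mono hab x)
  have hlim : Tendsto (fun n : ℕ => (1 : ℝ) / (n + 1)) atTop (𝓝 0) :=
    tendsto_one_div_add_atTop_nhds_zero_nat
  have hanti : ∀ {m n : ℕ}, m ≤ n → (1 : ℝ) / (n + 1) ≤ 1 / (m + 1) := fun {m n} hmn => by
    apply one_div_le_one_div_of_le (by positivity)
    have : (m : ℝ) ≤ n := by exact_mod_cast hmn
    linarith
  have hpos : ∀ n : ℕ, (0 : ℝ) < 1 / (n + 1) := fun n => by positivity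
  -- left limit
  have hL : Tendsto (fun n : ℕ => taur (p - 1 / (n + 1)) x) atTop (𝓝 (taur p x)) := by
    have h1 : Monotone (fun n : ℕ => p - 1 / ((n : ℝ) + 1)) := fun m n hmn => by
      have := hanti hmn
      simp only
      linarith
    have h2 : Tendsto (fun n : ℕ => p - 1 / ((n : ℝ) + 1)) atTop (𝓝 p) := by
      simpa using (tendsto_const_nhds (x := p)).sub hlim
    have h3 := tau_left x h1 (fun n => by have := hpos n; linarith) h2
    have h4 : Tendsto (fun n : ℕ => tau (p - 1 / ((n : ℝ) + 1)) x) atTop (𝓝 (tau p x)) := by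
      rw [h3]
      exact tendsto_atTop_iSup fun m n hmn => tau_mono (h1 hmn) x
    exact (ENNReal.tendsto_toReal (tau_ne_top p x)).comp h4
  have hR : Tendsto (fun n : ℕ => taur (p + 1 / (n + 1)) x) atTop (𝓝 (taur p x)) := by
    have h1 : Antitone (fun n : ℕ => p + 1 / ((n : ℝ) + 1)) := fun m n hmn => by
      have := hanti hmn
      simp only
      linarith
    have h2 : Tendsto (fun n : ℕ => p + 1 / ((n : ℝ) + 1)) atTop (𝓝 p) := by
      simpa using (tendsto_const_nhds (x := p)).add hlim
    have h4 := tau_right hd x hp.2 h1 (fun n => by have := hpos n; linarith) h2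
    exact (ENNReal.tendsto_toReal (tau_ne_top p x)).comp h4
  rw [Metric.continuousAt_iff]
  intro ε hε
  obtain ⟨n, hn1, hn2⟩ := ((Metric.tendsto_nhds.1 hL ε hε).and (Metric.tendsto_nhds.1 hR ε hε)).exists
  refine ⟨1 / (n + 1), hpos n, fun {q} hq => ?_⟩
  rw [Real.dist_eq, abs_lt] at hq hn1 hn2 ⊢
  have h5 := hmono (show p - 1 / ((n : ℝ) + 1) ≤ q by linarith [hq.1])
  have h6 := hmono (show q ≤ p + 1 / ((n : ℝ) + 1) by linarith [hq.2])
  constructor
  · linarith [hn1.1]
  · linarith [hn2.2]

end Pool.Agent.PB.AFB
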