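import Pool.Agent.PB.Crit
import Pool.Agent.PB.AF.Main
import Pool.Agent.PB.AF.Series
import Pool.Agent.PB.AF.TauC
import Pool.Agent.PB.AF.SymP
import Pool.Agent.PB.AF.Lim

/-!
Project PB, section 4.5: output of the lace expansion.
-/

set_option autoImplicit false
open MeasureTheory Filter Topology
open scoped ENNReal BigOperators

namespace Pool.Agent.PB.AFB

variable {d : ℕ}

theorem PiN_zero_zero (p : ℝ) : PiN p 0 (0 : V d) = 1 := by
  show Pr d {ω | DConn (opn p ω) 0 0} = 1
  have h : {ω : Om d | DConn (opn p ω) 0 0} = Set.univ := by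
    ext ω
    simp only [Set.mem_ofPred_eq, Set.mem_univ, iff_true]
    refine ⟨Rch.refl _ _, fun e he => he.2 ?_⟩
    exact ⟨0, rfl, Rch.refl _ _⟩
  rw [h, measure_univ]

theorem four_rho_le (K : ℕ) (p : ℝ) (f : AF.Z d → ℝ≥0∞) : 4 * AF.rho K p f ≤ AF.rho (4 * K) p f := by
  unfold AF.rho
  have h1 : (1 : ℝ≥0∞) ≤ AF.bigB f := by
    unfold AF.bigB
    rw [add_assoc]
    exact le_self_add
  have h2 : AF.bigB f ^ K ≤ AF.bigB f ^ (4 * K) := pow_le_pow_right₀ h1 (by omega)
  push_cast
  calc 4 * ((K : ℝ≥0∞) * AF.bigB f ^ K * AF.small p f)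
      = (4 * (K : ℝ≥0∞)) * AF.bigB f ^ K * AF.small p f := by ring
    _ ≤ (4 * (K : ℝ≥0∞)) * AF.bigB f ^ (4 * K) * AF.small p f := by gcongr

theorem toLace {K : ℕ} (hd : 1 ≤ d) (h3 : Sub3 d) (hE : LaceExp K d) :
    AF.Lace (4 * K) d (pc d) (taur : ℝ → V d → ℝ) where
  nonneg p x := ENNReal.toReal_nonneg
  le_one p x := by
    have := ENNReal.toReal_mono ENNReal.one_ne_top (tau_le_one p x)
    simpa [taur] using this
  zero x := by
    by_cases h : x = 0
    · subst h
      simp [taur, tau_self]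
    · simp [taur, tau_zero h, h]
  at0 p := by simp [taur, tau_self]
  sym p := ⟨fun σ x => by simp [taur, tau_perm], fun i x => by simp [taur, tau_flip]⟩
  summ p _ hp := by
    unfold AF.M2
    have h1 : ∑' x : V d, (tau p x + tauw p x) < ⊤ := by
      rw [ENNReal.tsum_add]
      exact ENNReal.add_lt_top.2 ⟨h3.chi_lt p hp, h3.mom_lt p hp⟩
    refine (ENNReal.summable_toReal h1.ne).congr fun x => ?_
    have ha : |taur p x| = (tau p x).toReal := abs_of_nonneg ENNReal.toReal_nonneg
    rw [ha, ENNReal.toReal_add (tau_ne_top p x)]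
    · unfold tauw
      rw [ENNReal.toReal_mul, ENNReal.toReal_natCast]
      show (tau p x).toReal + (AF.n2 x : ℝ) * (tau p x).toReal = _
      ring
    · unfold tauw
      exact ENNReal.mul_ne_top (ENNReal.natCast_ne_top _) (tau_ne_top p x)
  mono p q x _ hpq _ := ENNReal.toReal_mono (tau_ne_top q x) (tau_mono hpq x)
  cont x := tau_cont hd x
  exp p hp0 hp hr := by
    have hr' : 4 * rhoT K d p ≤ 1 := by
      rw [rhoT_eq]
      exact (four_rho_le K p _).trans hr
    have hr1 : rhoT K d p ≤ 1 := by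
      refine le_trans ?_ hr'
      calc rhoT K d p = 1 * rhoT K d p := (one_mul _).symm
        _ ≤ 4 * rhoT K d p := by gcongr; norm_num
    obtain ⟨P, hP1, hP2, hP3, hP4, hP5⟩ := AF.series_exp (d := d) (p := p) hp0 (T := taur p)
      (fun x => ENNReal.toReal_nonneg)
      (fun x => by
        have := ENNReal.toReal_mono ENNReal.one_ne_top (tau_le_one p x)
        simpa [taur] using this)
      (A := fun N x => PiN p N x) (R := fun N x => RN p N x) (r := rhoT K d p) hr'
      (PiN_zero_zero p) (fun N σ x => PiN_perm p N σ x) (fun N i x => PiN_flip p N i x)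
      (fun x => by
        rw [en_taur]
        have := hE.e1 p hp0 hp x
        rw [conv_eq, conv_eq, J_eq] at this
        exact this)
      (fun N x => by
        rw [en_taur]
        have := hE.e2 p hp0 hp N x
        rw [conv_eq, conv_eq, J_eq] at this
        exact this)
      (hE.b1 p hp0 hp) (hE.b2 p hp0 hp) (hE.b3 p hp0 hp) (hE.b4 p hp0 hp hr1)
    refine ⟨P, hP1, hP2, hP3.trans ?_, hP4.trans ?_, hP5⟩
    · rw [rhoT_eq]; exact four_rho_le K p _
    · rw [rhoT_eq]; exact four_rho_le K p _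

/-- OUTPUT of section 4: `pc < 1`, (L2), (L3) in high dimensions -/
theorem lace_out (K : ℕ) : ∃ d0 : ℕ, ∀ d : ℕ, d0 ≤ d → Sub3 d → LaceExp K d →
    pc d < 1 ∧ 2 * d * pc d ≤ 3 ∧ Bm d (pc d) 8 < ⊤ ∧
      Bm d (pc d) 4 * sm d (pc d) 3 ≤ ENNReal.ofReal (1 / 100) := by
  obtain ⟨d0, C, hC, h⟩ := AF.main (4 * K)
  refine ⟨max d0 2, fun d hd h3 hE => ?_⟩
  have hd0 : d0 ≤ d := (le_max_left _ _).trans hd
  have hd2 : 2 ≤ d := (le_max_right _ _).trans hd
  have hL := toLace (by omega) h3 hE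
  have hpos := h3.pc_pos
  -- a sequence increasing to pc
  set u : ℕ → ℝ := fun n => pc d - pc d / (n + 1) with hu
  have hu0 : ∀ n, 0 ≤ u n := by
    intro n
    have : pc d / ((n : ℝ) + 1) ≤ pc d := div_le_self hpos.le (by linarith [n.cast_nonneg (α := ℝ)])
    simp only [hu]; linarith
  have hu1 : ∀ n, u n < pc d := by
    intro n
    have : 0 < pc d / ((n : ℝ) + 1) := by positivity
    simp only [hu]; linarith
  have hum : Monotone u := by
    intro m n hmn
    simp only [hu]
    have : pc d / ((n : ℝ) + 1) ≤ pc d / ((m : ℝ) + 1) := by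
      apply div_le_div_of_nonneg_left hpos.le (by positivity)
      have : (m : ℝ) ≤ n := by exact_mod_cast hmn
      linarith
    linarith
  have hut : Tendsto u atTop (𝓝 (pc d)) := by
    have h1 : Tendsto (fun n : ℕ => pc d / ((n : ℝ) + 1)) atTop (𝓝 0) := by
      have := (tendsto_one_div_add_atTop_nhds_zero_nat (𝕜 := ℝ)).const_mul (pc d)
      simpa [div_eq_mul_inv] using this
    simpa [hu] using (tendsto_const_nhds (x := pc d)).sub h1
  have hb := fun n => h d hd0 (pc d) (taur : ℝ → V d → ℝ) hL (u n) (hu0 n) (hu1 n)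
  have hpc3 : 2 * d * pc d ≤ 3 := by
    have h1 : Tendsto (fun n => 2 * (d : ℝ) * u n) atTop (𝓝 (2 * d * pc d)) := hut.const_mul _
    exact le_of_tendsto' h1 fun n => (hb n).1
  have hd' : (2 : ℝ) ≤ d := by exact_mod_cast hd2
  have htau : (tau (pc d) : V d → ℝ≥0∞) = ⨆ n, tau (u n) := by
    funext x
    rw [iSup_apply]
    exact tau_left x hum hu1 hut
  have hfm : Monotone (fun n => (tau (u n) : V d → ℝ≥0∞)) := fun m n hmn x => tau_mono (hum hmn) x
  have hlim := AF.lim_bound (d := d) hum hut (f := fun n => (tau (u n) : V d → ℝ≥0∞)) hfm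
    (C := ENNReal.ofReal C) (c := ENNReal.ofReal (1 / 100))
    (fun n => by have := (hb n).2.1; rwa [en_taur] at this)
    (fun n => by have := (hb n).2.2; rwa [en_taur] at this)
  rw [← htau] at hlim
  refine ⟨?_, hpc3, ?_, ?_⟩
  · nlinarith
  · rw [Bm_eq]
    exact hlim.1.trans_lt ENNReal.ofReal_lt_top
  · rw [Bm_eq, sm_eq]
    exact hlim.2

end Pool.Agent.PB.AFB
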