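import Pool.Agent.PB.AF.Base

/-!
PB-AF-RWa.  The random walk integrals are nonincreasing in the dimension.

Plan. For `j : Fin (d+1)` let `k^(j) = fun i => k (j.succAbove i) : Fin d → ℝ`.  Then
`1 - Dh k = (1/(d+1)) ∑_j (1 - Dh k^(j))` for `d ≥ 1`
(each coordinate `i` occurs in `d` of the `d+1` vectors `k^(j)`; `Fin.sum_univ_succAbove`).
Convexity of `t ↦ t^{-m}` (Jensen; `convexOn_zpow`/`ConvexOn.map_sum_le`, or in `[0,∞]`: if some `1 - Dh k^(j) = 0`
the right hand side is `∞`): `(1 - Dh k)^{-m} ≤ (1/(d+1)) ∑_j (1 - Dh k^(j))^{-m}` in `[0,∞]`.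
Integrate: `k ↦ k^(j)` maps `Q (d+1)` to `Q d` (`measurePreserving_piFinSuccAbove (fun _ => q1) j`
composed with `measurePreserving_snd`), so every term has integral `Im d m` (`MeasurePreserving.lintegral_comp`).
-/

open MeasureTheory Filter Topology
open scoped ENNReal

namespace Pool.Agent.PB.AF

private theorem rwa_avg (d : ℕ) (hd : 1 ≤ d) (k : Fin (d + 1) → ℝ) :
    ∑ j : Fin (d + 1), (1 - Dh (fun i => k (j.succAbove i))) = ((d : ℝ) + 1) * (1 - Dh k) := by
  have hd0 : (d : ℝ) ≠ 0 := by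
    have : (0 : ℝ) < d := by exact_mod_cast hd
    exact this.ne'
  have h1 : ∀ j : Fin (d + 1), ∑ i : Fin d, Real.cos (k (j.succAbove i)) =
      (∑ i, Real.cos (k i)) - Real.cos (k j) := by
    intro j
    rw [Fin.sum_univ_succAbove (fun i => Real.cos (k i)) j]
    ring
  unfold Dh
  simp only [h1]
  rw [Finset.sum_sub_distrib, ← Finset.sum_div, Finset.sum_sub_distrib]
  simp only [Finset.sum_const, Finset.card_univ, Fintype.card_fin, nsmul_eq_mul]
  push_cast
  field_simp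
  ring

private theorem rwa_ofReal {a : ℝ} (ha : 0 < a) (m : ℕ) :
    (ENNReal.ofReal a)⁻¹ ^ m = ENNReal.ofReal (a ^ (-(m : ℤ))) := by
  rw [← ENNReal.ofReal_inv_of_pos ha, ← ENNReal.ofReal_pow (inv_nonneg.2 ha.le), zpow_neg,
    zpow_natCast, inv_pow]

private theorem rwa_pt (d m : ℕ) (hd : 1 ≤ d) (k : Fin (d + 1) → ℝ) :
    ((d : ℝ≥0∞) + 1) * (ENNReal.ofReal (1 - Dh k))⁻¹ ^ m ≤
      ∑ j : Fin (d + 1), (ENNReal.ofReal (1 - Dh (fun i => k (j.succAbove i))))⁻¹ ^ m := by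
  rcases Nat.eq_zero_or_pos m with rfl | hm
  · simp
  have ha : ∀ j : Fin (d + 1), 0 ≤ 1 - Dh (fun i => k (j.succAbove i)) := fun j => by
    have := Dh_le_one (fun i => k (j.succAbove i))
    linarith
  by_cases h0 : ∃ j : Fin (d + 1), 1 - Dh (fun i => k (j.succAbove i)) = 0
  · obtain ⟨j, hj⟩ := h0
    have h1 : (ENNReal.ofReal (1 - Dh (fun i => k (j.succAbove i))))⁻¹ ^ m = ∞ := by
      rw [hj, ENNReal.ofReal_zero, ENNReal.inv_zero, ENNReal.top_pow hm.ne']
    have h2 : (∞ : ℝ≥0∞) ≤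
        ∑ j : Fin (d + 1), (ENNReal.ofReal (1 - Dh (fun i => k (j.succAbove i))))⁻¹ ^ m := by
      rw [← h1]
      exact Finset.single_le_sum (f := fun j : Fin (d + 1) =>
        (ENNReal.ofReal (1 - Dh (fun i => k (j.succAbove i))))⁻¹ ^ m) (fun _ _ => zero_le)
        (Finset.mem_univ j)
    exact le_top.trans h2
  · push Not at h0
    have hpos : ∀ j : Fin (d + 1), 0 < 1 - Dh (fun i => k (j.succAbove i)) := fun j =>
      lt_of_le_of_ne (ha j) (h0 j).symm
    have hd1 : (0 : ℝ) < (d : ℝ) + 1 := by positivity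
    have havg := rwa_avg d hd k
    have hk : 1 - Dh k = ∑ j : Fin (d + 1), ((d : ℝ) + 1)⁻¹ •
        (1 - Dh (fun i => k (j.succAbove i))) := by
      rw [← Finset.smul_sum, havg, smul_eq_mul, inv_mul_cancel_left₀ hd1.ne']
    have hkpos : 0 < 1 - Dh k := by
      have h1 : 0 < ((d : ℝ) + 1) * (1 - Dh k) := by
        rw [← havg]
        exact Finset.sum_pos (fun j _ => hpos j) ⟨0, Finset.mem_univ _⟩
      exact pos_of_mul_pos_right h1 hd1.le
    have hconv := (convexOn_zpow (𝕜 := ℝ) (-(m : ℤ))).map_sum_le (t := Finset.univ)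
      (w := fun _ : Fin (d + 1) => ((d : ℝ) + 1)⁻¹)
      (p := fun j : Fin (d + 1) => 1 - Dh (fun i => k (j.succAbove i)))
      (fun _ _ => by positivity) (by
        rw [Finset.sum_const, Finset.card_univ, Fintype.card_fin, nsmul_eq_mul]
        push_cast
        exact mul_inv_cancel₀ hd1.ne') (fun j _ => hpos j)
    rw [← hk, ← Finset.smul_sum, smul_eq_mul] at hconv
    have h3 : ((d : ℝ) + 1) * (1 - Dh k) ^ (-(m : ℤ)) ≤
        ∑ j : Fin (d + 1), (1 - Dh (fun i => k (j.succAbove i))) ^ (-(m : ℤ)) := by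
      have := mul_le_mul_of_nonneg_left hconv hd1.le
      rwa [mul_inv_cancel_left₀ hd1.ne'] at this
    rw [rwa_ofReal hkpos]
    have h4 : ∀ j : Fin (d + 1), (ENNReal.ofReal (1 - Dh (fun i => k (j.succAbove i))))⁻¹ ^ m =
        ENNReal.ofReal ((1 - Dh (fun i => k (j.succAbove i))) ^ (-(m : ℤ))) := fun j =>
      rwa_ofReal (hpos j) m
    simp only [h4]
    rw [← ENNReal.ofReal_sum_of_nonneg fun j _ => zpow_nonneg (ha j) _]
    have h5 : ((d : ℝ≥0∞) + 1) = ENNReal.ofReal ((d : ℝ) + 1) := by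
      rw [ENNReal.ofReal_add (Nat.cast_nonneg _) zero_le_one, ENNReal.ofReal_natCast,
        ENNReal.ofReal_one]
    rw [h5, ← ENNReal.ofReal_mul hd1.le]
    exact ENNReal.ofReal_le_ofReal h3

theorem Im_succ_le (d m : ℕ) (hd : 1 ≤ d) : Im (d + 1) m ≤ Im d m := by
  have hmeas : Measurable (fun k : Fin d → ℝ => (ENNReal.ofReal (1 - Dh k))⁻¹ ^ m) :=
    ((ENNReal.measurable_ofReal.comp (measurable_const.sub Dh_cont.measurable)).inv).pow_const m
  have hmp : ∀ j : Fin (d + 1), MeasurePreserving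
      (fun (k : Fin (d + 1) → ℝ) (i : Fin d) => k (j.succAbove i)) (Q (d + 1)) (Q d) := by
    intro j
    have h1 := measurePreserving_piFinSuccAbove (fun _ : Fin (d + 1) => q1) j
    have h2 : MeasurePreserving (Prod.snd : ℝ × (Fin d → ℝ) → (Fin d → ℝ))
        (q1.prod (Measure.pi fun _ : Fin d => q1)) (Measure.pi fun _ : Fin d => q1) :=
      measurePreserving_snd
    exact h2.comp h1
  have hd0 : ((d : ℝ≥0∞) + 1) ≠ 0 := by simp
  have hd1 : ((d : ℝ≥0∞) + 1) ≠ ∞ := by finiteness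
  have key : ((d : ℝ≥0∞) + 1) * Im (d + 1) m ≤ ((d : ℝ≥0∞) + 1) * Im d m := by
    calc ((d : ℝ≥0∞) + 1) * Im (d + 1) m =
          ∫⁻ k, ((d : ℝ≥0∞) + 1) * (ENNReal.ofReal (1 - Dh k))⁻¹ ^ m ∂(Q (d + 1)) := by
            unfold Im
            rw [lintegral_const_mul' _ _ hd1]
      _ ≤ ∫⁻ k, ∑ j : Fin (d + 1), (ENNReal.ofReal (1 - Dh (fun i => k (j.succAbove i))))⁻¹ ^ m
            ∂(Q (d + 1)) := lintegral_mono fun k => rwa_pt d m hd k
      _ = ∑ j : Fin (d + 1), ∫⁻ k, (ENNReal.ofReal (1 - Dh (fun i => k (j.succAbove i))))⁻¹ ^ m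
            ∂(Q (d + 1)) := by
            rw [lintegral_finsetSum _ fun j _ => ?_]
            exact hmeas.comp (hmp j).measurable
      _ = ∑ _j : Fin (d + 1), Im d m := by
            refine Finset.sum_congr rfl fun j _ => ?_
            exact (hmp j).lintegral_comp hmeas
      _ = ((d : ℝ≥0∞) + 1) * Im d m := by
            rw [Finset.sum_const, Finset.card_univ, Fintype.card_fin, nsmul_eq_mul]
            push_cast
            ring
  exact (ENNReal.mul_le_mul_iff_right hd0 hd1).1 key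

end Pool.Agent.PB.AF
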